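import Pool.Agent.W_1ab439_h81.Defs

/-! Basic facts on the class `CC` (all proved). -/

set_option autoImplicit false

open MeasureTheory Set

namespace Pool.Agent.W_1ab439_h81

variable {f g a b : ℝ × ℝ → ℝ}

theorem CC.diff (hf : CC f) : Differentiable ℝ f := hf.1.differentiable one_ne_zero

theorem CC.cont (hf : CC f) : Continuous f := hf.1.continuous

theorem CC.dx_cont (hf : CC f) : Continuous (dx f) :=
  (hf.1.continuous_fderiv one_ne_zero).clm_apply continuous_const

theorem CC.dy_cont (hf : CC f) : Continuous (dy f) :=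
  (hf.1.continuous_fderiv one_ne_zero).clm_apply continuous_const

theorem CC.dx_cpt (hf : CC f) : HasCompactSupport (dx f) := by
  have h := hf.2.fderiv (𝕜 := ℝ)
  exact h.comp_left (g := fun L : (ℝ × ℝ) →L[ℝ] ℝ => L (1, 0)) (by simp)

theorem CC.dy_cpt (hf : CC f) : HasCompactSupport (dy f) := by
  have h := hf.2.fderiv (𝕜 := ℝ)
  exact h.comp_left (g := fun L : (ℝ × ℝ) →L[ℝ] ℝ => L (0, 1)) (by simp)

theorem CC.bden_cont (hf : CC f) (hg : CC g) : Continuous (bden f g) := by
  have := hf.dx_cont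
  have := hf.dy_cont
  have := hg.dx_cont
  have := hg.dy_cont
  have := hf.cont
  have := hg.cont
  unfold bden
  fun_prop

theorem den_eq_bden (f : ℝ × ℝ → ℝ) : den f = bden f f := by
  funext z
  simp only [den, bden]
  ring

theorem CC.den_cont (hf : CC f) : Continuous (den f) := by
  rw [den_eq_bden]
  exact hf.bden_cont hf

theorem CC.bden_cpt (hf : CC f) (_hg : CC g) : HasCompactSupport (bden f g) := by
  unfold bden
  exact (hf.dx_cpt.mul_right.add hf.dy_cpt.mul_right).sub hf.2.mul_right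

theorem CC.den_cpt (hf : CC f) : HasCompactSupport (den f) := by
  rw [den_eq_bden]
  exact hf.bden_cpt hf

theorem CC.bden_int (hf : CC f) (hg : CC g) : Integrable (bden f g) :=
  (hf.bden_cont hg).integrable_of_hasCompactSupport (hf.bden_cpt hg)

theorem CC.den_int (hf : CC f) : Integrable (den f) :=
  hf.den_cont.integrable_of_hasCompactSupport hf.den_cpt

theorem CC.int (hf : CC f) : Integrable f := hf.cont.integrable_of_hasCompactSupport hf.2

theorem CC.hasDerivAt_x (hf : CC f) (x y : ℝ) : HasDerivAt (fun x => f (x, y)) (dx f (x, y)) x := by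
  have h := (hf.diff (x, y)).hasFDerivAt
  have h2 : HasDerivAt (fun x : ℝ => ((x, y) : ℝ × ℝ)) (1, 0) x :=
    (hasDerivAt_id x).prodMk (hasDerivAt_const x y)
  exact h.comp_hasDerivAt x h2

theorem CC.hasDerivAt_y (hf : CC f) (x y : ℝ) : HasDerivAt (fun y => f (x, y)) (dy f (x, y)) y := by
  have h := (hf.diff (x, y)).hasFDerivAt
  have h2 : HasDerivAt (fun y : ℝ => ((x, y) : ℝ × ℝ)) (0, 1) y :=
    (hasDerivAt_const y x).prodMk (hasDerivAt_id y)
  exact h.comp_hasDerivAt y h2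

theorem CC.smul (hf : CC f) (c : ℝ) : CC (fun z => c * f z) :=
  ⟨contDiff_const.mul hf.1, hf.2.mul_left⟩

theorem CC.add (hf : CC f) (hg : CC g) : CC (fun z => f z + g z) :=
  ⟨hf.1.add hg.1, hf.2.add hg.2⟩

theorem CC.neg (hf : CC f) : CC (fun z => -f z) := by
  have := hf.smul (-1)
  simpa using this

theorem CC.rot (ha : CC a) (hb : CC b) (s : ℝ) : CC (rot a b s) :=
  (ha.smul (Real.cos s)).add (hb.smul (Real.sin s))

theorem CC.lin {v : Fin 3 → ℝ × ℝ → ℝ} (hv : ∀ i, CC (v i)) (c : Fin 3 → ℝ) : CC (lin v c) := by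
  have h : W_1ab439_h81.lin v c = fun z => (c 0 * v 0 z + c 1 * v 1 z) + c 2 * v 2 z := by
    funext z
    simp [W_1ab439_h81.lin, Fin.sum_univ_three]
  rw [h]
  exact (((hv 0).smul (c 0)).add ((hv 1).smul (c 1))).add ((hv 2).smul (c 2))

theorem dx_smul (hf : CC f) (c : ℝ) (z : ℝ × ℝ) : dx (fun z => c * f z) z = c * dx f z := by
  have h : fderiv ℝ (fun z => c * f z) z = c • fderiv ℝ f z := fderiv_const_mul (hf.diff z) c
  simp [dx, h]

theorem dy_smul (hf : CC f) (c : ℝ) (z : ℝ × ℝ) : dy (fun z => c * f z) z = c * dy f z := by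
  have h : fderiv ℝ (fun z => c * f z) z = c • fderiv ℝ f z := fderiv_const_mul (hf.diff z) c
  simp [dy, h]

theorem dx_add (hf : CC f) (hg : CC g) (z : ℝ × ℝ) :
    dx (fun z => f z + g z) z = dx f z + dx g z := by
  have h : fderiv ℝ (fun z => f z + g z) z = fderiv ℝ f z + fderiv ℝ g z :=
    fderiv_fun_add (hf.diff z) (hg.diff z)
  simp [dx, h]

theorem dy_add (hf : CC f) (hg : CC g) (z : ℝ × ℝ) :
    dy (fun z => f z + g z) z = dy f z + dy g z := by
  have h : fderiv ℝ (fun z => f z + g z) z = fderiv ℝ f z + fderiv ℝ g z :=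
    fderiv_fun_add (hf.diff z) (hg.diff z)
  simp [dy, h]

theorem dx_rot (ha : CC a) (hb : CC b) (s : ℝ) (z : ℝ × ℝ) :
    dx (rot a b s) z = Real.cos s * dx a z + Real.sin s * dx b z := by
  have h := dx_add (ha.smul (Real.cos s)) (hb.smul (Real.sin s)) z
  rw [dx_smul ha, dx_smul hb] at h
  exact h

theorem dy_rot (ha : CC a) (hb : CC b) (s : ℝ) (z : ℝ × ℝ) :
    dy (rot a b s) z = Real.cos s * dy a z + Real.sin s * dy b z := by
  have h := dy_add (ha.smul (Real.cos s)) (hb.smul (Real.sin s)) z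
  rw [dy_smul ha, dy_smul hb] at h
  exact h

theorem dx_neg (hf : CC f) (z : ℝ × ℝ) : dx (fun z => -f z) z = -dx f z := by
  have := dx_smul hf (-1) z
  simpa using this

theorem dy_neg (hf : CC f) (z : ℝ × ℝ) : dy (fun z => -f z) z = -dy f z := by
  have := dy_smul hf (-1) z
  simpa using this

theorem rot_add_pi (a b : ℝ × ℝ → ℝ) (s : ℝ) : rot a b (s + Real.pi) = fun z => -(rot a b s z) := by
  funext z
  simp only [rot, Real.cos_add_pi, Real.sin_add_pi]
  ring

theorem dx_lin {v : Fin 3 → ℝ × ℝ → ℝ} (hv : ∀ i, CC (v i)) (c : Fin 3 → ℝ) (z : ℝ × ℝ) :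
    dx (lin v c) z = ∑ i, c i * dx (v i) z := by
  have h : W_1ab439_h81.lin v c = fun z => (c 0 * v 0 z + c 1 * v 1 z) + c 2 * v 2 z := by
    funext z
    simp [W_1ab439_h81.lin, Fin.sum_univ_three]
  rw [h, dx_add (((hv 0).smul (c 0)).add ((hv 1).smul (c 1))) ((hv 2).smul (c 2)),
    dx_add ((hv 0).smul (c 0)) ((hv 1).smul (c 1)), dx_smul (hv 0), dx_smul (hv 1), dx_smul (hv 2),
    Fin.sum_univ_three]

theorem dy_lin {v : Fin 3 → ℝ × ℝ → ℝ} (hv : ∀ i, CC (v i)) (c : Fin 3 → ℝ) (z : ℝ × ℝ) :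
    dy (lin v c) z = ∑ i, c i * dy (v i) z := by
  have h : W_1ab439_h81.lin v c = fun z => (c 0 * v 0 z + c 1 * v 1 z) + c 2 * v 2 z := by
    funext z
    simp [W_1ab439_h81.lin, Fin.sum_univ_three]
  rw [h, dy_add (((hv 0).smul (c 0)).add ((hv 1).smul (c 1))) ((hv 2).smul (c 2)),
    dy_add ((hv 0).smul (c 0)) ((hv 1).smul (c 1)), dy_smul (hv 0), dy_smul (hv 1), dy_smul (hv 2),
    Fin.sum_univ_three]

theorem measurableSet_up (t : ℝ) : MeasurableSet (up t) :=
  (isOpen_lt continuous_const continuous_snd).measurableSet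

theorem measurableSet_dn (t : ℝ) : MeasurableSet (dn t) :=
  (isOpen_lt continuous_snd continuous_const).measurableSet

theorem Cut.int {χ : ℝ × ℝ → ℝ} (h : Cut f χ) : Integrable χ :=
  h.cont.integrable_of_hasCompactSupport h.cpt

end Pool.Agent.W_1ab439_h81
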