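import Mathlib
import Pool.Agent.W_1ab439_h81.Basic

section B1

/-!
B1 (task P3 B1, Mathlib only).  Global solution of the Pruefer angle equation `φ' = 1 - V t * cos φ ^ 2`.

Proof.  The field `f t x = 1 - V t * cos x ^ 2` is continuous in `t`, `|f t x| ≤ 1 + M`, and Lipschitz in `x` with constant `2 * M`
(`|cos x ^ 2 - cos y ^ 2| ≤ 2 |x - y|`).  Apply Picard-Lindeloef once (`IsPicardLindelof` with `tmin = -1`, `tmax = R + 1`, `t0 = 0`,
`x0 = 0`, radius `a = (1 + M) * (R + 2)` or larger, `L = 1 + M`, `K = 2 * M`), giving a function with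
`HasDerivWithinAt φ (f t (φ t)) (Icc (-1) (R+1)) t`; at interior points this is `HasDerivAt`.
-/

set_option autoImplicit false

open Set Real

namespace Pool.Agent.W_1ab439_h81

theorem b1_cos_sq_lip (x y : ℝ) : |cos x ^ 2 - cos y ^ 2| ≤ 2 * |x - y| := by
  have h1 : cos x ^ 2 - cos y ^ 2 = (cos x + cos y) * (cos x - cos y) := by ring
  rw [h1, abs_mul]
  have h2 : |cos x + cos y| ≤ 2 := by
    refine (abs_add_le _ _).trans ?_
    have := abs_cos_le_one x
    have := abs_cos_le_one y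
    linarith
  have h3 : |cos x - cos y| ≤ |x - y| := by
    have h4 : LipschitzWith 1 cos := by
      apply lipschitzWith_of_nnnorm_deriv_le differentiable_cos
      intro z
      rw [Real.deriv_cos]
      have := abs_sin_le_one z
      rw [nnnorm_neg, ← NNReal.coe_le_coe, coe_nnnorm, Real.norm_eq_abs]
      simpa using this
    have h5 := h4.dist_le_mul x y
    simpa [Real.dist_eq] using h5
  exact mul_le_mul h2 h3 (abs_nonneg _) (by norm_num)

theorem pruefer {V : ℝ → ℝ} (hV : Continuous V) {M : ℝ} (h0 : ∀ t, 0 ≤ V t)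
    (hM : ∀ t, V t ≤ M) {R : ℝ} (hR : 0 < R) :
    ∃ φ : ℝ → ℝ, φ 0 = 0 ∧ ∀ t ∈ Icc 0 R, HasDerivAt φ (1 - V t * cos (φ t) ^ 2) t := by
  have hM0 : 0 ≤ M := (h0 0).trans (hM 0)
  have ha : 0 ≤ (1 + M) * (R + 2) := by positivity
  have hP : IsPicardLindelof (E := ℝ) (fun t x => 1 - V t * cos x ^ 2)
      (tmin := -1) (tmax := R + 1) (⟨0, by constructor <;> linarith⟩ : Icc (-1 : ℝ) (R + 1)) (0 : ℝ)
      (⟨(1 + M) * (R + 2), ha⟩) 0 (⟨1 + M, by linarith⟩) (⟨2 * M, by linarith⟩) := by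
    refine ⟨?_, ?_, ?_, ?_⟩
    · intro t _
      apply LipschitzWith.lipschitzOnWith
      apply LipschitzWith.of_dist_le_mul
      intro x y
      rw [Real.dist_eq, Real.dist_eq]
      have e1 : 1 - V t * cos x ^ 2 - (1 - V t * cos y ^ 2) = -(V t * (cos x ^ 2 - cos y ^ 2)) := by ring
      rw [e1, abs_neg, abs_mul, abs_of_nonneg (h0 t)]
      have e2 := b1_cos_sq_lip x y
      have e3 : V t * |cos x ^ 2 - cos y ^ 2| ≤ M * (2 * |x - y|) :=
        mul_le_mul (hM t) e2 (abs_nonneg _) hM0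
      calc _ ≤ M * (2 * |x - y|) := e3
        _ = (2 * M) * |x - y| := by ring
        _ = _ := rfl
    · intro x _
      exact (continuous_const.sub (hV.mul continuous_const)).continuousOn
    · intro t _ x _
      rw [Real.norm_eq_abs]
      have e4 : 0 ≤ cos x ^ 2 := sq_nonneg _
      have e5 : cos x ^ 2 ≤ 1 := cos_sq_le_one x
      have e6 : V t * cos x ^ 2 ≤ M := by
        calc V t * cos x ^ 2 ≤ M * 1 := mul_le_mul (hM t) e5 e4 hM0
          _ = M := mul_one M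
      have e7 : 0 ≤ V t * cos x ^ 2 := mul_nonneg (h0 t) e4
      have e8 : |1 - V t * cos x ^ 2| ≤ 1 + M := by
        rw [abs_le]
        constructor <;> linarith
      exact e8
    · have e9 : max (R + 1 - 0) (0 - (-1)) ≤ R + 2 := by
        apply max_le <;> linarith
      have e10 : (1 + M) * max (R + 1 - 0) (0 - (-1)) ≤ (1 + M) * (R + 2) - 0 := by
        rw [sub_zero ((1 + M) * (R + 2))]
        exact mul_le_mul_of_nonneg_left e9 (by linarith)
      exact e10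
  obtain ⟨φ, hφ0, hφ⟩ := hP.exists_eq_forall_mem_Icc_hasDerivWithinAt₀
  refine ⟨φ, hφ0, ?_⟩
  intro t ht
  have h7 := hφ t ⟨by linarith [ht.1], by linarith [ht.2]⟩
  exact h7.hasDerivAt (Icc_mem_nhds (by linarith [ht.1]) (by linarith [ht.2]))

end Pool.Agent.W_1ab439_h81

end B1

section B2

/-!
B2 (task P3 B2, Mathlib only).  Dichotomy for the angle, and the Riccati function.

`dichotomy`.  If the closed set `E = {t ∈ [0,R] : |φ t| ≥ π/2}` is empty we are in the second case.  Otherwise let `T` be its least element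
(`IsCompact.exists_isLeast`, E closed in a compact interval since φ is continuous there).  `T > 0` as `φ 0 = 0`, and `|φ t| < π/2` for
`0 ≤ t < T`, so by continuity `|φ T| = π/2`.  If `φ T = -π/2` then the derivative at `T` is `1 - V T * 0 = 1 > 0`, but
`φ t > -π/2 = φ T` for `t < T`, contradiction (the left difference quotients are negative).  So `φ T = π/2`.

`riccati`.  `(tan φ)' = φ' / cos φ ^ 2 = 1 / cos φ ^ 2 - V = 1 + tan φ ^ 2 - V`, as `cos φ ≠ 0`.
-/

set_option autoImplicit false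

open Set Real

namespace Pool.Agent.W_1ab439_h81

theorem dichotomy {V φ : ℝ → ℝ} {R : ℝ} (hR : 0 < R) (h0 : φ 0 = 0)
    (hd : ∀ t ∈ Icc 0 R, HasDerivAt φ (1 - V t * cos (φ t) ^ 2) t) :
    (∃ T, 0 < T ∧ T ≤ R ∧ φ T = π / 2 ∧ ∀ t ∈ Ico 0 T, |φ t| < π / 2) ∨
      (∀ t ∈ Icc 0 R, |φ t| < π / 2) := by
  by_cases hE : ∀ t ∈ Icc 0 R, |φ t| < π / 2
  · exact Or.inr hE
  left
  push Not at hE
  obtain ⟨t0, ht0, ht0'⟩ := hE
  have hpi : 0 < π := Real.pi_pos
  have hcont : ContinuousOn (fun t => |φ t|) (Icc 0 R) := fun t ht =>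
    ((hd t ht).continuousAt.abs).continuousWithinAt
  have hcl : IsClosed (Icc 0 R ∩ (fun t => |φ t|) ⁻¹' Ici (π / 2)) :=
    hcont.preimage_isClosed_of_isClosed isClosed_Icc isClosed_Ici
  have hcp : IsCompact (Icc 0 R ∩ (fun t => |φ t|) ⁻¹' Ici (π / 2)) :=
    isCompact_Icc.of_isClosed_subset hcl inter_subset_left
  obtain ⟨T, ⟨hTI, hTE⟩, hTm⟩ := hcp.exists_isLeast ⟨t0, ht0, ht0'⟩
  have hTE' : π / 2 ≤ |φ T| := hTE
  have hT0 : 0 < T := by
    rcases eq_or_lt_of_le hTI.1 with h | h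
    · rw [← h, h0, abs_zero] at hTE'
      linarith
    · exact h
  have hlt : ∀ t ∈ Ico 0 T, |φ t| < π / 2 := by
    intro t ht
    by_contra hn
    push Not at hn
    have : T ≤ t := hTm ⟨⟨ht.1, ht.2.le.trans hTI.2⟩, hn⟩
    exact absurd ht.2 (not_lt.2 this)
  have hev : ∀ᶠ t in nhdsWithin T (Iio T), |φ t| < π / 2 := by
    filter_upwards [Ioo_mem_nhdsLT hT0] with t ht
    exact hlt t ⟨ht.1.le, ht.2⟩
  have hle : |φ T| ≤ π / 2 := by
    have h1 : Filter.Tendsto (fun t => |φ t|) (nhdsWithin T (Iio T)) (nhds |φ T|) :=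
      ((hd T hTI).continuousAt.abs).tendsto.mono_left nhdsWithin_le_nhds
    exact le_of_tendsto h1 (hev.mono fun t ht => ht.le)
  have habs : |φ T| = π / 2 := le_antisymm hle hTE'
  refine ⟨T, hT0, hTI.2, ?_, hlt⟩
  rcases eq_or_eq_neg_of_abs_eq habs with h | h
  · exact h
  exfalso
  have hc : cos (φ T) = 0 := by
    rw [h, Real.cos_neg, Real.cos_pi_div_two]
  have hdT : HasDerivAt φ 1 T := by
    have := hd T hTI
    rw [hc] at this
    simpa using this
  have hs := (hasDerivAt_iff_tendsto_slope.1 hdT).mono_left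
    (nhdsWithin_mono T (s := Iio T) (fun t (ht : t < T) => ne_of_lt ht))
  have h10 : (1 : ℝ) ≤ 0 := by
    refine le_of_tendsto hs ?_
    have hev2 : ∀ᶠ t in nhdsWithin T (Iio T), t < T := self_mem_nhdsWithin
    filter_upwards [hev, hev2] with t ht htT
    rw [slope_def_field]
    have h3 : φ T ≤ φ t := by
      rw [h]
      exact (abs_lt.1 ht).1.le
    exact div_nonpos_of_nonneg_of_nonpos (by linarith) (by linarith)
  linarith

theorem riccati {V φ : ℝ → ℝ} {R : ℝ}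
    (hd : ∀ t ∈ Icc 0 R, HasDerivAt φ (1 - V t * cos (φ t) ^ 2) t)
    (hlt : ∀ t ∈ Icc 0 R, |φ t| < π / 2) :
    ∀ t ∈ Icc 0 R, HasDerivAt (fun t => tan (φ t)) (1 + tan (φ t) ^ 2 - V t) t := by
  intro t ht
  have h1 := abs_lt.1 (hlt t ht)
  have hc : 0 < cos (φ t) := Real.cos_pos_of_mem_Ioo ⟨h1.1, h1.2⟩
  have h2 := (Real.hasDerivAt_tan hc.ne').comp t (hd t ht)
  have h3 : 1 / cos (φ t) ^ 2 * (1 - V t * cos (φ t) ^ 2) = 1 + tan (φ t) ^ 2 - V t := by
    rw [Real.tan_eq_sin_div_cos]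
    have hcs := Real.sin_sq_add_cos_sq (φ t)
    field_simp
    linear_combination (-1 : ℝ) * hcs
  rw [h3] at h2
  exact h2

end Pool.Agent.W_1ab439_h81

end B2

section B3

/-!
B3 (task P3 B3).  The angle gives a path: `S = sin φ`, `Y = X / π`.

Proof.  `S' = cos φ * φ' = cos φ * (1 - (π/X)^2 cos φ ^ 2)`, continuous on `[0,T]` (φ is continuous there because differentiable).
`|S| ≤ 1`, `S 0 = 0`, `S T = sin (π/2) = 1`.  On `[0,T]` we have `|φ| ≤ π/2`, so `c = cos φ ≥ 0` and `√(1 - S^2) = c`.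
The inequality: let `h ≥ 0`.  Claim `(3h - h^3)/2 * c + h^3/2 * c * (1 - (π/X)^2 c^2) ≤ X/π`.  The left side is
`c * (3h/2 - h^3/2 * w^2)` with `w = π c / X ≥ 0`.  If `c = 0` it is `0 ≤ X/π`.  Otherwise multiply by `2/c > 0`... equivalently with
`y = h w ≥ 0`: `(y - 1)^2 (y + 2) ≥ 0`, i.e. `3 y - y^3 ≤ 2`, i.e. `w * (3 h - h^3 w^2) ≤ 2`; now
`c * (3h/2 - h^3/2 w^2) = (X/π) * w * (3 h - h^3 w^2)/2 ≤ X/π` (because `c = (X/π) * w`).  This covers `c = 0` as well.
-/

set_option autoImplicit false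

open MeasureTheory Set Real

namespace Pool.Agent.W_1ab439_h81

theorem b3_ineq {c x h : ℝ} (hc : 0 ≤ c) (hx : 0 < x) (hh : 0 ≤ h) :
    (3 * h - h ^ 3) / 2 * c + h ^ 3 / 2 * (c * (1 - (π / x) ^ 2 * c ^ 2)) ≤ x / π := by
  have hpi := pi_pos
  have hq : 0 < x / π := div_pos hx hpi
  obtain ⟨w, hw⟩ : ∃ w, w = π * c / x := ⟨_, rfl⟩
  have hw0 : 0 ≤ w := by rw [hw]; positivity
  have hcw : c = (x / π) * w := by
    rw [hw]
    field_simp
  have h1 : (3 * h - h ^ 3) / 2 * c + h ^ 3 / 2 * (c * (1 - (π / x) ^ 2 * c ^ 2)) =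
      (x / π) * ((3 * (h * w) - (h * w) ^ 3) / 2) := by
    have h2 : (π / x) ^ 2 * c ^ 2 = w ^ 2 := by
      rw [hw]
      ring
    rw [h2]
    calc (3 * h - h ^ 3) / 2 * c + h ^ 3 / 2 * (c * (1 - w ^ 2))
        = c * ((3 * h - h ^ 3 * w ^ 2) / 2) := by ring
      _ = ((x / π) * w) * ((3 * h - h ^ 3 * w ^ 2) / 2) := by rw [← hcw]
      _ = _ := by ring
  rw [h1]
  have h3 : 3 * (h * w) - (h * w) ^ 3 ≤ 2 := by
    have hy : 0 ≤ h * w := mul_nonneg hh hw0
    generalize h * w = y at hy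
    have h4 : 0 ≤ (y - 1) ^ 2 * (y + 2) := mul_nonneg (sq_nonneg _) (by linarith)
    nlinarith [h4]
  calc (x / π) * ((3 * (h * w) - (h * w) ^ 3) / 2) ≤ (x / π) * 1 :=
        mul_le_mul_of_nonneg_left (by linarith) hq.le
    _ = x / π := mul_one _

theorem path_of_phi {X : ℝ → ℝ} (hX : Continuous X) (hpos : ∀ t, 0 < X t) {φ : ℝ → ℝ} {T : ℝ}
    (hT : 0 < T) (h0 : φ 0 = 0) (hTφ : φ T = π / 2) (hlt : ∀ t ∈ Ico 0 T, |φ t| < π / 2)
    (hd : ∀ t ∈ Icc 0 T, HasDerivAt φ (1 - (π / X t) ^ 2 * cos (φ t) ^ 2) t) :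
    IsPath T (fun t => sin (φ t))
      (fun t => cos (φ t) * (1 - (π / X t) ^ 2 * cos (φ t) ^ 2)) (fun t => X t / π) := by
  have hφc : ContinuousOn φ (Icc 0 T) := fun t ht => (hd t ht).continuousAt.continuousWithinAt
  have hcos : ContinuousOn (fun t => cos (φ t)) (Icc 0 T) :=
    continuous_cos.comp_continuousOn hφc
  have hXc : ContinuousOn (fun t => π / X t) (Icc 0 T) :=
    (continuous_const.div hX (fun t => (hpos t).ne')).continuousOn
  have hle : ∀ t ∈ Icc 0 T, |φ t| ≤ π / 2 := by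
    intro t ht
    rcases ht.2.lt_or_eq with h | h
    · exact (hlt t ⟨ht.1, h⟩).le
    · rw [h, hTφ, abs_of_pos (by positivity)]
  refine ⟨hT, ?_, ?_, ?_, ?_, ?_, ?_, ?_⟩
  · intro t ht
    exact (hd t ht).sin
  · exact hcos.mul (continuousOn_const.sub ((hXc.pow 2).mul (hcos.pow 2)))
  · exact (hX.div_const π).continuousOn
  · simp only [h0, sin_zero]
  · simp only [hTφ, sin_pi_div_two]
  · intro t _
    exact abs_sin_le_one _
  · intro t ht h hh
    have hc : 0 ≤ cos (φ t) := by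
      have h1 := abs_le.1 (hle t ht)
      exact cos_nonneg_of_neg_pi_div_two_le_of_le h1.1 h1.2
    have hs : √(1 - sin (φ t) ^ 2) = cos (φ t) := by
      have h2 : 1 - sin (φ t) ^ 2 = cos (φ t) ^ 2 := by
        have := sin_sq_add_cos_sq (φ t)
        linarith
      rw [h2, sqrt_sq hc]
    simp only [hs]
    exact b3_ineq hc (hpos t) hh

end Pool.Agent.W_1ab439_h81

end B3
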