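import Mathlib
import Pool.Agent.W_1ab439_h81.Basic

section C1

/-!
C1 (task P3 C1, Mathlib only).  Poincare inequality on a section by one calibration.

Proof.  Put `l = (∫ χ) + δ > 0`, `th x = π * (δ/2 + ∫ s in Iic x, χ s) / l`.  As `0 ≤ ∫ s in Iic x, χ s ≤ ∫ χ`, `th x` lies in
`[π δ/(2 l), π - π δ/(2 l)]`, inside `(0,π)`, so `sin (th x) > 0`.  `th` has derivative `π χ(x) / l` (χ continuous with compact support:
write `∫ Iic x = const + ∫ 0..x` or use an interval starting left of the support).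
Let `w x = (π/l) * cos (th x) / sin (th x)`; `w` is differentiable with continuous derivative
`w' x = -(π/l)^2 * χ x * (1 + (cos/sin)^2) = -(π/l)^2 χ x - χ x * w x ^ 2`.  At points with `f x ≠ 0`, `χ x = 1` and so
`w' + w^2 = -(π/l)^2`; hence `(w' + w^2) f^2 = -(π/l)^2 f^2` everywhere.
Now `0 ≤ ∫ (f' - w f)^2 = ∫ f'^2 - ∫ w (f^2)' + ∫ w^2 f^2 = ∫ f'^2 + ∫ (w' + w^2) f^2 = ∫ f'^2 - (π/l)^2 ∫ f^2`;
the middle step is `∫ (w f^2)' = 0` for the continuously differentiable compactly supported function `w f^2`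
(`integral_of_hasDerivAt_of_tendsto`, or an interval integral over an interval containing the support).
-/

set_option autoImplicit false

open MeasureTheory Set Real

namespace Pool.Agent.W_1ab439_h81

theorem poincare_x {f f' χ : ℝ → ℝ} (hf : ∀ x, HasDerivAt f (f' x) x) (hf' : Continuous f')
    (hfc : HasCompactSupport f) (hχ : Continuous χ) (hχc : HasCompactSupport χ)
    (hχ0 : ∀ x, 0 ≤ χ x) (hone : ∀ x, f x ≠ 0 → χ x = 1) {δ : ℝ} (hδ : 0 < δ) :
    (π / ((∫ x, χ x) + δ)) ^ 2 * ∫ x, f x ^ 2 ≤ ∫ x, f' x ^ 2 := by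
  have hint : Integrable χ := hχ.integrable_of_hasCompactSupport hχc
  set I : ℝ := ∫ x, χ x with hI
  have hI0 : 0 ≤ I := integral_nonneg hχ0
  set l : ℝ := I + δ with hl
  have hlpos : 0 < l := by linarith
  set F : ℝ → ℝ := fun x => ∫ s in Iic x, χ s with hF
  have hF0 : ∀ x, 0 ≤ F x := fun x => setIntegral_nonneg measurableSet_Iic fun s _ => hχ0 s
  have hF1 : ∀ x, F x ≤ I := fun x =>
    setIntegral_le_integral hint (Filter.Eventually.of_forall hχ0)
  have hFeq : ∀ x, F x = F 0 + ∫ s in (0 : ℝ)..x, χ s := by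
    intro x
    rw [← intervalIntegral.integral_Iic_sub_Iic hint.integrableOn hint.integrableOn]
    simp only [hF]
    ring
  have hFd : ∀ x, HasDerivAt F (χ x) x := by
    intro x
    have h1 : HasDerivAt (fun x => F 0 + ∫ s in (0 : ℝ)..x, χ s) (χ x) x := by
      have := (intervalIntegral.integral_hasDerivAt_right (hχ.intervalIntegrable 0 x)
        (hχ.stronglyMeasurableAtFilter _ _) hχ.continuousAt).const_add (F 0)
      exact this
    have h2 : F = fun x => F 0 + ∫ s in (0 : ℝ)..x, χ s := funext hFeq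
    rw [h2]
    simpa using h1
  set c : ℝ := π / l with hc
  have hcpos : 0 < c := div_pos pi_pos hlpos
  set th : ℝ → ℝ := fun x => c * (δ / 2 + F x) with hth
  have hthd : ∀ x, HasDerivAt th (c * χ x) x := fun x => ((hFd x).const_add (δ / 2)).const_mul c
  have hth0 : ∀ x, 0 < th x := fun x => mul_pos hcpos (by have := hF0 x; linarith)
  have hth1 : ∀ x, th x < π := by
    intro x
    have h1 : δ / 2 + F x < l := by have := hF1 x; linarith
    have h2 : th x < c * l := mul_lt_mul_of_pos_left h1 hcpos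
    have h3 : c * l = π := by rw [hc]; field_simp
    linarith
  have hsin : ∀ x, 0 < sin (th x) := fun x => sin_pos_of_pos_of_lt_pi (hth0 x) (hth1 x)
  set w : ℝ → ℝ := fun x => c * (cos (th x) / sin (th x)) with hw
  set w' : ℝ → ℝ := fun x => -(c ^ 2 * χ x) / sin (th x) ^ 2 with hw'
  have hwd : ∀ x, HasDerivAt w (w' x) x := by
    intro x
    have h1 : HasDerivAt (fun x => cos (th x)) (-sin (th x) * (c * χ x)) x := (hthd x).cos
    have h2 : HasDerivAt (fun x => sin (th x)) (cos (th x) * (c * χ x)) x := (hthd x).sin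
    have h3 := (h1.div h2 (hsin x).ne').const_mul c
    have h4 : c * ((-sin (th x) * (c * χ x) * sin (th x) - cos (th x) * (cos (th x) * (c * χ x))) /
        sin (th x) ^ 2) = w' x := by
      have h5 := sin_sq_add_cos_sq (th x)
      have h6 : -sin (th x) * (c * χ x) * sin (th x) - cos (th x) * (cos (th x) * (c * χ x)) =
          -(c * χ x) := by
        linear_combination (-(c * χ x)) * h5
      rw [h6, hw']
      simp only
      ring
    rw [← h4]
    exact h3
  have hthc : Continuous th := continuous_iff_continuousAt.2 fun x => (hthd x).continuousAt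
  have hwc : Continuous w := continuous_iff_continuousAt.2 fun x => (hwd x).continuousAt
  have hw'c : Continuous w' := by
    rw [hw']
    refine Continuous.div (by fun_prop) (by fun_prop) fun x => ?_
    exact pow_ne_zero _ (hsin x).ne'
  have hfcont : Continuous f := continuous_iff_continuousAt.2 fun x => (hf x).continuousAt
  have hf'eq : f' = deriv f := funext fun x => (hf x).deriv.symm
  have hf'c : HasCompactSupport f' := by rw [hf'eq]; exact hfc.deriv
  have hgd : ∀ x, HasDerivAt (fun x => w x * f x ^ 2)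
      (w' x * f x ^ 2 + w x * (2 * f x * f' x)) x := by
    intro x
    have h1 := (hwd x).mul ((hf x).pow 2)
    have h2 : w' x * f x ^ 2 + w x * ((2 : ℕ) * f x ^ (2 - 1) * f' x) =
        w' x * f x ^ 2 + w x * (2 * f x * f' x) := by
      norm_num
    rw [← h2]
    exact h1
  have hf2c : HasCompactSupport (fun x => f x ^ 2) := by
    have : (fun x => f x ^ 2) = f * f := funext fun x => by simp [pow_two]
    rw [this]
    exact hfc.mul_left
  have hg'i : Integrable (fun x => w' x * f x ^ 2 + w x * (2 * f x * f' x)) := by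
    refine Integrable.add ?_ ?_
    · exact (hw'c.mul (hfcont.pow 2)).integrable_of_hasCompactSupport hf2c.mul_left
    · have h1 : (fun x => w x * (2 * f x * f' x)) = fun x => (w x * (2 * f x)) * f' x :=
        funext fun x => by ring
      rw [h1]
      exact ((hwc.mul (continuous_const.mul hfcont)).mul hf').integrable_of_hasCompactSupport
        hf'c.mul_left
  have hgi : Integrable (fun x => w x * f x ^ 2) :=
    (hwc.mul (hfcont.pow 2)).integrable_of_hasCompactSupport hf2c.mul_left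
  have hzero := integral_eq_zero_of_hasDerivAt_of_integrable hgd hg'i hgi
  have hf2i : Integrable (fun x => f x ^ 2) :=
    (hfcont.pow 2).integrable_of_hasCompactSupport hf2c
  have hf'2i : Integrable (fun x => f' x ^ 2) := by
    have h1 : (fun x => f' x ^ 2) = fun x => f' x * f' x := funext fun x => by ring
    rw [h1]
    exact (hf'.mul hf').integrable_of_hasCompactSupport hf'c.mul_left
  have hpt : ∀ x, (f' x - w x * f x) ^ 2 =
      f' x ^ 2 - (w' x * f x ^ 2 + w x * (2 * f x * f' x)) - c ^ 2 * f x ^ 2 := by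
    intro x
    by_cases hx : f x = 0
    · rw [hx]; ring
    · have h1 : χ x = 1 := hone x hx
      have h2 : w' x + w x ^ 2 = -c ^ 2 := by
        have hs := (hsin x).ne'
        have h5 := sin_sq_add_cos_sq (th x)
        simp only [hw, hw', h1]
        field_simp
        linear_combination h5
      linear_combination (f x ^ 2) * h2
  have hnn : 0 ≤ ∫ x, (f' x - w x * f x) ^ 2 := integral_nonneg fun x => sq_nonneg _
  have e0 : ∫ x, (f' x - w x * f x) ^ 2 =
      ∫ x, (f' x ^ 2 - (w' x * f x ^ 2 + w x * (2 * f x * f' x)) - c ^ 2 * f x ^ 2) :=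
    integral_congr_ae (Filter.Eventually.of_forall hpt)
  have e1 : ∫ x, (f' x ^ 2 - (w' x * f x ^ 2 + w x * (2 * f x * f' x)) - c ^ 2 * f x ^ 2) =
      (∫ x, (f' x ^ 2 - (w' x * f x ^ 2 + w x * (2 * f x * f' x)))) - ∫ x, c ^ 2 * f x ^ 2 :=
    integral_sub (f := fun x => f' x ^ 2 - (w' x * f x ^ 2 + w x * (2 * f x * f' x)))
      (hf'2i.sub hg'i) (hf2i.const_mul _)
  have e2 : ∫ x, (f' x ^ 2 - (w' x * f x ^ 2 + w x * (2 * f x * f' x))) =
      (∫ x, f' x ^ 2) - ∫ x, (w' x * f x ^ 2 + w x * (2 * f x * f' x)) :=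
    integral_sub hf'2i hg'i
  have e3 : ∫ x, c ^ 2 * f x ^ 2 = c ^ 2 * ∫ x, f x ^ 2 := integral_const_mul _ _
  rw [e0, e1, e2, e3, hzero] at hnn
  linarith

end Pool.Agent.W_1ab439_h81

end C1

section C2

/-!
C2 (task P3 C2, Mathlib only).  Riccati calibration in the second variable.

Proof.  `0 ≤ ∫ 0..R (f' + p f)^2 = ∫ f'^2 + ∫ p (f^2)' + ∫ p^2 f^2`, and
`∫ 0..R (p (f^2)' + p' f^2) = p R * f R ^ 2 - p 0 * f 0 ^ 2 = 0` since `f R = 0` and `p 0 = 0`
(the integrand is the derivative of `p * f^2`, continuous on `[0,R]`).  So `0 ≤ ∫ f'^2 + ∫ (p^2 - p') f^2`.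
-/

set_option autoImplicit false

open MeasureTheory Set Real

namespace Pool.Agent.W_1ab439_h81

theorem riccati_y {f f' p p' : ℝ → ℝ} {R : ℝ} (hR : 0 < R) (hf : ∀ y, HasDerivAt f (f' y) y)
    (hf' : Continuous f') (hz : f R = 0) (hp : ∀ y ∈ Icc 0 R, HasDerivAt p (p' y) y)
    (hp' : ContinuousOn p' (Icc 0 R)) (hp0 : p 0 = 0) :
    ∫ y in (0 : ℝ)..R, (p' y - p y ^ 2) * f y ^ 2 ≤ ∫ y in (0 : ℝ)..R, f' y ^ 2 := by
  have hu : uIcc (0 : ℝ) R = Icc 0 R := uIcc_of_le hR.le
  have hfc : Continuous f := continuous_iff_continuousAt.2 fun y => (hf y).continuousAt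
  have hpc : ContinuousOn p (Icc 0 R) := fun y hy => (hp y hy).continuousAt.continuousWithinAt
  have hfo : ContinuousOn f (Icc 0 R) := hfc.continuousOn
  have hfo' : ContinuousOn f' (Icc 0 R) := hf'.continuousOn
  have c1 : ContinuousOn (fun y => p' y * f y ^ 2 + p y * (2 * f y * f' y)) (Icc 0 R) :=
    (hp'.mul (hfo.pow 2)).add (hpc.mul ((continuousOn_const.mul hfo).mul hfo'))
  have c2 : ContinuousOn (fun y => (f' y + p y * f y) ^ 2) (Icc 0 R) :=
    (hfo'.add (hpc.mul hfo)).pow 2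
  have c3 : ContinuousOn (fun y => (p' y - p y ^ 2) * f y ^ 2) (Icc 0 R) :=
    (hp'.sub (hpc.pow 2)).mul (hfo.pow 2)
  have c4 : ContinuousOn (fun y => f' y ^ 2) (Icc 0 R) := hfo'.pow 2
  have i1 := (hu ▸ c1 : ContinuousOn _ (uIcc (0 : ℝ) R)).intervalIntegrable (μ := volume)
  have i2 := (hu ▸ c2 : ContinuousOn _ (uIcc (0 : ℝ) R)).intervalIntegrable (μ := volume)
  have i3 := (hu ▸ c3 : ContinuousOn _ (uIcc (0 : ℝ) R)).intervalIntegrable (μ := volume)
  have i4 := (hu ▸ c4 : ContinuousOn _ (uIcc (0 : ℝ) R)).intervalIntegrable (μ := volume)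
  have h0 : ∫ y in (0 : ℝ)..R, (p' y * f y ^ 2 + p y * (2 * f y * f' y)) = 0 := by
    have := intervalIntegral.integral_eq_sub_of_hasDerivAt (a := 0) (b := R)
      (f := fun y => p y * f y ^ 2) (f' := fun y => p' y * f y ^ 2 + p y * (2 * f y * f' y))
      (fun y hy => by
        have h1 := (hp y (hu ▸ hy)).mul ((hf y).pow 2)
        convert h1 using 1
        all_goals first | rfl | (norm_num) | skip) i1
    rw [this]
    simp [hz, hp0]
  have h1 : 0 ≤ ∫ y in (0 : ℝ)..R, (f' y + p y * f y) ^ 2 :=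
    intervalIntegral.integral_nonneg hR.le fun y _ => sq_nonneg _
  have h2 : ∫ y in (0 : ℝ)..R, f' y ^ 2 =
      (∫ y in (0 : ℝ)..R, (f' y + p y * f y) ^ 2) +
      (∫ y in (0 : ℝ)..R, (p' y - p y ^ 2) * f y ^ 2) -
      ∫ y in (0 : ℝ)..R, (p' y * f y ^ 2 + p y * (2 * f y * f' y)) := by
    rw [← intervalIntegral.integral_add i2 i3, ← intervalIntegral.integral_sub (i2.add i3) i1]
    refine intervalIntegral.integral_congr fun y _ => ?_
    ring
  rw [h2, h0]
  linarith

end Pool.Agent.W_1ab439_h81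

end C2

section C3

/-!
C3 (task P3 C3).  The section function `sec χ δ t = ∫ x, χ (x,t) + δ`.

Proof.  Continuity: χ is continuous with compact support, so there is `L` with `χ (x,t) = 0` for `|x| > L`, and
`∫ x, χ (x,t) = ∫ x in (-L)..L, χ (x,t)` is continuous in `t` (`intervalIntegral.continuous_parametric_intervalIntegral_of_continuous`
or `continuous_parametric_integral_of_continuous`, or dominated convergence).  `sec_ge`: the integral is nonnegative.
`sec_int`: Fubini (`MeasureTheory.setIntegral_prod` on `univ ×ˢ Ioo 0 a`, or `integral_prod` with indicators; `volume` on `ℝ × ℝ` is the product;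
note the order: the outer variable is the second coordinate, use `integral_prod_symm` / swap).
-/

set_option autoImplicit false

open MeasureTheory Set

namespace Pool.Agent.W_1ab439_h81

theorem c3_int {f χ : ℝ × ℝ → ℝ} (hχ : Cut f χ) : Integrable χ :=
  hχ.cont.integrable_of_hasCompactSupport hχ.cpt

theorem c3_set {f χ : ℝ × ℝ → ℝ} (hχ : Cut f χ) (t : ℝ) :
    ∫ x in Prod.fst '' tsupport χ, χ (x, t) = ∫ x, χ (x, t) := by
  refine setIntegral_eq_integral_of_forall_compl_eq_zero fun x hx => ?_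
  by_contra h
  exact hx ⟨(x, t), subset_tsupport _ h, rfl⟩

theorem sec_cont {f χ : ℝ × ℝ → ℝ} (hχ : Cut f χ) (δ : ℝ) : Continuous (sec χ δ) := by
  have hs : IsCompact (Prod.fst '' tsupport χ) := hχ.cpt.isCompact.image continuous_fst
  have h1 : Continuous (Function.uncurry fun (t x : ℝ) => χ (x, t)) :=
    hχ.cont.comp continuous_swap
  have h2 := continuous_parametric_integral_of_continuous (μ := volume) h1 hs
  have h3 : sec χ δ = fun t => (∫ x in Prod.fst '' tsupport χ, χ (x, t)) + δ := by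
    funext t
    rw [c3_set hχ t]
    rfl
  rw [h3]
  exact h2.add continuous_const

theorem sec_ge {f χ : ℝ × ℝ → ℝ} (hχ : Cut f χ) (δ t : ℝ) : δ ≤ sec χ δ t := by
  have : 0 ≤ ∫ x, χ (x, t) := integral_nonneg fun x => hχ.nonneg _
  unfold sec
  linarith

theorem sec_int {f χ : ℝ × ℝ → ℝ} (hχ : Cut f χ) (δ : ℝ) {a : ℝ} (ha : 0 ≤ a) :
    ∫ t in (0 : ℝ)..a, sec χ δ t = (∫ z in up 0 ∩ dn a, χ z) + δ * a := by
  have hset : up 0 ∩ dn a = univ ×ˢ Ioo 0 a := by
    ext z
    simp [up, dn]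
  have h0 : Continuous fun t : ℝ => ∫ x, χ (x, t) := by
    have h := sec_cont hχ 0
    have h' : sec χ 0 = fun t : ℝ => ∫ x, χ (x, t) := by
      funext t
      simp [sec]
    rwa [h'] at h
  have h1 : ∫ z in up 0 ∩ dn a, χ z = ∫ t in Ioo 0 a, ∫ x, χ (x, t) := by
    have hi : Integrable χ ((volume : Measure ℝ).prod ((volume : Measure ℝ).restrict (Ioo 0 a))) := by
      have h2 : (volume : Measure ℝ).prod ((volume : Measure ℝ).restrict (Ioo 0 a)) =
          (volume : Measure (ℝ × ℝ)).restrict (univ ×ˢ Ioo 0 a) := by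
        rw [Measure.volume_eq_prod, ← Measure.prod_restrict, Measure.restrict_univ]
      rw [h2]
      exact (c3_int hχ).integrableOn
    rw [hset, Measure.volume_eq_prod, ← Measure.prod_restrict, Measure.restrict_univ,
      integral_prod_symm _ hi]
  have h2 : ∫ t in (0 : ℝ)..a, sec χ δ t =
      (∫ t in (0 : ℝ)..a, ∫ x, χ (x, t)) + ∫ t in (0 : ℝ)..a, δ := by
    unfold sec
    exact intervalIntegral.integral_add (h0.intervalIntegrable _ _)
      (continuous_const.intervalIntegrable _ _)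
  rw [h2, h1, intervalIntegral.integral_const, intervalIntegral.integral_of_le ha,
    integral_Ioc_eq_integral_Ioo]
  simp [mul_comm]

theorem sec_int_le {f χ : ℝ × ℝ → ℝ} (hχ : Cut f χ) (δ : ℝ) {a : ℝ} (ha : 0 ≤ a) :
    ∫ t in (0 : ℝ)..a, sec χ δ t ≤ (∫ z in up 0, χ z) + δ * a := by
  rw [sec_int hχ δ ha]
  have : (∫ z in up 0 ∩ dn a, χ z) ≤ ∫ z in up 0, χ z :=
    setIntegral_mono_set (c3_int hχ).integrableOn
      (Filter.Eventually.of_forall fun z => hχ.nonneg z)
      (Filter.Eventually.of_forall fun z hz => hz.1)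
  linarith

end Pool.Agent.W_1ab439_h81

end C3

section C4

/-!
C4 (task P3 C4; uses C1 poincare_x, C3 sec_cont).  The x-part of the calibration, integrated.

Proof.  Fubini on `up 0 ∩ dn R` = `univ ×ˢ Ioo 0 R`: both sides are `∫ y in Ioo 0 R, ∫ x, ...` (all integrands are continuous with compact support
times the continuous bounded function `(π / sec χ δ z.2)^2`; sec ≥ δ > 0).  For each fixed `y` apply poincare_x to
`x ↦ f (x,y)`, `x ↦ dx f (x,y)`, `x ↦ χ (x,y)`.
-/

set_option autoImplicit false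

open MeasureTheory Set Real

namespace Pool.Agent.W_1ab439_h81

theorem c4_cpt {g : ℝ × ℝ → ℝ} (hg : HasCompactSupport g) (y : ℝ) :
    HasCompactSupport (fun x => g (x, y)) := by
  refine HasCompactSupport.of_support_subset_isCompact (K := Prod.fst '' (tsupport g))
    (hg.isCompact.image continuous_fst) ?_
  intro x hx
  exact ⟨(x, y), subset_tsupport g hx, rfl⟩

theorem c4_set (R : ℝ) : up 0 ∩ dn R = (univ : Set ℝ) ×ˢ Ioo (0 : ℝ) R := by
  ext z
  simp [up, dn]

theorem c4_meas (R : ℝ) : (volume : Measure (ℝ × ℝ)).restrict (up 0 ∩ dn R) =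
    (volume : Measure ℝ).prod ((volume : Measure ℝ).restrict (Ioo 0 R)) := by
  rw [c4_set, Measure.volume_eq_prod, ← Measure.prod_restrict, Measure.restrict_univ]

theorem c4_fub {G : ℝ × ℝ → ℝ} (hG : Continuous G) (hGc : HasCompactSupport G) (R : ℝ) :
    IntegrableOn (fun y => ∫ x, G (x, y)) (Ioo 0 R) ∧
      ∫ z in up 0 ∩ dn R, G z = ∫ y in Ioo 0 R, ∫ x, G (x, y) := by
  have h1 : Integrable G ((volume : Measure (ℝ × ℝ)).restrict (up 0 ∩ dn R)) :=
    (hG.integrable_of_hasCompactSupport hGc).restrict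
  rw [c4_meas] at h1
  refine ⟨h1.integral_prod_right, ?_⟩
  rw [c4_meas]
  exact integral_prod_symm G h1

theorem calib_x {f χ : ℝ × ℝ → ℝ} (hf : CC f) (hχ : Cut f χ) {δ R : ℝ} (hδ : 0 < δ)
    (hR : 0 < R) :
    ∫ z in up 0 ∩ dn R, (π / sec χ δ z.2) ^ 2 * f z ^ 2 ≤ ∫ z in up 0 ∩ dn R, dx f z ^ 2 := by
  have hs : ∀ y, sec χ δ y ≠ 0 := fun y => (hδ.trans_le (sec_ge hχ δ y)).ne'
  have hc1 : Continuous (fun z : ℝ × ℝ => (π / sec χ δ z.2) ^ 2 * f z ^ 2) :=
    ((continuous_const.div ((sec_cont hχ δ).comp continuous_snd) (fun z => hs z.2)).pow 2).mul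
      (hf.cont.pow 2)
  have hk1 : HasCompactSupport (fun z : ℝ × ℝ => (π / sec χ δ z.2) ^ 2 * f z ^ 2) := by
    have h2 : HasCompactSupport (fun z : ℝ × ℝ => f z ^ 2) :=
      hf.2.comp_left (g := fun t : ℝ => t ^ 2) (by simp)
    exact h2.mul_left
  have hc2 : Continuous (fun z : ℝ × ℝ => dx f z ^ 2) := hf.dx_cont.pow 2
  have hk2 : HasCompactSupport (fun z : ℝ × ℝ => dx f z ^ 2) :=
    hf.dx_cpt.comp_left (g := fun t : ℝ => t ^ 2) (by simp)
  obtain ⟨i1, e1⟩ := c4_fub hc1 hk1 R
  obtain ⟨i2, e2⟩ := c4_fub hc2 hk2 R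
  rw [e1, e2]
  refine setIntegral_mono i1 i2 ?_
  intro y
  have hp := poincare_x (f := fun x => f (x, y)) (f' := fun x => dx f (x, y))
    (χ := fun x => χ (x, y)) (fun x => hf.hasDerivAt_x x y)
    (hf.dx_cont.comp (by fun_prop)) (c4_cpt hf.2 y) (hχ.cont.comp (by fun_prop))
    (c4_cpt hχ.cpt y) (fun x => hχ.nonneg _) (fun x hx => hχ.one _ hx) hδ
  show ∫ x, (π / sec χ δ y) ^ 2 * f (x, y) ^ 2 ≤ ∫ x, dx f (x, y) ^ 2
  rw [integral_const_mul]
  exact hp

end Pool.Agent.W_1ab439_h81

end C4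

section C5

/-!
C5 (task P3 C5; uses C2 riccati_y, C3).  The y-part of the calibration, integrated.

Proof.  Fubini on `up 0 ∩ dn R` = `univ ×ˢ Ioo 0 R`, outer variable `x`.  For each fixed `x` apply riccati_y to `y ↦ f (x,y)`,
`y ↦ dy f (x,y)`, `p` and `p' y = 1 + p y ^ 2 - (π / sec χ δ y)^2`; here `p' - p^2 = 1 - (π / sec χ δ y)^2`.  (`p` is continuous on `[0,R]`
because differentiable, sec is continuous and ≥ δ > 0, so `p'` is continuous on `[0,R]`.)
-/

set_option autoImplicit false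

open MeasureTheory Set Real

namespace Pool.Agent.W_1ab439_h81

/-- Fubini on the strip `0 < y < R` -/
theorem c5_fubini {g : ℝ × ℝ → ℝ} (hg : Integrable g) {R : ℝ} (hR : 0 < R) :
    Integrable (fun x => ∫ y in (0 : ℝ)..R, g (x, y)) ∧
      ∫ z in up 0 ∩ dn R, g z = ∫ x, ∫ y in (0 : ℝ)..R, g (x, y) := by
  have hset : up 0 ∩ dn R = univ ×ˢ Ioo 0 R := by
    ext z
    simp [up, dn]
  have hI : ∀ x, ∫ y in (0 : ℝ)..R, g (x, y) = ∫ y in Ioo 0 R, g (x, y) := by
    intro x
    rw [intervalIntegral.integral_of_le hR.le, integral_Ioc_eq_integral_Ioo]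
  have h1 : Integrable g ((volume : Measure ℝ).prod (volume.restrict (Ioo 0 R))) := by
    have h := hg.restrict (s := (univ : Set ℝ) ×ˢ Ioo 0 R)
    rw [Measure.volume_eq_prod, ← Measure.prod_restrict, Measure.restrict_univ] at h
    exact h
  refine ⟨?_, ?_⟩
  · simp_rw [hI]
    exact h1.integral_prod_left
  · rw [hset, Measure.volume_eq_prod, ← Measure.prod_restrict, Measure.restrict_univ,
      integral_prod _ h1]
    simp_rw [hI]

theorem calib_y {f χ : ℝ × ℝ → ℝ} (hf : CC f) (hχ : Cut f χ) {δ R : ℝ} (hδ : 0 < δ)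
    (hR : 0 < R) (hz : ∀ z : ℝ × ℝ, R ≤ z.2 → f z = 0) {p : ℝ → ℝ} (hp0 : p 0 = 0)
    (hp : ∀ y ∈ Icc 0 R, HasDerivAt p (1 + p y ^ 2 - (π / sec χ δ y) ^ 2) y) :
    ∫ z in up 0 ∩ dn R, (1 - (π / sec χ δ z.2) ^ 2) * f z ^ 2 ≤
      ∫ z in up 0 ∩ dn R, dy f z ^ 2 := by
  have hsc : Continuous (sec χ δ) := sec_cont hχ δ
  have hne : ∀ y, sec χ δ y ≠ 0 := fun y => (lt_of_lt_of_le hδ (sec_ge hχ δ y)).ne'
  have hq : Continuous fun y => (π / sec χ δ y) ^ 2 := (continuous_const.div hsc hne).pow 2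
  have hdy := hf.dy_cont
  have hfc := hf.cont
  have hg1 : Integrable fun z : ℝ × ℝ => (1 - (π / sec χ δ z.2) ^ 2) * f z ^ 2 := by
    refine Continuous.integrable_of_hasCompactSupport ?_ ?_
    · exact (continuous_const.sub (hq.comp continuous_snd)).mul (hfc.pow 2)
    · refine HasCompactSupport.mul_left ?_
      simp_rw [pow_two]
      exact hf.2.mul_left
  have hg2 : Integrable fun z : ℝ × ℝ => dy f z ^ 2 := by
    refine Continuous.integrable_of_hasCompactSupport (hdy.pow 2) ?_
    simp_rw [pow_two]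
    exact hf.dy_cpt.mul_left
  obtain ⟨i1, e1⟩ := c5_fubini hg1 hR
  obtain ⟨i2, e2⟩ := c5_fubini hg2 hR
  rw [e1, e2]
  refine integral_mono i1 i2 fun x => ?_
  have hpc : ContinuousOn p (Icc 0 R) := fun y hy => (hp y hy).continuousAt.continuousWithinAt
  have h := riccati_y (f := fun y => f (x, y)) (f' := fun y => dy f (x, y)) (p := p)
    (p' := fun y => 1 + p y ^ 2 - (π / sec χ δ y) ^ 2) hR (fun y => hf.hasDerivAt_y x y)
    (hdy.comp (continuous_const.prodMk continuous_id)) (hz _ le_rfl) hp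
    ((continuousOn_const.add (hpc.pow 2)).sub hq.continuousOn) hp0
  have hr : ∀ y, 1 + p y ^ 2 - (π / sec χ δ y) ^ 2 - p y ^ 2 = 1 - (π / sec χ δ y) ^ 2 :=
    fun y => by ring
  simp only [hr] at h
  exact h

end Pool.Agent.W_1ab439_h81

end C5

section C6

/-!
C6 (task P3 C6; uses C4, C5).  The calibration.

Proof.  `den f z = 0` for `z.2 > R` (f vanishes on the open set `{z.2 > R}`, so its derivative vanishes there) and the line `z.2 = R` is a null set,
so `En f (up 0) = ∫ z in up 0 ∩ dn R, den f z`.  Add C4 and C5: `∫ (dx^2 + dy^2) ≥ ∫ f^2`.  (All integrands integrable: continuous with compact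
support, times continuous bounded functions.)
-/

set_option autoImplicit false

open MeasureTheory Set Real

namespace Pool.Agent.W_1ab439_h81

private theorem c6_den_zero {f : ℝ × ℝ → ℝ} {R : ℝ} (hz : ∀ z : ℝ × ℝ, R ≤ z.2 → f z = 0)
    {z : ℝ × ℝ} (h : R < z.2) : den f z = 0 := by
  have h1 : f =ᶠ[nhds z] fun _ => (0 : ℝ) := by
    have ho : IsOpen {w : ℝ × ℝ | R < w.2} := isOpen_lt continuous_const continuous_snd
    filter_upwards [ho.mem_nhds h] with w hw
    exact hz w (le_of_lt hw)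
  have h2 : fderiv ℝ f z = 0 := by
    rw [h1.fderiv_eq]
    simp
  simp [den, dx, dy, h2, hz z h.le]

theorem calib {f χ : ℝ × ℝ → ℝ} (hf : CC f) (hχ : Cut f χ) {δ R : ℝ} (hδ : 0 < δ)
    (hR : 0 < R) (hz : ∀ z : ℝ × ℝ, R ≤ z.2 → f z = 0) {p : ℝ → ℝ} (hp0 : p 0 = 0)
    (hp : ∀ y ∈ Icc 0 R, HasDerivAt p (1 + p y ^ 2 - (π / sec χ δ y) ^ 2) y) :
    0 ≤ En f (up 0) := by
  have hden : ∀ z : ℝ × ℝ, R ≤ z.2 → den f z = 0 := by
    intro z hz2
    rcases hz2.lt_or_eq with h | h
    · exact c6_den_zero hz h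
    · have hc : Continuous fun s : ℝ => den f (z.1, R + s) :=
        hf.den_cont.comp (continuous_const.prodMk (continuous_const.add continuous_id))
      have h1 : Filter.Tendsto (fun s : ℝ => den f (z.1, R + s)) (nhdsWithin 0 (Ioi 0))
          (nhds (den f (z.1, R + 0))) := hc.continuousAt.continuousWithinAt.tendsto
      have h2 : Filter.Tendsto (fun s : ℝ => den f (z.1, R + s)) (nhdsWithin 0 (Ioi 0))
          (nhds 0) := by
        refine tendsto_const_nhds.congr' ?_
        filter_upwards [self_mem_nhdsWithin] with s hs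
        refine (c6_den_zero hz ?_).symm
        have : (0 : ℝ) < s := hs
        show R < R + s
        linarith
      have h3 := tendsto_nhds_unique h1 h2
      rw [add_zero] at h3
      have h4 : z = (z.1, R) := by rw [h]
      rw [h4]
      exact h3
  have hmeas : MeasurableSet (up 0 ∩ dn R) := (measurableSet_up 0).inter (measurableSet_dn R)
  have hEn : En f (up 0) = ∫ z in up 0 ∩ dn R, den f z := by
    refine setIntegral_eq_of_subset_of_forall_diff_eq_zero (measurableSet_up 0)
      inter_subset_left ?_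
    rintro z ⟨hz1, hz2⟩
    refine hden z ?_
    by_contra hcon
    exact hz2 ⟨hz1, not_le.1 hcon⟩
  have hx := calib_x (R := R) hf hχ hδ hR
  have hy := calib_y hf hχ hδ hR hz hp0 hp
  have hsec : Continuous fun z : ℝ × ℝ => (π / sec χ δ z.2) ^ 2 := by
    refine (continuous_const.div ((sec_cont hχ δ).comp continuous_snd) ?_).pow 2
    intro z
    exact (hδ.trans_le (sec_ge hχ δ z.2)).ne'
  have hf2 : HasCompactSupport fun z => f z ^ 2 := by
    have := hf.2.comp_left (g := fun x : ℝ => x ^ 2) (by norm_num)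
    exact this
  have hx2 : HasCompactSupport fun z => dx f z ^ 2 := by
    have := hf.dx_cpt.comp_left (g := fun x : ℝ => x ^ 2) (by norm_num)
    exact this
  have hy2 : HasCompactSupport fun z => dy f z ^ 2 := by
    have := hf.dy_cpt.comp_left (g := fun x : ℝ => x ^ 2) (by norm_num)
    exact this
  have i1 : Integrable fun z => f z ^ 2 :=
    (hf.cont.pow 2).integrable_of_hasCompactSupport hf2
  have i2 : Integrable fun z => dx f z ^ 2 :=
    (hf.dx_cont.pow 2).integrable_of_hasCompactSupport hx2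
  have i3 : Integrable fun z => dy f z ^ 2 :=
    (hf.dy_cont.pow 2).integrable_of_hasCompactSupport hy2
  have i4 : Integrable fun z : ℝ × ℝ => (π / sec χ δ z.2) ^ 2 * f z ^ 2 :=
    (hsec.mul (hf.cont.pow 2)).integrable_of_hasCompactSupport hf2.mul_left
  have h1 : ∫ z in up 0 ∩ dn R, den f z = (∫ z in up 0 ∩ dn R, dx f z ^ 2) +
      (∫ z in up 0 ∩ dn R, dy f z ^ 2) - ∫ z in up 0 ∩ dn R, f z ^ 2 := by
    have h3 := integral_sub (μ := volume.restrict (up 0 ∩ dn R))
      (i2.integrableOn.add i3.integrableOn) i1.integrableOn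
    have h4 := integral_add (μ := volume.restrict (up 0 ∩ dn R)) i2.integrableOn i3.integrableOn
    have h5 : ∫ z in up 0 ∩ dn R, den f z = ∫ z in up 0 ∩ dn R,
      (((fun z => dx f z ^ 2) + fun z => dy f z ^ 2) z - f z ^ 2) := rfl
    rw [h5, h3, ← h4]
    rfl
  have h2 : ∫ z in up 0 ∩ dn R, (1 - (π / sec χ δ z.2) ^ 2) * f z ^ 2 =
      (∫ z in up 0 ∩ dn R, f z ^ 2) -
        ∫ z in up 0 ∩ dn R, (π / sec χ δ z.2) ^ 2 * f z ^ 2 := by
    rw [← integral_sub i1.integrableOn i4.integrableOn]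
    congr 1
    funext z
    ring
  rw [hEn, h1]
  rw [h2] at hy
  linarith

end Pool.Agent.W_1ab439_h81

end C6
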