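import Pool.Agent.W_1ab439_h81.Basic
import Mathlib

section F1

/-!
F1 (task P3 F1).  The energy as a quadratic form on coefficient vectors.

Proof.  Pointwise `den (lin v c) z = ∑ i, ∑ j, c i * c j * bden (v i) (v j) z` (dx_lin, dy_lin, `Fin.sum_univ_three`, ring); integrate over `S`
(every `bden (v i) (v j)` is integrable: CC.bden_int).  `rot_lin`: unfold, `Fin.sum_univ_three`, ring.
`En_split`: `up t`, `dn t` and the line `{z.2 = t}` partition the plane, the line is a null set
(`Measure.prod`: `univ ×ˢ {t}`), den f integrable.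
-/

set_option autoImplicit false

open MeasureTheory Set

namespace Pool.Agent.W_1ab439_h81

/-- the quadratic form of a matrix on `ℝ^3` -/
noncomputable def qf (B : Fin 3 → Fin 3 → ℝ) (c : Fin 3 → ℝ) : ℝ := ∑ i, ∑ j, c i * c j * B i j

theorem den_lin {v : Fin 3 → ℝ × ℝ → ℝ} (hv : ∀ i, CC (v i)) (c : Fin 3 → ℝ) (z : ℝ × ℝ) :
    den (lin v c) z = ∑ i, ∑ j, c i * c j * bden (v i) (v j) z := by
  simp only [den, bden, dx_lin hv, dy_lin hv, lin, Fin.sum_univ_three]
  ring

theorem En_lin {v : Fin 3 → ℝ × ℝ → ℝ} (hv : ∀ i, CC (v i)) (c : Fin 3 → ℝ) (S : Set (ℝ × ℝ)) :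
    En (lin v c) S = qf (fun i j => BEn (v i) (v j) S) c := by
  have hint : ∀ i j, Integrable (fun z => c i * c j * bden (v i) (v j) z) (volume.restrict S) :=
    fun i j => (((hv i).bden_int (hv j)).const_mul (c i * c j)).restrict
  calc En (lin v c) S = ∫ z in S, ∑ i, ∑ j, c i * c j * bden (v i) (v j) z := by
        simp only [En, den_lin hv c]
    _ = ∑ i, ∑ j, ∫ z in S, c i * c j * bden (v i) (v j) z := by
        rw [integral_finset_sum _ (fun i _ => integrable_finset_sum _ (fun j _ => hint i j))]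
        exact Finset.sum_congr rfl (fun i _ => integral_finset_sum _ (fun j _ => hint i j))
    _ = qf (fun i j => BEn (v i) (v j) S) c := by
        simp only [qf, BEn, integral_const_mul]

theorem BEn_symm (f g : ℝ × ℝ → ℝ) (S : Set (ℝ × ℝ)) : BEn f g S = BEn g f S := by
  have h : bden f g = bden g f := by
    funext z
    simp only [bden]
    ring
  simp only [BEn, h]

theorem rot_lin (v : Fin 3 → ℝ × ℝ → ℝ) (p q : Fin 3 → ℝ) (s : ℝ) :
    rot (lin v p) (lin v q) s = lin v (fun i => Real.cos s * p i + Real.sin s * q i) := by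
  funext z
  simp only [rot, lin, Fin.sum_univ_three]
  ring

theorem line_null (t : ℝ) : (volume : Measure (ℝ × ℝ)) {z | z.2 = t} = 0 := by
  have h : {z : ℝ × ℝ | z.2 = t} = univ ×ˢ {t} := by
    ext z
    simp
  rw [h, Measure.volume_eq_prod, Measure.prod_prod]
  simp

theorem En_split {f : ℝ × ℝ → ℝ} (hf : CC f) (t : ℝ) :
    En f (up t) + En f (dn t) = En f univ := by
  have hd : Disjoint (up t) (dn t) := by
    rw [Set.disjoint_left]
    intro z h1 h2
    simp only [up, dn, mem_setOf_eq] at h1 h2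
    exact lt_asymm h1 h2
  have hu : (up t ∪ dn t : Set (ℝ × ℝ)) =ᵐ[volume] univ := by
    have h : (up t ∪ dn t : Set (ℝ × ℝ))ᶜ = {z | z.2 = t} := by
      ext z
      simp only [up, dn, mem_compl_iff, mem_union, mem_setOf_eq, not_or, not_lt]
      exact ⟨fun h => le_antisymm h.1 h.2, fun h => ⟨h.le, h.ge⟩⟩
    rw [ae_eq_univ, h]
    exact line_null t
  simp only [En]
  rw [← setIntegral_union hd (measurableSet_dn t) hf.den_int.integrableOn hf.den_int.integrableOn]
  exact setIntegral_congr_set hu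

end Pool.Agent.W_1ab439_h81

end F1

section F2

/-!
F2 (task P3 F2).  Integrals over half planes as functions of the height.

Proof.  `up_cont`: `∫ z in up t, h z = ∫ z, (up t).indicator h z`; at `t0` the integrand is continuous in `t` for every `z` with `z.2 ≠ t0`
(eventually constant), the line `{z.2 = t0}` is a null set, and `|h|` is an integrable bound: `continuousAt_of_dominated`.  Same for dn.
`up_zero`: for large `t` the compact support of `h` is below the line, so the integrand vanishes on `up t`.  `dn_zero`: for very negative `t`.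
`up_all`: for very negative `t` the support lies in `up t`, so `∫ z in up t, h z = ∫ z, h z`; `dn_all` similarly.
(A bound `B` on `|z.2|` over the compact support of `h` exists; take it for all four.)
-/

set_option autoImplicit false

open MeasureTheory Set

namespace Pool.Agent.W_1ab439_h81

theorem f2_line_null (t0 : ℝ) : ∀ᵐ z : ℝ × ℝ, z.2 ≠ t0 := by
  have h1 : {z : ℝ × ℝ | ¬ z.2 ≠ t0} = (univ : Set ℝ) ×ˢ ({t0} : Set ℝ) := by
    ext z
    simp
  rw [ae_iff, h1, Measure.volume_eq_prod, Measure.prod_prod]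
  simp

theorem f2_cont {h : ℝ × ℝ → ℝ} (hh : Integrable h) (A : ℝ → Set (ℝ × ℝ))
    (hA : ∀ t, MeasurableSet (A t))
    (hc : ∀ (t0 : ℝ) (z : ℝ × ℝ), z.2 ≠ t0 →
      (∀ᶠ t in nhds t0, z ∈ A t) ∨ (∀ᶠ t in nhds t0, z ∉ A t)) :
    Continuous (fun t => ∫ z in A t, h z) := by
  have e : (fun t => ∫ z in A t, h z) = fun t => ∫ z, (A t).indicator h z := by
    funext t
    exact (integral_indicator (hA t)).symm
  rw [e, continuous_iff_continuousAt]
  intro t0
  refine continuousAt_of_dominated (bound := fun z => ‖h z‖) ?_ ?_ hh.norm ?_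
  · exact Filter.Eventually.of_forall (fun t => (hh.indicator (hA t)).aestronglyMeasurable)
  · refine Filter.Eventually.of_forall (fun t => Filter.Eventually.of_forall (fun z => ?_))
    exact norm_indicator_le_norm_self h z
  · filter_upwards [f2_line_null t0] with z hz
    rcases hc t0 z hz with h1 | h1
    · refine ContinuousAt.congr (f := fun _ => h z) continuousAt_const ?_
      filter_upwards [h1] with t ht
      exact (indicator_of_mem ht h).symm
    · refine ContinuousAt.congr (f := fun _ => (0 : ℝ)) continuousAt_const ?_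
      filter_upwards [h1] with t ht
      exact (indicator_of_notMem ht h).symm

theorem up_cont {h : ℝ × ℝ → ℝ} (hh : Integrable h) : Continuous (fun t => ∫ z in up t, h z) := by
  refine f2_cont hh up measurableSet_up (fun t0 z hz => ?_)
  rcases lt_or_gt_of_ne hz with h1 | h1
  · right
    filter_upwards [lt_mem_nhds h1] with t ht
    exact fun h2 => lt_asymm ht h2
  · left
    filter_upwards [gt_mem_nhds h1] with t ht
    exact ht

theorem dn_cont {h : ℝ × ℝ → ℝ} (hh : Integrable h) : Continuous (fun t => ∫ z in dn t, h z) := by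
  refine f2_cont hh dn measurableSet_dn (fun t0 z hz => ?_)
  rcases lt_or_gt_of_ne hz with h1 | h1
  · left
    filter_upwards [lt_mem_nhds h1] with t ht
    exact ht
  · right
    filter_upwards [gt_mem_nhds h1] with t ht
    exact fun h2 => lt_asymm ht h2

theorem far {h : ℝ × ℝ → ℝ} (hc : HasCompactSupport h) :
    ∃ B : ℝ, (∀ t, B ≤ t → ∫ z in up t, h z = 0) ∧ (∀ t, t ≤ -B → ∫ z in dn t, h z = 0) ∧
      (∀ t, t ≤ -B → ∫ z in up t, h z = ∫ z, h z) ∧ (∀ t, B ≤ t → ∫ z in dn t, h z = ∫ z, h z) := by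
  obtain ⟨C, hC⟩ := hc.isCompact.exists_bound_of_continuousOn
    (f := fun z : ℝ × ℝ => z.2) continuous_snd.continuousOn
  have hz : ∀ z : ℝ × ℝ, C < |z.2| → h z = 0 := by
    intro z hz
    by_contra hne
    have h1 : z ∈ tsupport h := subset_tsupport h hne
    have h2 := hC z h1
    rw [Real.norm_eq_abs] at h2
    linarith
  refine ⟨C + 1, ?_, ?_, ?_, ?_⟩
  · intro t ht
    refine setIntegral_eq_zero_of_forall_eq_zero (fun z hz1 => hz z ?_)
    have h1 : t < z.2 := hz1
    exact lt_of_lt_of_le (by linarith) (le_abs_self z.2)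
  · intro t ht
    refine setIntegral_eq_zero_of_forall_eq_zero (fun z hz1 => hz z ?_)
    have h1 : z.2 < t := hz1
    exact lt_of_lt_of_le (by linarith) (neg_le_abs z.2)
  · intro t ht
    refine setIntegral_eq_integral_of_forall_compl_eq_zero (fun z hz1 => hz z ?_)
    have h1 : z.2 ≤ t := not_lt.1 hz1
    exact lt_of_lt_of_le (by linarith) (neg_le_abs z.2)
  · intro t ht
    refine setIntegral_eq_integral_of_forall_compl_eq_zero (fun z hz1 => hz z ?_)
    have h1 : t ≤ z.2 := not_lt.1 hz1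
    exact lt_of_lt_of_le (by linarith) (le_abs_self z.2)

end Pool.Agent.W_1ab439_h81

end F2

section F3

/-!
F3 (task P3 F3, Mathlib only).  Index lemma on `ℝ^3` in terms of pairs of vectors.

Proof.  Write `q c = ∑ i j, c i c j B i j`, `β v w = ∑ i j, v i w j B i j` (symmetric).  If `q ≥ 0` everywhere take `a = e_0`, `b = e_1`
(`cos s * e_0 + sin s * e_1 ≠ 0`).  Otherwise take `v` with `q v < 0` and `m j = ∑ i, v i B i j`; `m ≠ 0` because `∑ m j v j = q v ≠ 0`.
There are independent `a, b` with `∑ m j a j = ∑ m j b j = 0`: if `m 0 ≠ 0` take `a = (-m 1, m 0, 0)`, `b = (-m 2, 0, m 0)`; if `m 1 ≠ 0` take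
`a = (m 1, -m 0, 0)`, `b = (0, -m 2, m 1)`; if `m 2 ≠ 0` take `a = (m 2, 0, -m 0)`, `b = (0, m 2, -m 1)`; then `cos s a + sin s b ≠ 0` for all `s`.
If `q (cos s a + sin s b) ≥ 0` for all `s` we are in the second case.  Otherwise `w = cos s a + sin s b` has `q w < 0` and `β v w = 0`, so
`q (cos r v + sin r w) = cos r ^2 q v + sin r ^2 q w < 0` for all `r`: first case with the pair `(v, w)`.
-/

set_option autoImplicit false

namespace Pool.Agent.W_1ab439_h81

/-- Two vectors with a `2 × 2` minor different from `0` have no vanishing unit combination. -/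
theorem f3_indep (a b : Fin 3 → ℝ) (i j : Fin 3) (h : a i * b j - a j * b i ≠ 0) (s : ℝ) :
    (fun k => Real.cos s * a k + Real.sin s * b k) ≠ 0 := by
  intro hz
  have h1 : Real.cos s * a i + Real.sin s * b i = 0 := congrFun hz i
  have h2 : Real.cos s * a j + Real.sin s * b j = 0 := congrFun hz j
  have hc : Real.cos s * (a i * b j - a j * b i) = 0 := by
    linear_combination b j * h1 - b i * h2
  have hs : Real.sin s * (a i * b j - a j * b i) = 0 := by
    linear_combination a i * h2 - a j * h1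
  have hc0 : Real.cos s = 0 := (mul_eq_zero.mp hc).resolve_right h
  have hs0 : Real.sin s = 0 := (mul_eq_zero.mp hs).resolve_right h
  have := Real.cos_sq_add_sin_sq s
  rw [hc0, hs0] at this
  norm_num at this

/-- A nonzero linear form on `ℝ^3` vanishes on an independent pair. -/
theorem f3_pair (m : Fin 3 → ℝ) (hm : ∃ j, m j ≠ 0) :
    ∃ a b : Fin 3 → ℝ, m 0 * a 0 + m 1 * a 1 + m 2 * a 2 = 0 ∧
      m 0 * b 0 + m 1 * b 1 + m 2 * b 2 = 0 ∧
      ∀ s : ℝ, (fun k => Real.cos s * a k + Real.sin s * b k) ≠ 0 := by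
  by_cases h0 : m 0 = 0
  · by_cases h1 : m 1 = 0
    · have h2 : m 2 ≠ 0 := by
        obtain ⟨j, hj⟩ := hm
        fin_cases j
        · exact absurd h0 hj
        · exact absurd h1 hj
        · exact hj
      refine ⟨![m 2, 0, -m 0], ![0, m 2, -m 1], ?_, ?_, ?_⟩
      · simp; ring
      · simp; ring
      · refine f3_indep _ _ 0 1 ?_
        simp [h2]
    · refine ⟨![m 1, -m 0, 0], ![0, -m 2, m 1], ?_, ?_, ?_⟩
      · simp; ring
      · simp; ring
      · refine f3_indep _ _ 0 2 ?_
        simp [h1]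
  · refine ⟨![-m 1, m 0, 0], ![-m 2, 0, m 0], ?_, ?_, ?_⟩
    · simp; ring
    · simp; ring
    · refine f3_indep _ _ 1 2 ?_
      simp [h0]

theorem index_lemma (B : Fin 3 → Fin 3 → ℝ) (hB : ∀ i j, B i j = B j i) :
    (∃ p q : Fin 3 → ℝ, ∀ s : ℝ,
        ∑ i, ∑ j, (Real.cos s * p i + Real.sin s * q i) * (Real.cos s * p j + Real.sin s * q j) *
          B i j < 0) ∨
      (∃ p q : Fin 3 → ℝ, ∀ s : ℝ, (fun i => Real.cos s * p i + Real.sin s * q i) ≠ 0 ∧
        0 ≤ ∑ i, ∑ j, (Real.cos s * p i + Real.sin s * q i) *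
          (Real.cos s * p j + Real.sin s * q j) * B i j) := by
  by_cases hpos : ∀ c : Fin 3 → ℝ, 0 ≤ ∑ i, ∑ j, c i * c j * B i j
  · right
    refine ⟨![1, 0, 0], ![0, 1, 0], fun s => ⟨f3_indep _ _ 0 1 (by simp) s, ?_⟩⟩
    exact hpos (fun i => Real.cos s * (![1, 0, 0] : Fin 3 → ℝ) i +
      Real.sin s * (![0, 1, 0] : Fin 3 → ℝ) i)
  · push Not at hpos
    obtain ⟨v, hv⟩ := hpos
    have hm : ∃ j, (fun j => v 0 * B 0 j + v 1 * B 1 j + v 2 * B 2 j) j ≠ 0 := by
      by_contra hcon
      push Not at hcon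
      have e0 := hcon 0
      have e1 := hcon 1
      have e2 := hcon 2
      simp only [Fin.sum_univ_three] at hv
      have : v 0 * v 0 * B 0 0 + v 0 * v 1 * B 0 1 + v 0 * v 2 * B 0 2 +
          (v 1 * v 0 * B 1 0 + v 1 * v 1 * B 1 1 + v 1 * v 2 * B 1 2) +
          (v 2 * v 0 * B 2 0 + v 2 * v 1 * B 2 1 + v 2 * v 2 * B 2 2) = 0 := by
        linear_combination v 0 * e0 + v 1 * e1 + v 2 * e2
      linarith
    obtain ⟨a, b, ha, hb, hab⟩ := f3_pair _ hm
    by_cases hall : ∀ s : ℝ, 0 ≤ ∑ i, ∑ j, (Real.cos s * a i + Real.sin s * b i) *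
          (Real.cos s * a j + Real.sin s * b j) * B i j
    · right
      exact ⟨a, b, fun s => ⟨hab s, hall s⟩⟩
    · left
      push Not at hall
      obtain ⟨s, hs⟩ := hall
      set w : Fin 3 → ℝ := fun i => Real.cos s * a i + Real.sin s * b i with hw
      have hqw : ∑ i, ∑ j, w i * w j * B i j < 0 := hs
      have hvw : (v 0 * B 0 0 + v 1 * B 1 0 + v 2 * B 2 0) * w 0 +
          (v 0 * B 0 1 + v 1 * B 1 1 + v 2 * B 2 1) * w 1 +
          (v 0 * B 0 2 + v 1 * B 1 2 + v 2 * B 2 2) * w 2 = 0 := by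
        simp only [hw]
        linear_combination Real.cos s * ha + Real.sin s * hb
      clear_value w
      refine ⟨v, w, fun r => ?_⟩
      have key : ∑ i, ∑ j, (Real.cos r * v i + Real.sin r * w i) *
          (Real.cos r * v j + Real.sin r * w j) * B i j =
          Real.cos r ^ 2 * (∑ i, ∑ j, v i * v j * B i j) +
          Real.sin r ^ 2 * (∑ i, ∑ j, w i * w j * B i j) := by
        simp only [Fin.sum_univ_three]
        have h01 := hB 1 0
        have h02 := hB 2 0
        have h12 := hB 2 1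
        rw [h01, h02, h12] at hvw ⊢
        linear_combination 2 * Real.cos r * Real.sin r * hvw
      rw [key]
      have hc := sq_nonneg (Real.cos r)
      have hsn := sq_nonneg (Real.sin r)
      have hone := Real.cos_sq_add_sin_sq r
      by_cases hcz : Real.cos r ^ 2 = 0
      · have : Real.sin r ^ 2 = 1 := by linarith
        rw [hcz, this]
        linarith
      · have hcp : 0 < Real.cos r ^ 2 := lt_of_le_of_ne hc (Ne.symm hcz)
        have t1 := mul_neg_of_pos_of_neg hcp hv
        have t2 := mul_nonpos_of_nonneg_of_nonpos hsn hqw.le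
        linarith

end Pool.Agent.W_1ab439_h81

end F3

section F4

/-!
F4 (task P3 F4, Mathlib only).  Openness lemma.

Proof.  Fix a pair `p, q`.  The function `(t,s) ↦ ∑ i j, (cos s p i + sin s q i)(cos s p j + sin s q j) * B t i j` is continuous, so
`{t : ∀ s ∈ [0, 2π], ... < 0}` is open (tube lemma: `IsCompact.eventually_forall_of_forall_eventually`, or consider the maximum over the compact
`[0,2π]`), and by periodicity of cos and sin the condition for `s ∈ [0,2π]` is the condition for all real `s`.  The set is a union of these over all pairs.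
(Alternative: the pair `(p,q)` is good iff `Q p < 0` and `Q p * Q q - β p q ^ 2 > 0`.)
-/

set_option autoImplicit false

namespace Pool.Agent.W_1ab439_h81

theorem pair_open (B : ℝ → Fin 3 → Fin 3 → ℝ) (hB : ∀ i j, Continuous (fun t => B t i j)) :
    IsOpen {t : ℝ | ∃ p q : Fin 3 → ℝ, ∀ s : ℝ,
      ∑ i, ∑ j, (Real.cos s * p i + Real.sin s * q i) * (Real.cos s * p j + Real.sin s * q j) *
        B t i j < 0} := by
  rw [isOpen_iff_mem_nhds]
  rintro t₀ ⟨p, q, h⟩
  have hc : Continuous (fun z : ℝ × ℝ => ∑ i, ∑ j, (Real.cos z.2 * p i + Real.sin z.2 * q i) *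
      (Real.cos z.2 * p j + Real.sin z.2 * q j) * B z.1 i j) := by
    refine continuous_finsetSum _ fun i _ => continuous_finsetSum _ fun j _ => ?_
    have h1 : Continuous (fun z : ℝ × ℝ => B z.1 i j) := (hB i j).comp continuous_fst
    have h2 : Continuous (fun z : ℝ × ℝ => Real.cos z.2) := Real.continuous_cos.comp continuous_snd
    have h3 : Continuous (fun z : ℝ × ℝ => Real.sin z.2) := Real.continuous_sin.comp continuous_snd
    exact (((h2.mul continuous_const).add (h3.mul continuous_const)).mul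
      ((h2.mul continuous_const).add (h3.mul continuous_const))).mul h1
  have hev : ∀ᶠ t in nhds t₀, ∀ s ∈ Set.Icc (0 : ℝ) (2 * Real.pi),
      ∑ i, ∑ j, (Real.cos s * p i + Real.sin s * q i) * (Real.cos s * p j + Real.sin s * q j) *
        B t i j < 0 := by
    refine isCompact_Icc.eventually_forall_of_forall_eventually
      (P := fun t s => ∑ i, ∑ j, (Real.cos s * p i + Real.sin s * q i) *
        (Real.cos s * p j + Real.sin s * q j) * B t i j < 0) ?_
    intro s _
    exact hc.continuousAt.eventually_lt_const (h s)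
  filter_upwards [hev] with t ht
  refine ⟨p, q, fun s => ?_⟩
  have hper : Function.Periodic (fun s : ℝ => ∑ i, ∑ j, (Real.cos s * p i + Real.sin s * q i) *
      (Real.cos s * p j + Real.sin s * q j) * B t i j) (2 * Real.pi) := by
    intro s
    simp only [Real.cos_add_two_pi, Real.sin_add_two_pi]
  obtain ⟨y, hy, hxy⟩ := hper.exists_mem_Ico₀ Real.two_pi_pos s
  have := ht y ⟨hy.1, hy.2.le⟩
  exact lt_of_eq_of_lt hxy this

end Pool.Agent.W_1ab439_h81

end F4

section F5

/-!
F5 (task P3 F5; uses F1 to F4).  The Cut Lemma.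

Proof.  `P = {t : ∃ p q, ∀ s, En (lin v (cos s p + sin s q)) (up t) < 0}`, `N` the same with `dn t`.  By En_lin and F4 (coefficients
`BEn (v i) (v j) (up t)` continuous in `t`: F2 up_cont with `CC.bden_int`) both are open.  `P` is nonempty: for `t ≤ -B` (F2 far, B the maximum over
the nine bden (v i) (v j), or directly for `den (lin v c)` for all c through the matrix) `En (lin v c) (up t) = En (lin v c) univ < 0` for `c ≠ 0`;
take `p = e_0`, `q = e_1`.  Similarly `N` is nonempty.  `P ∪ N = ℝ`: apply F3 to `B i j = BEn (v i) (v j) (dn t)`.  First case: `t ∈ N`.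
Second case: a pair with all `c = cos s p + sin s q ≠ 0` and `En (lin v c) (dn t) ≥ 0`, so by F1 En_split
`En (lin v c) (up t) = En (lin v c) univ - En (lin v c) (dn t) < 0`: `t ∈ P`.  `ℝ` is connected (`isPreconnected_univ` with two open sets covering):
`P ∩ N` is nonempty.
-/

set_option autoImplicit false

open MeasureTheory Set

namespace Pool.Agent.W_1ab439_h81

theorem f5_key {v : Fin 3 → ℝ × ℝ → ℝ} (hv : ∀ i, CC (v i)) (S : Set (ℝ × ℝ))
    (p q : Fin 3 → ℝ) (s : ℝ) :
    En (rot (lin v p) (lin v q) s) S =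
      ∑ i, ∑ j, (Real.cos s * p i + Real.sin s * q i) * (Real.cos s * p j + Real.sin s * q j) *
        BEn (v i) (v j) S := by
  rw [rot_lin, En_lin hv]
  rfl

theorem f5_ne (s : ℝ) : (fun i : Fin 3 => Real.cos s * (if i = 0 then (1 : ℝ) else 0) +
    Real.sin s * (if i = 1 then (1 : ℝ) else 0)) ≠ 0 := by
  intro h
  have h0 := congrFun h 0
  have h1 := congrFun h 1
  simp at h0 h1
  have h2 := Real.sin_sq_add_cos_sq s
  rw [h0, h1] at h2
  norm_num at h2

theorem f5_univ {v : Fin 3 → ℝ × ℝ → ℝ} (hv : ∀ i, CC (v i))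
    (hE : ∀ c : Fin 3 → ℝ, c ≠ 0 → En (lin v c) univ < 0) (s : ℝ) :
    ∑ i, ∑ j, (Real.cos s * (if i = (0 : Fin 3) then (1 : ℝ) else 0) +
        Real.sin s * (if i = (1 : Fin 3) then (1 : ℝ) else 0)) *
      (Real.cos s * (if j = (0 : Fin 3) then (1 : ℝ) else 0) +
        Real.sin s * (if j = (1 : Fin 3) then (1 : ℝ) else 0)) *
        BEn (v i) (v j) univ < 0 := by
  have h := hE _ (f5_ne s)
  rw [En_lin hv] at h
  exact h

theorem f5_bound {v : Fin 3 → ℝ × ℝ → ℝ} (hv : ∀ i, CC (v i)) :
    ∃ B : ℝ, (∀ i j, BEn (v i) (v j) (up (-B)) = BEn (v i) (v j) univ) ∧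
      ∀ i j, BEn (v i) (v j) (dn B) = BEn (v i) (v j) univ := by
  have h : ∀ i j, ∃ B : ℝ, (∀ t, t ≤ -B → BEn (v i) (v j) (up t) = BEn (v i) (v j) univ) ∧
      ∀ t, B ≤ t → BEn (v i) (v j) (dn t) = BEn (v i) (v j) univ := by
    intro i j
    obtain ⟨B, _, _, h3, h4⟩ := far ((hv i).bden_cpt (hv j))
    refine ⟨B, fun t ht => ?_, fun t ht => ?_⟩
    · unfold BEn
      rw [h3 t ht, Measure.restrict_univ]
    · unfold BEn
      rw [h4 t ht, Measure.restrict_univ]
  choose B hB1 hB2 using h
  have hle : ∀ i j, B i j ≤ ∑ i, ∑ j, |B i j| := by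
    intro i j
    calc B i j ≤ |B i j| := le_abs_self _
      _ ≤ ∑ j, |B i j| :=
        Finset.single_le_sum (f := fun j => |B i j|) (fun _ _ => abs_nonneg _) (Finset.mem_univ j)
      _ ≤ ∑ i, ∑ j, |B i j| :=
        Finset.single_le_sum (f := fun i => ∑ j, |B i j|)
          (fun _ _ => Finset.sum_nonneg fun _ _ => abs_nonneg _) (Finset.mem_univ i)
  refine ⟨∑ i, ∑ j, |B i j|, fun i j => hB1 i j _ ?_, fun i j => hB2 i j _ (hle i j)⟩
  have := hle i j
  linarith

theorem cut_lemma {v : Fin 3 → ℝ × ℝ → ℝ} (hv : ∀ i, CC (v i))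
    (hE : ∀ c : Fin 3 → ℝ, c ≠ 0 → En (lin v c) univ < 0) :
    ∃ t : ℝ,
      (∃ p q : Fin 3 → ℝ, ∀ s : ℝ, En (rot (lin v p) (lin v q) s) (up t) < 0) ∧
      (∃ p q : Fin 3 → ℝ, ∀ s : ℝ, En (rot (lin v p) (lin v q) s) (dn t) < 0) := by
  have hP := pair_open (fun t i j => BEn (v i) (v j) (up t))
    (fun i j => up_cont ((hv i).bden_int (hv j)))
  have hN := pair_open (fun t i j => BEn (v i) (v j) (dn t))
    (fun i j => dn_cont ((hv i).bden_int (hv j)))
  obtain ⟨B, hB1, hB2⟩ := f5_bound hv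
  suffices hne : ((univ : Set ℝ) ∩ ({t : ℝ | ∃ p q : Fin 3 → ℝ, ∀ s : ℝ,
      ∑ i, ∑ j, (Real.cos s * p i + Real.sin s * q i) * (Real.cos s * p j + Real.sin s * q j) *
        BEn (v i) (v j) (up t) < 0} ∩ {t : ℝ | ∃ p q : Fin 3 → ℝ, ∀ s : ℝ,
      ∑ i, ∑ j, (Real.cos s * p i + Real.sin s * q i) * (Real.cos s * p j + Real.sin s * q j) *
        BEn (v i) (v j) (dn t) < 0})).Nonempty by
    obtain ⟨t, _, ⟨p, q, hpq⟩, ⟨p', q', hpq'⟩⟩ := hne
    refine ⟨t, ⟨p, q, fun s => ?_⟩, ⟨p', q', fun s => ?_⟩⟩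
    · rw [f5_key hv]
      exact hpq s
    · rw [f5_key hv]
      exact hpq' s
  refine isPreconnected_univ (α := ℝ) _ _ hP hN ?_ ?_ ?_
  · intro t _
    rcases index_lemma (fun i j => BEn (v i) (v j) (dn t)) (fun i j => BEn_symm _ _ _) with
      h | ⟨p, q, h⟩
    · exact Or.inr h
    · refine Or.inl ⟨p, q, fun s => ?_⟩
      obtain ⟨hc, hs⟩ := h s
      rw [← f5_key hv] at hs
      have h1 := En_split ((CC.lin hv p).rot (CC.lin hv q) s) t
      have h2 := hE _ hc
      rw [← rot_lin] at h2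
      show ∑ i, ∑ j, (Real.cos s * p i + Real.sin s * q i) * (Real.cos s * p j +
        Real.sin s * q j) * BEn (v i) (v j) (up t) < 0
      rw [← f5_key hv]
      linarith
  · refine ⟨-B, mem_univ _, fun i => if i = 0 then 1 else 0, fun i => if i = 1 then 1 else 0,
      fun s => ?_⟩
    simp only [hB1]
    exact f5_univ hv hE s
  · refine ⟨B, mem_univ _, fun i => if i = 0 then 1 else 0, fun i => if i = 1 then 1 else 0,
      fun s => ?_⟩
    simp only [hB2]
    exact f5_univ hv hE s

end Pool.Agent.W_1ab439_h81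

end F5
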