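import Mathlib

/-!
Definitions for Polya's inequality for k at most 3 on bounded open subsets of the plane
(MP_1ab439_an, paper proof: table proofs row 510).  Everything happens on `ℝ × ℝ` after scaling
to `lam = 1`.
-/

set_option autoImplicit false

open MeasureTheory Set

namespace Pool.Agent.W_1ab439_h81

/-- partial derivative in the first coordinate -/
noncomputable def dx (f : ℝ × ℝ → ℝ) (z : ℝ × ℝ) : ℝ := fderiv ℝ f z (1, 0)

/-- partial derivative in the second coordinate -/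
noncomputable def dy (f : ℝ × ℝ → ℝ) (z : ℝ × ℝ) : ℝ := fderiv ℝ f z (0, 1)

/-- energy density `f_x ^ 2 + f_y ^ 2 - f ^ 2` -/
noncomputable def den (f : ℝ × ℝ → ℝ) (z : ℝ × ℝ) : ℝ := dx f z ^ 2 + dy f z ^ 2 - f z ^ 2

/-- polar form of the energy density -/
noncomputable def bden (f g : ℝ × ℝ → ℝ) (z : ℝ × ℝ) : ℝ :=
  dx f z * dx g z + dy f z * dy g z - f z * g z

/-- energy on a set -/
noncomputable def En (f : ℝ × ℝ → ℝ) (S : Set (ℝ × ℝ)) : ℝ := ∫ z in S, den f z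

/-- polar form of the energy on a set -/
noncomputable def BEn (f g : ℝ × ℝ → ℝ) (S : Set (ℝ × ℝ)) : ℝ := ∫ z in S, bden f g z

/-- continuously differentiable functions with compact support -/
def CC (f : ℝ × ℝ → ℝ) : Prop := ContDiff ℝ 1 f ∧ HasCompactSupport f

/-- the open half plane above the line `y = t` -/
def up (t : ℝ) : Set (ℝ × ℝ) := {z | t < z.2}

/-- the open half plane below the line `y = t` -/
def dn (t : ℝ) : Set (ℝ × ℝ) := {z | z.2 < t}

/-- `χ` is a cut for `f`: continuous, compactly supported, values in `[0,1]`, equal to `1` at every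
point where `f` does not vanish -/
structure Cut (f χ : ℝ × ℝ → ℝ) : Prop where
  cont : Continuous χ
  cpt : HasCompactSupport χ
  nonneg : ∀ z, 0 ≤ χ z
  le_one : ∀ z, χ z ≤ 1
  one : ∀ z, f z ≠ 0 → χ z = 1

/-- section area of `χ` at height `t`, plus `δ` -/
noncomputable def sec (χ : ℝ × ℝ → ℝ) (δ t : ℝ) : ℝ := (∫ x, χ (x, t)) + δ

/-- the truncation `th e s = √((s - e)₊ ^ 2 + e ^ 2) - e` -/
noncomputable def th (e s : ℝ) : ℝ := √(max (s - e) 0 ^ 2 + e ^ 2) - e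

/-- the derivative of `th e` -/
noncomputable def th' (e s : ℝ) : ℝ := max (s - e) 0 / √(max (s - e) 0 ^ 2 + e ^ 2)

/-- clamp to `[0,1]` -/
noncomputable def cl (s : ℝ) : ℝ := min (max s 0) 1

/-- the piece `th e (v)` -/
noncomputable def pc (e : ℝ) (v : ℝ × ℝ → ℝ) (z : ℝ × ℝ) : ℝ := th e (v z)

/-- the cut `cl (v / e)` -/
noncomputable def ct (e : ℝ) (v : ℝ × ℝ → ℝ) (z : ℝ × ℝ) : ℝ := cl (v z / e)

/-- the rotating combination `cos s • a + sin s • b` -/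
noncomputable def rot (a b : ℝ × ℝ → ℝ) (s : ℝ) (z : ℝ × ℝ) : ℝ := Real.cos s * a z + Real.sin s * b z

/-- linear combination of three functions -/
noncomputable def lin (v : Fin 3 → ℝ × ℝ → ℝ) (c : Fin 3 → ℝ) (z : ℝ × ℝ) : ℝ := ∑ i, c i * v i z

/-- the one variable path of the Path Lemma: `S` runs from `0` to `1` on `[0,T]`, `|S| ≤ 1`, and `Y`
dominates all tangent lines with parameter `h ≥ 0`. -/
structure IsPath (T : ℝ) (S S' Y : ℝ → ℝ) : Prop where
  hT : 0 < T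
  hS : ∀ t ∈ Icc 0 T, HasDerivAt S (S' t) t
  hS' : ContinuousOn S' (Icc 0 T)
  hY : ContinuousOn Y (Icc 0 T)
  S0 : S 0 = 0
  ST : S T = 1
  Sle : ∀ t ∈ Icc 0 T, |S t| ≤ 1
  hle : ∀ t ∈ Icc 0 T, ∀ h : ℝ, 0 ≤ h →
    (3 * h - h ^ 3) / 2 * √(1 - S t ^ 2) + h ^ 3 / 2 * S' t ≤ Y t

/-- certificate: `H ≥ 1` with primitive `G` of `H ^ 3` and a level `nu` on `[-tau, tau]` -/
structure Cert (tau nu : ℝ) (H G : ℝ → ℝ) : Prop where
  tau0 : 0 ≤ tau
  nu0 : 0 ≤ nu
  nu_le : ∀ s, |s| ≤ tau → nu ≤ √(1 - s ^ 2)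
  one_le : ∀ s, |s| ≤ tau → 1 ≤ H s
  cube_le : ∀ s, |s| ≤ tau → H s ^ 3 ≤ 5
  main : ∀ s, |s| ≤ tau → nu ≤ (3 * H s - H s ^ 3) / 2 * √(1 - s ^ 2)
  deriv : ∀ s, HasDerivAt G (H s ^ 3) s
  odd : ∀ s, G (-s) = -G s
  cont : Continuous H

end Pool.Agent.W_1ab439_h81
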