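import Pool.Agent.W_1ab439_h81.Defs
import Pool.Agent.W_1ab439_h81.Basic

section E1

/-!
E1 (task P3 E1).  Calculus of the truncation `th e s = √((s-e)₊^2 + e^2) - e`, `e > 0`.

Proof.  `r ↦ (max r 0)^2` has derivative `2 * max r 0` everywhere (left of 0 it is constant 0, right of 0 it is `r^2`, at 0 it is
`O(r^2)`).  Compose with the square root at the positive number `(s-e)₊^2 + e^2`: derivative `2 m / (2 √(m^2+e^2)) = m / √(m^2 + e^2)`,
`m = max (s-e) 0`.  `0 ≤ m/√(m^2+e^2) ≤ 1`.  If `s ≤ e` then `m = 0`, `th = √(e^2) - e = 0`, `th' = 0`.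
`√(m^2 + e^2) ≥ e` gives `th ≥ 0`; `√(m^2+e^2) ≥ m ≥ s - e` gives `th ≥ s - 2e`.
`th_sq`: if `s ≤ 2e` then (s ≥ 0) `s^2 - 4 e s = s (s - 4e) ≤ 0`; else `th ≥ s - 2e > 0` and `(s-2e)^2 ≥ s^2 - 4 e s`.
`th e s > 0` for `s > e`.
-/

set_option autoImplicit false

open Set

namespace Pool.Agent.W_1ab439_h81

theorem e1_sq (r : ℝ) : HasDerivAt (fun r : ℝ => (max r 0) ^ 2) (2 * max r 0) r := by
  rcases lt_trichotomy r 0 with hr | hr | hr
  · rw [max_eq_right hr.le, mul_zero]
    refine (hasDerivAt_const r (0 : ℝ)).congr_of_eventuallyEq ?_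
    filter_upwards [Iio_mem_nhds hr] with x hx
    rw [max_eq_right (le_of_lt hx)]
    norm_num
  · subst hr
    rw [max_self, mul_zero, hasDerivAt_iff_isLittleO_nhds_zero]
    have h1 : (fun h : ℝ => max (0 + h) 0 ^ 2 - max (0 : ℝ) 0 ^ 2 - h • (0 : ℝ)) =
        fun h : ℝ => max h 0 ^ 2 := by
      funext h
      simp
    rw [h1]
    refine Asymptotics.IsBigO.trans_isLittleO (g := fun h : ℝ => h ^ 2) ?_
      (Asymptotics.isLittleO_pow_id one_lt_two)
    refine Asymptotics.IsBigO.of_bound 1 (Filter.Eventually.of_forall fun h => ?_)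
    rw [one_mul, Real.norm_eq_abs, Real.norm_eq_abs, abs_of_nonneg (sq_nonneg _),
      abs_of_nonneg (sq_nonneg _)]
    rcases le_total h 0 with hh | hh
    · rw [max_eq_right hh]
      nlinarith [sq_nonneg h]
    · rw [max_eq_left hh]
  · rw [max_eq_left hr.le]
    have h1 : HasDerivAt (fun r : ℝ => r ^ 2) (2 * r) r := by
      simpa using hasDerivAt_pow 2 r
    refine h1.congr_of_eventuallyEq ?_
    filter_upwards [Ioi_mem_nhds hr] with x hx
    rw [max_eq_left (le_of_lt hx)]

theorem e1_pos {e : ℝ} (he : 0 < e) (s : ℝ) : 0 < max (s - e) 0 ^ 2 + e ^ 2 := by positivity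

theorem e1_sqrt_pos {e : ℝ} (he : 0 < e) (s : ℝ) : 0 < √(max (s - e) 0 ^ 2 + e ^ 2) :=
  Real.sqrt_pos.2 (e1_pos he s)

theorem e1_ge_m (e s : ℝ) : max (s - e) 0 ≤ √(max (s - e) 0 ^ 2 + e ^ 2) :=
  (le_abs_self _).trans (Real.abs_le_sqrt (by nlinarith [sq_nonneg e]))

theorem e1_ge_e (e s : ℝ) : e ≤ √(max (s - e) 0 ^ 2 + e ^ 2) :=
  (le_abs_self _).trans (Real.abs_le_sqrt (by nlinarith [sq_nonneg (max (s - e) 0)]))

theorem hasDerivAt_th {e : ℝ} (he : 0 < e) (s : ℝ) : HasDerivAt (th e) (th' e s) s := by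
  have h1 : HasDerivAt (fun s : ℝ => s - e) 1 s := (hasDerivAt_id s).sub_const e
  have h2 : HasDerivAt (fun s : ℝ => max (s - e) 0 ^ 2) (2 * max (s - e) 0 * 1) s :=
    HasDerivAt.comp (h₂ := fun r : ℝ => max r 0 ^ 2) s (e1_sq (s - e)) h1
  have h3 := ((h2.add_const (e ^ 2)).sqrt (e1_pos he s).ne').sub_const e
  refine h3.congr_deriv ?_
  unfold th'
  rw [mul_one, mul_div_mul_left _ _ two_ne_zero]

theorem continuous_th' {e : ℝ} (he : 0 < e) : Continuous (th' e) := by
  unfold th'
  exact Continuous.div (by fun_prop) (by fun_prop) fun s => (e1_sqrt_pos he s).ne'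

theorem th'_nonneg (e s : ℝ) : 0 ≤ th' e s :=
  div_nonneg (le_max_right _ _) (Real.sqrt_nonneg _)

theorem th'_le_one {e : ℝ} (he : 0 < e) (s : ℝ) : th' e s ≤ 1 := by
  unfold th'
  rw [div_le_one (e1_sqrt_pos he s)]
  exact e1_ge_m e s

theorem th_nonneg {e : ℝ} (he : 0 < e) (s : ℝ) : 0 ≤ th e s := by
  have := e1_ge_e e s
  unfold th
  linarith

theorem th_zero {e : ℝ} (he : 0 < e) {s : ℝ} (hs : s ≤ e) : th e s = 0 := by
  unfold th
  rw [max_eq_right (by linarith), zero_pow two_ne_zero, zero_add, Real.sqrt_sq he.le, sub_self]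

theorem th'_zero {e : ℝ} (he : 0 < e) {s : ℝ} (hs : s ≤ e) : th' e s = 0 := by
  unfold th'
  rw [max_eq_right (by linarith), zero_div]

theorem e1_ge (e s : ℝ) : s - 2 * e ≤ th e s := by
  have h1 := e1_ge_m e s
  have h2 := le_max_left (s - e) 0
  unfold th
  linarith

theorem th_sq {e : ℝ} (he : 0 < e) {s : ℝ} (hs : 0 ≤ s) : s ^ 2 - 4 * e * s ≤ th e s ^ 2 := by
  rcases le_total s (2 * e) with h | h
  · have h1 : s * (s - 4 * e) ≤ 0 := mul_nonpos_of_nonneg_of_nonpos hs (by linarith)
    nlinarith [sq_nonneg (th e s)]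
  · have h1 := e1_ge e s
    have h2 : (s - 2 * e) ^ 2 ≤ th e s ^ 2 := by
      apply pow_le_pow_left₀ (by linarith) h1
    nlinarith [sq_nonneg e]

theorem th_le {e : ℝ} (he : 0 < e) (s : ℝ) : th e s ≤ |s| := by
  rcases le_total s e with h | h
  · rw [th_zero he h]
    exact abs_nonneg s
  · have h1 : √(max (s - e) 0 ^ 2 + e ^ 2) ≤ s := by
      rw [max_eq_left (by linarith)]
      apply Real.sqrt_le_iff.2
      refine ⟨by linarith, ?_⟩
      nlinarith
    unfold th
    have := le_abs_self s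
    linarith

theorem contDiff_th {e : ℝ} (he : 0 < e) : ContDiff ℝ 1 (th e) := by
  rw [contDiff_one_iff_deriv]
  refine ⟨fun s => (hasDerivAt_th he s).differentiableAt, ?_⟩
  have : deriv (th e) = th' e := by
    funext s
    exact (hasDerivAt_th he s).deriv
  rw [this]
  exact continuous_th' he

end Pool.Agent.W_1ab439_h81

end E1

section E2

/-!
E2 (task P3 E2; uses E1).  The pieces `pc e v = th e ∘ v` and the cuts `ct e v = cl (v / e)`.

Proof.  Chain rule: `fderiv (th e ∘ v) z = th' e (v z) • fderiv v z`.  `th e 0 = 0` (as `0 ≤ e`), so the support is contained in that of `v`.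
`cl` is continuous, `cl 0 = 0`, values in `[0,1]`.  If `pc e v z ≠ 0` then `v z > e` (th_zero) and `v z / e ≥ 1`, `cl = 1`.
`cl s + cl (-s) ≤ 1`: one of them is 0.
-/

set_option autoImplicit false

open MeasureTheory Set

namespace Pool.Agent.W_1ab439_h81

variable {v : ℝ × ℝ → ℝ} {e : ℝ}

private theorem e2_cl_cont : Continuous cl := by
  unfold cl
  fun_prop

private theorem e2_cl_zero : cl 0 = 0 := by
  unfold cl
  simp

private theorem e2_cl_nonneg (s : ℝ) : 0 ≤ cl s := by
  unfold cl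
  exact le_min (le_max_right _ _) zero_le_one

private theorem e2_cl_le (s : ℝ) : cl s ≤ 1 := by
  unfold cl
  exact min_le_right _ _

private theorem e2_cl_one {s : ℝ} (h : 1 ≤ s) : cl s = 1 := by
  unfold cl
  exact min_eq_right (h.trans (le_max_left _ _))

private theorem e2_cl_neg {s : ℝ} (h : s ≤ 0) : cl s = 0 := by
  unfold cl
  rw [max_eq_right h]
  exact min_eq_left zero_le_one

private theorem e2_fd (hv : CC v) (he : 0 < e) (z : ℝ × ℝ) :
    HasFDerivAt (fun z => th e (v z)) (th' e (v z) • fderiv ℝ v z) z :=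
  (hasDerivAt_th he (v z)).comp_hasFDerivAt z (hv.diff z).hasFDerivAt

theorem CC.pc (hv : CC v) (he : 0 < e) : CC (pc e v) :=
  ⟨(contDiff_th he).comp hv.1, hv.2.comp_left (g := th e) (th_zero he he.le)⟩

theorem dx_pc (hv : CC v) (he : 0 < e) (z : ℝ × ℝ) : dx (pc e v) z = th' e (v z) * dx v z := by
  have h : fderiv ℝ (pc e v) z = th' e (v z) • fderiv ℝ v z := (e2_fd hv he z).fderiv
  unfold dx
  rw [h]
  rfl

theorem dy_pc (hv : CC v) (he : 0 < e) (z : ℝ × ℝ) : dy (pc e v) z = th' e (v z) * dy v z := by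
  have h : fderiv ℝ (pc e v) z = th' e (v z) • fderiv ℝ v z := (e2_fd hv he z).fderiv
  unfold dy
  rw [h]
  rfl

theorem cut_pc (hv : CC v) (he : 0 < e) : Cut (pc e v) (ct e v) := by
  refine ⟨?_, ?_, fun z => e2_cl_nonneg _, fun z => e2_cl_le _, ?_⟩
  · exact e2_cl_cont.comp (hv.cont.div_const e)
  · exact hv.2.comp_left (g := fun s => cl (s / e)) (by simp only [zero_div, e2_cl_zero])
  · intro z hz
    have h1 : e < v z := by
      by_contra h
      exact hz (th_zero he (not_lt.1 h))
    refine e2_cl_one ?_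
    rw [le_div_iff₀ he]
    linarith

theorem ct_add_le (he : 0 < e) (z : ℝ × ℝ) : ct e v z + ct e (fun z => -v z) z ≤ 1 := by
  unfold ct
  rcases le_total (v z) 0 with h | h
  · rw [e2_cl_neg (div_nonpos_of_nonpos_of_nonneg h he.le), zero_add]
    exact e2_cl_le _
  · have h1 : cl (-v z / e) = 0 :=
      e2_cl_neg (div_nonpos_of_nonpos_of_nonneg (neg_nonpos.2 h) he.le)
    rw [h1, add_zero]
    exact e2_cl_le _

theorem ct_zero {z : ℝ × ℝ} (h : v z = 0) : ct e v z = 0 := by
  unfold ct
  rw [h, zero_div, e2_cl_zero]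

end Pool.Agent.W_1ab439_h81

end E2

section E3

/-!
E3 (task P3 E3; uses E1, E2, Basic).  The energies of the two pieces of `v`.

Proof.  Pointwise `den (pc e v) z + den (pc e (-v)) z ≤ den v z + 4 e |v z|`: by dx_pc, dy_pc (and dx_neg, dy_neg) the gradient terms are
`(th' e (v z)^2 + th' e (-v z)^2) * (dx v z^2 + dy v z^2)`, and at most one of `th' e (v z)`, `th' e (-v z)` is nonzero (th'_zero, since one of
`v z`, `-v z` is `≤ 0 ≤ e`), each `≤ 1`; so the factor is `≤ 1`.  Similarly `th e (v z)^2 + th e (-v z)^2 = th e |v z| ^2 ≥ v^2 - 4 e |v|`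
(th_sq, th_zero).  Integrate over `S` (`setIntegral_mono`, all functions integrable), and `∫ z in S, |v z| ≤ ∫ z, |v z|`.
-/

set_option autoImplicit false

open MeasureTheory Set

namespace Pool.Agent.W_1ab439_h81

theorem e3_real {t X Y s T e : ℝ} (h0 : 0 ≤ t) (h1 : t ≤ 1) (h2 : s ^ 2 - 4 * e * s ≤ T ^ 2) :
    (t * X) ^ 2 + (t * Y) ^ 2 - T ^ 2 ≤ X ^ 2 + Y ^ 2 - s ^ 2 + 4 * e * s := by
  have h3 : t ^ 2 ≤ 1 := by nlinarith
  have h4 : t ^ 2 * (X ^ 2 + Y ^ 2) ≤ 1 * (X ^ 2 + Y ^ 2) :=
    mul_le_mul_of_nonneg_right h3 (by positivity)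
  nlinarith

theorem e3_pt {v : ℝ × ℝ → ℝ} (hv : CC v) {e : ℝ} (he : 0 < e) (z : ℝ × ℝ) :
    den (pc e v) z + den (pc e (fun z => -v z)) z ≤ den v z + 4 * e * |v z| := by
  have hn := hv.neg
  simp only [den, dx_pc hv he, dy_pc hv he, dx_pc hn he, dy_pc hn he, dx_neg hv, dy_neg hv, pc]
  rcases le_total 0 (v z) with h | h
  · have h1 : -v z ≤ e := by linarith
    rw [th'_zero he h1, th_zero he h1, abs_of_nonneg h]
    have h2 := e3_real (X := dx v z) (Y := dy v z) (th'_nonneg e (v z)) (th'_le_one he (v z))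
      (th_sq he h)
    linarith
  · have h1 : v z ≤ e := by linarith
    rw [th'_zero he h1, th_zero he h1, abs_of_nonpos h]
    have h2 := e3_real (X := -dx v z) (Y := -dy v z) (th'_nonneg e (-v z)) (th'_le_one he (-v z))
      (th_sq he (neg_nonneg.2 h))
    have h3 : (-dx v z) ^ 2 + (-dy v z) ^ 2 - (-v z) ^ 2 + 4 * e * -v z =
        dx v z ^ 2 + dy v z ^ 2 - v z ^ 2 + 4 * e * -v z := by ring
    rw [h3] at h2
    linarith

theorem En_pieces_le {v : ℝ × ℝ → ℝ} (hv : CC v) {e : ℝ} (he : 0 < e) (S : Set (ℝ × ℝ)) :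
    En (pc e v) S + En (pc e (fun z => -v z)) S ≤ En v S + 4 * e * ∫ z, |v z| := by
  have hp : CC (pc e v) := hv.pc he
  have hq : CC (pc e (fun z => -v z)) := hv.neg.pc he
  have i1 : Integrable (den (pc e v)) (volume.restrict S) := hp.den_int.restrict
  have i2 : Integrable (den (pc e (fun z => -v z))) (volume.restrict S) := hq.den_int.restrict
  have i3 : Integrable (den v) (volume.restrict S) := hv.den_int.restrict
  have i4 : Integrable (fun z => |v z|) := hv.int.abs
  have i5 : Integrable (fun z => 4 * e * |v z|) (volume.restrict S) := (i4.const_mul _).restrict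
  have h1 : En (pc e v) S + En (pc e (fun z => -v z)) S =
      ∫ z in S, (den (pc e v) z + den (pc e (fun z => -v z)) z) := by
    unfold En
    rw [integral_add i1 i2]
  have h2 : ∫ z in S, (den (pc e v) z + den (pc e (fun z => -v z)) z) ≤
      ∫ z in S, (den v z + 4 * e * |v z|) :=
    integral_mono (i1.add i2) (i3.add i5) (fun z => e3_pt hv he z)
  have h3 : ∫ z in S, (den v z + 4 * e * |v z|) = En v S + ∫ z in S, 4 * e * |v z| := by
    unfold En
    rw [integral_add i3 i5]
  have h4 : ∫ z in S, 4 * e * |v z| ≤ ∫ z, 4 * e * |v z| :=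
    setIntegral_le_integral (i4.const_mul _)
      (Filter.Eventually.of_forall (fun z => by positivity))
  have h5 : ∫ z, 4 * e * |v z| = 4 * e * ∫ z, |v z| := integral_const_mul _ _
  rw [h1]
  linarith

end Pool.Agent.W_1ab439_h81

end E3

section E4

/-!
E4 (task P3 E4; uses E1, E2, Basic).  Continuity of the piece energies along the circle.

Proof.  `den (pc e (rot a b s)) z = th' e (r)^2 * ((cos s * dx a z + sin s * dx b z)^2 + (cos s * dy a z + sin s * dy b z)^2) - th e (r)^2`,
`r = cos s * a z + sin s * b z` (dx_pc, dy_pc, dx_rot, dy_rot).  For fixed `z` this is continuous in `s`; it is bounded in absolute value by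
`(|dx a z| + |dx b z|)^2 + (|dy a z| + |dy b z|)^2 + (|a z| + |b z|)^2` (th'_nonneg, th'_le_one, th_nonneg, th_le), which is continuous with compact
support, hence integrable.  `MeasureTheory.continuous_of_dominated` for the measure `volume.restrict S`.
`En_rot_cont`: same with `den (rot a b s)` (no truncation), or expand the square.
-/

set_option autoImplicit false

open MeasureTheory Set

namespace Pool.Agent.W_1ab439_h81

private theorem e4_cpt {u v : ℝ × ℝ → ℝ} (hu : HasCompactSupport u) (hv : HasCompactSupport v) :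
    HasCompactSupport (fun z => (|u z| + |v z|) ^ 2) := by
  have h1 : HasCompactSupport (fun z => |u z|) := hu.comp_left (g := fun x : ℝ => |x|) abs_zero
  have h2 : HasCompactSupport (fun z => |v z|) := hv.comp_left (g := fun x : ℝ => |x|) abs_zero
  exact (h1.add h2).comp_left (g := fun x : ℝ => x ^ 2) (by simp)

private noncomputable def e4_B (a b : ℝ × ℝ → ℝ) (z : ℝ × ℝ) : ℝ :=
  (|dx a z| + |dx b z|) ^ 2 + (|dy a z| + |dy b z|) ^ 2 + (|a z| + |b z|) ^ 2

private theorem e4_B_int {a b : ℝ × ℝ → ℝ} (ha : CC a) (hb : CC b) : Integrable (e4_B a b) := by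
  refine Continuous.integrable_of_hasCompactSupport ?_ ?_
  · have := ha.dx_cont
    have := ha.dy_cont
    have := hb.dx_cont
    have := hb.dy_cont
    have := ha.cont
    have := hb.cont
    unfold e4_B
    fun_prop
  · exact ((e4_cpt ha.dx_cpt hb.dx_cpt).add (e4_cpt ha.dy_cpt hb.dy_cpt)).add (e4_cpt ha.2 hb.2)

private theorem e4_abs (s u v : ℝ) : |Real.cos s * u + Real.sin s * v| ≤ |u| + |v| := by
  refine (abs_add_le _ _).trans ?_
  rw [abs_mul, abs_mul]
  have h1 := mul_le_mul_of_nonneg_right (Real.abs_cos_le_one s) (abs_nonneg u)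
  have h2 := mul_le_mul_of_nonneg_right (Real.abs_sin_le_one s) (abs_nonneg v)
  linarith

private theorem e4_sq (s u v : ℝ) : (Real.cos s * u + Real.sin s * v) ^ 2 ≤ (|u| + |v|) ^ 2 := by
  rw [← sq_abs (Real.cos s * u + Real.sin s * v)]
  exact pow_le_pow_left₀ (abs_nonneg _) (e4_abs s u v) 2

private theorem e4_den {t q X Y r A B C : ℝ} (ht : 0 ≤ t) (ht1 : t ≤ 1) (hq : 0 ≤ q) (hqr : q ≤ |r|)
    (hX : X ^ 2 ≤ A) (hY : Y ^ 2 ≤ B) (hr : r ^ 2 ≤ C) :
    |(t * X) ^ 2 + (t * Y) ^ 2 - q ^ 2| ≤ A + B + C := by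
  have ht2 : t ^ 2 ≤ 1 := by nlinarith
  have h1 : (t * X) ^ 2 ≤ A := by
    rw [mul_pow]
    nlinarith [sq_nonneg X]
  have h2 : (t * Y) ^ 2 ≤ B := by
    rw [mul_pow]
    nlinarith [sq_nonneg Y]
  have h3 : q ^ 2 ≤ C := by
    have : q ^ 2 ≤ |r| ^ 2 := pow_le_pow_left₀ hq hqr 2
    rw [sq_abs] at this
    linarith
  have h4 := sq_nonneg (t * X)
  have h5 := sq_nonneg (t * Y)
  have h6 := sq_nonneg q
  rw [abs_le]
  constructor <;> linarith

theorem En_pc_rot_cont {a b : ℝ × ℝ → ℝ} (ha : CC a) (hb : CC b) {e : ℝ} (he : 0 < e)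
    (S : Set (ℝ × ℝ)) : Continuous (fun s => En (pc e (rot a b s)) S) := by
  unfold En
  refine continuous_of_dominated (bound := e4_B a b) ?_ ?_ ?_ ?_
  · intro s
    exact ((ha.rot hb s).pc he).den_cont.aestronglyMeasurable
  · intro s
    refine Filter.Eventually.of_forall fun z => ?_
    rw [Real.norm_eq_abs]
    unfold den
    rw [dx_pc (ha.rot hb s) he, dy_pc (ha.rot hb s) he, dx_rot ha hb, dy_rot ha hb]
    exact e4_den (th'_nonneg e _) (th'_le_one he _) (th_nonneg he _) (th_le he _)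
      (e4_sq s _ _) (e4_sq s _ _) (e4_sq s (a z) (b z))
  · exact (e4_B_int ha hb).integrableOn
  · refine Filter.Eventually.of_forall fun z => ?_
    have h1 : (fun s => den (pc e (rot a b s)) z) = fun s =>
        (th' e (Real.cos s * a z + Real.sin s * b z) *
          (Real.cos s * dx a z + Real.sin s * dx b z)) ^ 2 +
        (th' e (Real.cos s * a z + Real.sin s * b z) *
          (Real.cos s * dy a z + Real.sin s * dy b z)) ^ 2 -
        th e (Real.cos s * a z + Real.sin s * b z) ^ 2 := by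
      funext s
      unfold den
      rw [dx_pc (ha.rot hb s) he, dy_pc (ha.rot hb s) he, dx_rot ha hb, dy_rot ha hb]
      rfl
    rw [h1]
    have h2 := continuous_th' he
    have h3 := (contDiff_th he).continuous
    have h4 : Continuous (fun s => Real.cos s * a z + Real.sin s * b z) := by fun_prop
    have h5 := h2.comp h4
    have h6 := h3.comp h4
    have h7 : Continuous (fun s => Real.cos s * dx a z + Real.sin s * dx b z) := by fun_prop
    have h8 : Continuous (fun s => Real.cos s * dy a z + Real.sin s * dy b z) := by fun_prop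
    exact (((h5.mul h7).pow 2).add ((h5.mul h8).pow 2)).sub (h6.pow 2)

theorem En_rot_cont {a b : ℝ × ℝ → ℝ} (ha : CC a) (hb : CC b) (S : Set (ℝ × ℝ)) :
    Continuous (fun s => En (rot a b s) S) := by
  unfold En
  refine continuous_of_dominated (bound := e4_B a b) ?_ ?_ ?_ ?_
  · intro s
    exact (ha.rot hb s).den_cont.aestronglyMeasurable
  · intro s
    refine Filter.Eventually.of_forall fun z => ?_
    rw [Real.norm_eq_abs]
    unfold den
    rw [dx_rot ha hb, dy_rot ha hb]
    have h := e4_den (t := 1) (q := |rot a b s z|) (r := rot a b s z) zero_le_one le_rfl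
      (abs_nonneg _) le_rfl (e4_sq s (dx a z) (dx b z)) (e4_sq s (dy a z) (dy b z))
      (e4_sq s (a z) (b z))
    rw [one_mul, one_mul, sq_abs] at h
    exact h
  · exact (e4_B_int ha hb).integrableOn
  · refine Filter.Eventually.of_forall fun z => ?_
    have h1 : (fun s => den (rot a b s) z) = fun s =>
        (Real.cos s * dx a z + Real.sin s * dx b z) ^ 2 +
        (Real.cos s * dy a z + Real.sin s * dy b z) ^ 2 -
        (Real.cos s * a z + Real.sin s * b z) ^ 2 := by
      funext s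
      unfold den
      rw [dx_rot ha hb, dy_rot ha hb]
      rfl
    rw [h1]
    fun_prop

end Pool.Agent.W_1ab439_h81

end E4

section E5

/-!
E5 (task P3 E5; uses E3, E4, Basic).  The Circle Lemma.

Proof.  `s ↦ En (rot a b s) S` is continuous (E4) and negative, hence `≤ -d < 0` on `[0, 2π]` for some `d > 0` (compactness), hence for all `s`
(periodicity of cos, sin).  Let `M = ∫ |a| + ∫ |b|`, so `∫ |rot a b s| ≤ M`, and `e = d / (4 M + 4) > 0`... so `4 e M < d`.
By E3, `En (pc e (rot a b s)) S + En (pc e (-(rot a b s))) S ≤ -d + 4 e M < 0` for all `s`.  Let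
`D s = En (pc e (rot a b s)) S - En (pc e (rot a b (s + π))) S`, continuous, and `rot a b (s + π) = -(rot a b s)` (rot_add_pi), so
`D (s + π) = -D s`.  By the intermediate value theorem on `[0,π]` there is `s` with `D s = 0`.  The two numbers are equal with negative sum,
so both are negative.
-/

set_option autoImplicit false

open MeasureTheory Set Real

namespace Pool.Agent.W_1ab439_h81

theorem circle {a b : ℝ × ℝ → ℝ} (ha : CC a) (hb : CC b) (S : Set (ℝ × ℝ))
    (hE : ∀ s, En (rot a b s) S < 0) :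
    ∃ e : ℝ, 0 < e ∧ ∃ s, En (pc e (rot a b s)) S < 0 ∧
      En (pc e (fun z => -(rot a b s z))) S < 0 := by
  have hf := En_rot_cont ha hb S
  obtain ⟨s0, _, hs0⟩ := isCompact_Icc.exists_isMaxOn (nonempty_Icc.2 pi_pos.le)
    (hf.continuousOn (s := Icc 0 π))
  set d : ℝ := -(En (rot a b s0) S) with hd
  have hd0 : 0 < d := by
    have := hE s0
    rw [hd]
    linarith
  have hle : ∀ s ∈ Icc 0 π, En (rot a b s) S ≤ -d := by
    intro s hs
    have h : En (rot a b s) S ≤ En (rot a b s0) S := hs0 hs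
    rw [hd]
    linarith
  set M : ℝ := (∫ z, |a z|) + ∫ z, |b z| with hM
  have hM0 : 0 ≤ M :=
    add_nonneg (integral_nonneg fun z => abs_nonneg _) (integral_nonneg fun z => abs_nonneg _)
  have hint : ∀ s, ∫ z, |rot a b s z| ≤ M := by
    intro s
    rw [hM, ← integral_add ha.int.abs hb.int.abs]
    refine integral_mono (ha.rot hb s).int.abs (ha.int.abs.add hb.int.abs) fun z => ?_
    have h1 : |rot a b s z| ≤ |cos s * a z| + |sin s * b z| := abs_add_le _ _
    rw [abs_mul, abs_mul] at h1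
    have h2 := mul_le_mul_of_nonneg_right (abs_cos_le_one s) (abs_nonneg (a z))
    have h3 := mul_le_mul_of_nonneg_right (abs_sin_le_one s) (abs_nonneg (b z))
    show |rot a b s z| ≤ |a z| + |b z|
    linarith
  set e : ℝ := d / (4 * M + 4) with he
  have he0 : 0 < e := by positivity
  have heM : 4 * e * M < d := by
    rw [he]
    have h4 : 0 < 4 * M + 4 := by linarith
    have h5 : 4 * (d / (4 * M + 4)) * M = (4 * M * d) / (4 * M + 4) := by ring
    rw [h5, div_lt_iff₀ h4]
    nlinarith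
  have hsum : ∀ s ∈ Icc 0 π, En (pc e (rot a b s)) S +
      En (pc e (fun z => -(rot a b s z))) S < 0 := by
    intro s hs
    have h1 := En_pieces_le (ha.rot hb s) he0 S
    have h2 := hle s hs
    have h3 := mul_le_mul_of_nonneg_left (hint s) (show 0 ≤ 4 * e by positivity)
    linarith
  have hc := En_pc_rot_cont ha hb he0 S
  set D : ℝ → ℝ := fun s => En (pc e (rot a b s)) S - En (pc e (rot a b (s + π))) S with hD
  have hDc : Continuous D := hc.sub (hc.comp (continuous_id.add continuous_const))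
  have h2pi : rot a b (π + π) = rot a b 0 := by
    funext z
    simp only [rot, ← two_mul, cos_two_pi, sin_two_pi, cos_zero, sin_zero]
  have hDpi : D π = -D 0 := by
    simp only [hD, zero_add]
    rw [h2pi]
    ring
  have hmem : (0 : ℝ) ∈ uIcc (D 0) (D π) := by
    rw [hDpi, mem_uIcc]
    rcases le_total (D 0) 0 with h | h
    · left
      exact ⟨h, by linarith⟩
    · right
      exact ⟨by linarith, h⟩
  obtain ⟨s, hs, hs0⟩ := intermediate_value_uIcc hDc.continuousOn hmem
  rw [uIcc_of_le pi_pos.le] at hs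
  have h1 := hsum s hs
  have h2 : En (pc e (rot a b s)) S = En (pc e (fun z => -(rot a b s z))) S := by
    have h3 : En (pc e (rot a b s)) S - En (pc e (rot a b (s + π))) S = 0 := hs0
    rw [rot_add_pi] at h3
    linarith
  refine ⟨e, he0, s, ?_, ?_⟩
  · linarith
  · linarith

end Pool.Agent.W_1ab439_h81

end E5
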