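import Pool.Agent.W_1ab439_h81.Piece
import Pool.Agent.W_1ab439_h81.Trunc
import Pool.Agent.W_1ab439_h81.CutL

section G1

/-!
G1 (task P3 G1; uses D2, E2, E5, F5).  The strip.

Proof.  `cuts_le`: `ct e w z + ct e (-w) z ≤ 1` and both vanish where `w z = 0` (E2), in particular off Ω; so the sum of the integrals over a measurable `S` is
at most the volume of `Ω ∩ S` (finite, Ω is bounded).
`strip_y`: take `t` from F5 and on each side the circle lemma E5 (functions `rot (lin v p) (lin v q) s`, CC and zero off Ω).  This gives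
`w₁` on `up t` and `w₂` on `dn t` and four pieces `pc e (±w)` with cuts `ct e (±w)` (cut_pc) and negative energies.  D2 gives for the four numbers
`a_i` (integral of the cut over the side) and `m_i` (over the part of the side at distance less than 2 from the line)
`a_i ≥ 2.597 π`, and `a_i ≥ 4.21 π` or `4/5 m_i + 1/5 a_i ≥ 2.31 π`.  `∑ a_i ≤ vol Ω ≤ 12 π` (cuts_le with `S = up t`, `S = dn t`, disjoint).
If some `a_i ≥ 4.21 π`, then `∑ a_i ≥ 12.001 π`, contradiction.  So `4/5 ∑ m_i ≥ 9.24 π - 12 π / 5`, `∑ m_i ≥ 8.55 π`, and `∑ m_i` is at most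
the volume of `Ω ∩ (up (t-2) ∩ dn (t+2))` (cuts_le with `S = up t ∩ dn (t+2)` and `S = dn t ∩ up (t-2)`, disjoint subsets of the strip).
-/

set_option autoImplicit false

open MeasureTheory Set Real

namespace Pool.Agent.W_1ab439_h81

private theorem g1_disj {A B C : Set (ℝ × ℝ)} (hB : MeasurableSet B) (hd : Disjoint A B)
    (hA : A ⊆ C) (hBC : B ⊆ C) (hC : volume C ≠ ⊤) :
    (volume A).toReal + (volume B).toReal ≤ (volume C).toReal := by
  have h1 : volume A ≠ ⊤ := ne_top_of_le_ne_top hC (measure_mono hA)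
  have h2 : volume B ≠ ⊤ := ne_top_of_le_ne_top hC (measure_mono hBC)
  rw [← ENNReal.toReal_add h1 h2, ← measure_union hd hB]
  exact ENNReal.toReal_mono hC (measure_mono (union_subset hA hBC))

theorem cuts_le {Ω : Set (ℝ × ℝ)} (hΩ : IsOpen Ω) (hb : Bornology.IsBounded Ω) {w : ℝ × ℝ → ℝ}
    (hw : CC w) (hs : ∀ z, z ∉ Ω → w z = 0) {e : ℝ} (he : 0 < e) {S : Set (ℝ × ℝ)}
    (hS : MeasurableSet S) :
    (∫ z in S, ct e w z) + (∫ z in S, ct e (fun z => -w z) z) ≤ (volume (Ω ∩ S)).toReal := by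
  have h1 : Integrable (ct e w) := (cut_pc hw he).int
  have h2 : Integrable (ct e (fun z => -w z)) := (cut_pc hw.neg he).int
  rw [← integral_add h1.integrableOn h2.integrableOn]
  have h3 : (volume (Ω ∩ S)).toReal = ∫ z in S, Ω.indicator (1 : ℝ × ℝ → ℝ) z := by
    rw [integral_indicator_one hΩ.measurableSet, measureReal_def,
      Measure.restrict_apply hΩ.measurableSet]
  rw [h3]
  have h4 : Integrable (Ω.indicator (1 : ℝ × ℝ → ℝ)) := by
    rw [integrable_indicator_iff hΩ.measurableSet]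
    exact integrableOn_const (hb.measure_lt_top.ne)
  refine integral_mono (h1.integrableOn.add h2.integrableOn) h4.integrableOn fun z => ?_
  show ct e w z + ct e (fun z => -w z) z ≤ Ω.indicator (1 : ℝ × ℝ → ℝ) z
  by_cases hz : z ∈ Ω
  · rw [indicator_of_mem hz]
    exact ct_add_le he z
  · rw [indicator_of_notMem hz, ct_zero (hs z hz),
      ct_zero (v := fun z => -w z) (by simp [hs z hz]), add_zero]

theorem strip_y {Ω : Set (ℝ × ℝ)} (hΩ : IsOpen Ω) (hb : Bornology.IsBounded Ω)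
    (hvol : (volume Ω).toReal ≤ 12 * π) {v : Fin 3 → ℝ × ℝ → ℝ} (hv : ∀ i, CC (v i))
    (hs : ∀ i, ∀ z, z ∉ Ω → v i z = 0) (hE : ∀ c : Fin 3 → ℝ, c ≠ 0 → En (lin v c) univ < 0) :
    ∃ t : ℝ, 855 / 100 * π ≤ (volume (Ω ∩ (up (t - 2) ∩ dn (t + 2)))).toReal := by
  obtain ⟨t, ⟨p, q, h1⟩, ⟨p', q', h2⟩⟩ := cut_lemma hv hE
  obtain ⟨e, he, s, hs1, hs2⟩ := circle (CC.lin hv p) (CC.lin hv q) (up t) h1
  obtain ⟨e', he', s', hs1', hs2'⟩ := circle (CC.lin hv p') (CC.lin hv q') (dn t) h2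
  have hw : CC (rot (lin v p) (lin v q) s) := (CC.lin hv p).rot (CC.lin hv q) s
  have hw' : CC (rot (lin v p') (lin v q') s') := (CC.lin hv p').rot (CC.lin hv q') s'
  have hz : ∀ (p q : Fin 3 → ℝ) (s : ℝ), ∀ z, z ∉ Ω → rot (lin v p) (lin v q) s z = 0 := by
    intro p q s z hz
    simp only [rot, lin, hs _ z hz, mul_zero, Finset.sum_const_zero, add_zero]
  generalize hwd : rot (lin v p) (lin v q) s = w at hs1 hs2 hw
  generalize hwd' : rot (lin v p') (lin v q') s' = w' at hs1' hs2' hw'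
  have hzw : ∀ z, z ∉ Ω → w z = 0 := by
    rw [← hwd]; exact hz p q s
  have hzw' : ∀ z, z ∉ Ω → w' z = 0 := by
    rw [← hwd']; exact hz p' q' s'
  refine ⟨t, ?_⟩
  have mu := measurableSet_up
  have md := measurableSet_dn
  obtain ⟨a1, b1⟩ := piece_up (hw.pc he) (cut_pc hw he) t hs1
  obtain ⟨a2, b2⟩ := piece_up (hw.neg.pc he) (cut_pc hw.neg he) t hs2
  obtain ⟨a3, b3⟩ := piece_dn (hw'.pc he') (cut_pc hw' he') t hs1'
  obtain ⟨a4, b4⟩ := piece_dn (hw'.neg.pc he') (cut_pc hw'.neg he') t hs2'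
  have c1 := cuts_le hΩ hb hw hzw he (mu t)
  have c2 := cuts_le hΩ hb hw' hzw' he' (md t)
  have c3 := cuts_le hΩ hb hw hzw he ((mu t).inter (md (t + 2)))
  have c4 := cuts_le hΩ hb hw' hzw' he' ((md t).inter (mu (t - 2)))
  have hfin : volume Ω ≠ ⊤ := hb.measure_lt_top.ne
  have d1 : (volume (Ω ∩ up t)).toReal + (volume (Ω ∩ dn t)).toReal ≤ (volume Ω).toReal := by
    refine g1_disj (hΩ.measurableSet.inter (md t)) ?_ inter_subset_left inter_subset_left hfin
    rw [Set.disjoint_left]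
    rintro z ⟨_, hz1⟩ ⟨_, hz2⟩
    simp only [up, dn, mem_setOf_eq] at hz1 hz2
    linarith
  have d2 : (volume (Ω ∩ (up t ∩ dn (t + 2)))).toReal + (volume (Ω ∩ (dn t ∩ up (t - 2)))).toReal ≤
      (volume (Ω ∩ (up (t - 2) ∩ dn (t + 2)))).toReal := by
    refine g1_disj (hΩ.measurableSet.inter ((md t).inter (mu (t - 2)))) ?_ ?_ ?_
      (ne_top_of_le_ne_top hfin (measure_mono inter_subset_left))
    · rw [Set.disjoint_left]
      rintro z ⟨_, hz1, _⟩ ⟨_, hz2, _⟩
      simp only [up, dn, mem_setOf_eq] at hz1 hz2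
      linarith
    · rintro z ⟨h0, hz1, hz2⟩
      simp only [up, dn, mem_setOf_eq] at hz1 hz2
      refine ⟨h0, ?_, ?_⟩
      · simp only [up, mem_setOf_eq]; linarith
      · simp only [dn, mem_setOf_eq]; linarith
    · rintro z ⟨h0, hz1, hz2⟩
      simp only [up, dn, mem_setOf_eq] at hz1 hz2
      refine ⟨h0, ?_, ?_⟩
      · simp only [up, mem_setOf_eq]; linarith
      · simp only [dn, mem_setOf_eq]; linarith
  have hpi := pi_pos
  rcases b1 with b1 | b1
  · exfalso; linarith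
  rcases b2 with b2 | b2
  · exfalso; linarith
  rcases b3 with b3 | b3
  · exfalso; linarith
  rcases b4 with b4 | b4
  · exfalso; linarith
  linarith

end Pool.Agent.W_1ab439_h81

end G1

section G2

/-!
G2 (task P3 G2; uses G1 strip_y).  The same for the first coordinate, and the contradiction.

Proof.  `strip_x`: apply strip_y to `Ω' = {z | z.swap ∈ Ω}` and `v' i z = v i z.swap`.  `dx` and `dy` are exchanged
(`fderiv` of a composition with the continuous linear equivalence swap), the swap preserves the measure, so `En (lin v' c) univ = En (lin v c) univ`;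
`Ω'` is open and bounded with the same volume.
`vol_three`: if `vol Ω ≤ 12 π` take `t`, `t'` from strip_y and strip_x, `A = Ω ∩ (horizontal strip)`, `B = Ω ∩ (vertical strip)`:
`vol (A ∩ B) = vol A + vol B - vol (A ∪ B) ≥ 17.1 π - 12 π = 5.1 π > 16` (π > 3.14), but `A ∩ B` lies in an open square of side 4, of volume 16.
-/

set_option autoImplicit false

open MeasureTheory Set Real

namespace Pool.Agent.W_1ab439_h81

theorem g2_swap_fd (z : ℝ × ℝ) :
    HasFDerivAt (fun z : ℝ × ℝ => z.swap)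
      ((ContinuousLinearMap.snd ℝ ℝ ℝ).prod (ContinuousLinearMap.fst ℝ ℝ ℝ)) z :=
  hasFDerivAt_snd.prodMk hasFDerivAt_fst

theorem g2_cc {f : ℝ × ℝ → ℝ} (hf : CC f) : CC (fun z => f z.swap) := by
  refine ⟨hf.1.comp ?_, ?_⟩
  · have h : ContDiff ℝ 1 (fun z : ℝ × ℝ => (z.2, z.1)) := contDiff_snd.prodMk contDiff_fst
    exact h
  · exact hf.2.comp_homeomorph (Homeomorph.prodComm ℝ ℝ)

theorem g2_den {f : ℝ × ℝ → ℝ} (hf : CC f) (z : ℝ × ℝ) :
    den (fun z => f z.swap) z = den f z.swap := by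
  have h : HasFDerivAt (fun z : ℝ × ℝ => f z.swap)
      ((fderiv ℝ f z.swap).comp
        ((ContinuousLinearMap.snd ℝ ℝ ℝ).prod (ContinuousLinearMap.fst ℝ ℝ ℝ))) z :=
    (hf.diff z.swap).hasFDerivAt.comp z (g2_swap_fd z)
  have e : fderiv ℝ (fun z : ℝ × ℝ => f z.swap) z = _ := h.fderiv
  simp only [den, dx, dy, e]
  simp only [ContinuousLinearMap.coe_comp, Function.comp_apply, ContinuousLinearMap.prod_apply,
    ContinuousLinearMap.coe_fst', ContinuousLinearMap.coe_snd']
  ring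

theorem g2_mp : MeasurePreserving (fun z : ℝ × ℝ => z.swap) volume volume :=
  Measure.measurePreserving_swap

theorem g2_En {f : ℝ × ℝ → ℝ} (hf : CC f) : En (fun z => f z.swap) univ = En f univ := by
  simp only [En, Measure.restrict_univ]
  have h : den (fun z : ℝ × ℝ => f z.swap) = fun z => den f z.swap := by
    funext z
    exact g2_den hf z
  rw [h]
  have := g2_mp.integral_comp (Homeomorph.prodComm ℝ ℝ).measurableEmbedding (den f)
  exact this

theorem g2_vol (S : Set (ℝ × ℝ)) : volume {z : ℝ × ℝ | z.swap ∈ S} = volume S := by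
  have := g2_mp.measure_preimage_emb (Homeomorph.prodComm ℝ ℝ).measurableEmbedding S
  exact this

theorem strip_x {Ω : Set (ℝ × ℝ)} (hΩ : IsOpen Ω) (hb : Bornology.IsBounded Ω)
    (hvol : (volume Ω).toReal ≤ 12 * π) {v : Fin 3 → ℝ × ℝ → ℝ} (hv : ∀ i, CC (v i))
    (hs : ∀ i, ∀ z, z ∉ Ω → v i z = 0) (hE : ∀ c : Fin 3 → ℝ, c ≠ 0 → En (lin v c) univ < 0) :
    ∃ t : ℝ, 855 / 100 * π ≤ (volume (Ω ∩ {z : ℝ × ℝ | t - 2 < z.1 ∧ z.1 < t + 2})).toReal := by
  have hO : IsOpen {z : ℝ × ℝ | z.swap ∈ Ω} := hΩ.preimage continuous_swap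
  have hB : Bornology.IsBounded {z : ℝ × ℝ | z.swap ∈ Ω} := by
    obtain ⟨R, hR⟩ := hb.subset_closedBall 0
    refine (Metric.isBounded_closedBall (x := (0 : ℝ × ℝ)) (r := R)).subset ?_
    intro z hz
    have h := hR hz
    rw [mem_closedBall_zero_iff] at h ⊢
    rw [Prod.norm_def] at h ⊢
    rw [max_comm]
    exact h
  obtain ⟨t, ht⟩ := strip_y (Ω := {z : ℝ × ℝ | z.swap ∈ Ω}) hO hB (by rw [g2_vol]; exact hvol)
    (v := fun i z => v i z.swap) (fun i => g2_cc (hv i)) (fun i z hz => hs i _ hz)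
    (fun c hc => by
      have h1 : lin (fun i z => v i z.swap) c = fun z => lin v c z.swap := by
        funext z
        rfl
      rw [h1, g2_En (CC.lin hv c)]
      exact hE c hc)
  refine ⟨t, ?_⟩
  rw [← g2_vol]
  have h2 : {z : ℝ × ℝ | z.swap ∈ Ω ∩ {z : ℝ × ℝ | t - 2 < z.1 ∧ z.1 < t + 2}} =
      {z : ℝ × ℝ | z.swap ∈ Ω} ∩ (up (t - 2) ∩ dn (t + 2)) := by
    ext z
    simp [up, dn]
  rw [h2]
  exact ht

theorem vol_three {Ω : Set (ℝ × ℝ)} (hΩ : IsOpen Ω) (hb : Bornology.IsBounded Ω)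
    {v : Fin 3 → ℝ × ℝ → ℝ} (hv : ∀ i, CC (v i))
    (hs : ∀ i, ∀ z, z ∉ Ω → v i z = 0) (hE : ∀ c : Fin 3 → ℝ, c ≠ 0 → En (lin v c) univ < 0) :
    12 * π < (volume Ω).toReal := by
  by_contra hcon
  push Not at hcon
  obtain ⟨t, ht⟩ := strip_y hΩ hb hcon hv hs hE
  obtain ⟨r, hr⟩ := strip_x hΩ hb hcon hv hs hE
  have hfin : volume Ω ≠ ⊤ := hb.measure_lt_top.ne
  set A : Set (ℝ × ℝ) := Ω ∩ (up (t - 2) ∩ dn (t + 2)) with hA
  set B : Set (ℝ × ℝ) := Ω ∩ {z : ℝ × ℝ | r - 2 < z.1 ∧ z.1 < r + 2} with hB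
  have hBm : MeasurableSet B := by
    refine hΩ.measurableSet.inter ?_
    exact ((isOpen_lt continuous_const continuous_fst).inter
      (isOpen_lt continuous_fst continuous_const)).measurableSet
  have hAB : volume (A ∪ B) + volume (A ∩ B) = volume A + volume B :=
    measure_union_add_inter A hBm
  have hAf : volume A ≠ ⊤ := measure_ne_top_of_subset inter_subset_left hfin
  have hBf : volume B ≠ ⊤ := measure_ne_top_of_subset inter_subset_left hfin
  have hUf : volume (A ∪ B) ≠ ⊤ :=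
    measure_ne_top_of_subset (union_subset inter_subset_left inter_subset_left) hfin
  have hIf : volume (A ∩ B) ≠ ⊤ := measure_ne_top_of_subset inter_subset_left hAf
  have h1 : (volume (A ∪ B)).toReal + (volume (A ∩ B)).toReal =
      (volume A).toReal + (volume B).toReal := by
    rw [← ENNReal.toReal_add hUf hIf, hAB, ENNReal.toReal_add hAf hBf]
  have h2 : (volume (A ∪ B)).toReal ≤ (volume Ω).toReal :=
    ENNReal.toReal_mono hfin
      (measure_mono (union_subset inter_subset_left inter_subset_left))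
  have h3 : (volume (A ∩ B)).toReal ≤ 16 := by
    have hsub : A ∩ B ⊆ Ioo (r - 2) (r + 2) ×ˢ Ioo (t - 2) (t + 2) := by
      rintro z ⟨⟨_, hz1, hz2⟩, ⟨_, hz3, hz4⟩⟩
      exact ⟨⟨hz3, hz4⟩, ⟨hz1, hz2⟩⟩
    have hv16 : volume (Ioo (r - 2) (r + 2) ×ˢ Ioo (t - 2) (t + 2)) = ENNReal.ofReal 16 := by
      rw [Measure.volume_eq_prod, Measure.prod_prod, Real.volume_Ioo, Real.volume_Ioo,
        ← ENNReal.ofReal_mul (by linarith)]
      congr 1
      ring
    have h4 : volume (A ∩ B) ≤ ENNReal.ofReal 16 := (measure_mono hsub).trans hv16.le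
    calc (volume (A ∩ B)).toReal ≤ (ENNReal.ofReal 16).toReal :=
          ENNReal.toReal_mono ENNReal.ofReal_ne_top h4
      _ = 16 := ENNReal.toReal_ofReal (by norm_num)
  have hpi := Real.pi_gt_d2
  nlinarith

end Pool.Agent.W_1ab439_h81

end G2

section G3

/-!
G3 (task P3 G3; uses D2, E2, E3, E5, F1 En_split, F2, G1 cuts_le).  Dimensions one and two.

Proof.  `one_whole`: `g t = En f (up t)` is continuous (F2 up_cont for the integrable function `den f`), equal to `En f univ` for very negative `t` and to 0 for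
large `t` (F2 far), so some `t` has `g t = En f univ / 2 < 0`, and then `En f (dn t) = En f univ - g t < 0` (En_split).  piece_up and piece_dn (first
parts) give `∫ z in up t, χ ≥ 2.597 π`, `∫ z in dn t, χ ≥ 2.597 π`, and the sum of the two is `≤ ∫ χ`.
`vol_one`: take `e > 0` with `4 e ∫ |v| < -En v univ`; by E3 the energies of `pc e v`, `pc e (-v)` on univ have negative sum, so one is negative;
one_whole gives `5.194 π ≤ ∫ ct e (±v) ≤ vol Ω` (cuts_le with `S = univ`, both cuts nonnegative).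
`vol_two`: E5 with `S = univ`, one_whole twice, cuts_le with `S = univ`: `10.388 π ≤ vol Ω`.
-/

set_option autoImplicit false

open MeasureTheory Set Real

namespace Pool.Agent.W_1ab439_h81

theorem one_whole {f χ : ℝ × ℝ → ℝ} (hf : CC f) (hχ : Cut f χ) (hE : En f univ < 0) :
    5194 / 1000 * π ≤ ∫ z, χ z := by
  have hcont : Continuous (fun t => ∫ z in up t, den f z) := up_cont hf.den_int
  obtain ⟨B, hB1, -, hB3, -⟩ := far hf.den_cpt
  have hD : (∫ z, den f z) = En f univ := by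
    unfold En
    rw [setIntegral_univ]
  have hmem : En f univ / 2 ∈ range (fun t => ∫ z in up t, den f z) := by
    apply mem_range_of_exists_le_of_exists_ge hcont
    · refine ⟨-B, ?_⟩
      have h1 := hB3 (-B) le_rfl
      rw [h1, hD]
      linarith
    · refine ⟨B, ?_⟩
      have h1 := hB1 B le_rfl
      rw [h1]
      linarith
  obtain ⟨t, ht⟩ := hmem
  have ht' : En f (up t) = En f univ / 2 := ht
  have hsp := En_split hf t
  have h1 := (piece_up hf hχ t (by linarith)).1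
  have h2 := (piece_dn hf hχ t (by linarith)).1
  have hdis : Disjoint (up t) (dn t) := by
    rw [Set.disjoint_left]
    intro z hz hz'
    have a1 : t < z.2 := hz
    have a2 : z.2 < t := hz'
    linarith
  have h3 := setIntegral_union hdis (measurableSet_dn t) hχ.int.integrableOn hχ.int.integrableOn
  have h4 : (∫ z in up t ∪ dn t, χ z) ≤ ∫ z, χ z :=
    setIntegral_le_integral hχ.int (Filter.Eventually.of_forall hχ.nonneg)
  rw [h3] at h4
  linarith

theorem g3_nn {v : ℝ × ℝ → ℝ} (hv : CC v) {e : ℝ} (he : 0 < e) : 0 ≤ ∫ z, ct e v z :=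
  integral_nonneg (cut_pc hv he).nonneg

theorem g3_sum {Ω : Set (ℝ × ℝ)} (hΩ : IsOpen Ω) (hb : Bornology.IsBounded Ω) {w : ℝ × ℝ → ℝ}
    (hw : CC w) (hs : ∀ z, z ∉ Ω → w z = 0) {e : ℝ} (he : 0 < e) :
    (∫ z, ct e w z) + (∫ z, ct e (fun z => -w z) z) ≤ (volume Ω).toReal := by
  have h := cuts_le hΩ hb hw hs he MeasurableSet.univ
  rw [setIntegral_univ, setIntegral_univ, inter_univ] at h
  exact h

theorem vol_one {Ω : Set (ℝ × ℝ)} (hΩ : IsOpen Ω) (hb : Bornology.IsBounded Ω) {v : ℝ × ℝ → ℝ}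
    (hv : CC v) (hs : ∀ z, z ∉ Ω → v z = 0) (hE : En v univ < 0) :
    4 * π ≤ (volume Ω).toReal := by
  obtain ⟨M, hM⟩ : ∃ M, M = ∫ z, |v z| := ⟨_, rfl⟩
  have hM0 : 0 ≤ M := by
    rw [hM]
    exact integral_nonneg (fun z => abs_nonneg _)
  obtain ⟨e, he⟩ : ∃ e, e = -En v univ / (4 * M + 4) := ⟨_, rfl⟩
  have he0 : 0 < e := by
    rw [he]
    apply div_pos <;> linarith
  have he1 : e * (4 * M + 4) = -En v univ := by
    rw [he]
    field_simp
  have h1 := En_pieces_le hv he0 univ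
  rw [← hM] at h1
  have h2 := g3_sum hΩ hb hv hs he0
  have h3 := g3_nn hv he0
  have h4 := g3_nn hv.neg he0
  have hpi := pi_pos
  rcases lt_or_ge (En (pc e v) univ) 0 with h5 | h5
  · have h6 := one_whole (hv.pc he0) (cut_pc hv he0) h5
    linarith
  · have h5' : En (pc e (fun z => -v z)) univ < 0 := by nlinarith
    have h6 := one_whole (hv.neg.pc he0) (cut_pc hv.neg he0) h5'
    linarith

theorem vol_two {Ω : Set (ℝ × ℝ)} (hΩ : IsOpen Ω) (hb : Bornology.IsBounded Ω)
    {a b : ℝ × ℝ → ℝ} (ha : CC a) (hb' : CC b) (hsa : ∀ z, z ∉ Ω → a z = 0)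
    (hsb : ∀ z, z ∉ Ω → b z = 0) (hE : ∀ s, En (rot a b s) univ < 0) :
    8 * π ≤ (volume Ω).toReal := by
  obtain ⟨e, he, s, h1, h2⟩ := circle ha hb' univ hE
  have hw : CC (rot a b s) := ha.rot hb' s
  have hs : ∀ z, z ∉ Ω → rot a b s z = 0 := by
    intro z hz
    simp only [rot, hsa z hz, hsb z hz, mul_zero, add_zero]
  have h3 := g3_sum hΩ hb hw hs he
  have h4 := one_whole (hw.pc he) (cut_pc hw he) h1
  have h5 := one_whole (hw.neg.pc he) (cut_pc hw.neg he) h2
  have hpi := pi_pos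
  linarith

end Pool.Agent.W_1ab439_h81

end G3
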