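import Pool.Agent.W_1ab439_h81.Basic
import Pool.Agent.W_1ab439_h81.Strip

section H1

/-!
H1 (task P3 H1).  Transfer from `EuclideanSpace ℝ (Fin 2)` and general `lam > 0` to `ℝ × ℝ` and `lam = 1`.

Proof.  `L z = !₂[z.1 / √lam, z.2 / √lam]` is a linear homeomorphism of `ℝ × ℝ` onto the Euclidean plane (inverse `x ↦ (√lam x 0, √lam x 1)`); it multiplies
Lebesgue measure: `map L volume = lam • volume`, i.e. `∫ z, g (L z) = lam * ∫ x, g x` for every `g` and `vol (L⁻¹ Ω) = lam * vol Ω`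
(`EuclideanSpace.volume_preserving_measurableEquiv` (or `volume_preserving_symm_measurableEquiv_toLp`), `volume_preserving_finTwoArrow`, and the scaling
`Measure.integral_comp_smul`/`addHaar_smul` in dimension 2).  `tr lam u = u ∘ L`; chain rule `dx (tr lam u) z = fderiv u (L z) e_0 / √lam`, so
`dx^2 + dy^2 = ‖fderiv u (L z)‖^2 / lam` (the norm square of a functional on Euclidean space is the sum of the squares of its values on the
standard basis; `Pool.Agent.W_MP_1ab439_an.norm_sq_dual` in `Pool/Agent/W_MP_1ab439_an/Rho.lean` is such a lemma, copy it).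
So `En (tr lam u) univ = ∫ ‖fderiv u‖^2 - lam ∫ u^2`.
-/

set_option autoImplicit false

open MeasureTheory Set

namespace Pool.Agent.W_1ab439_h81

/-- `u` in the scaled coordinates -/
noncomputable def tr (lam : ℝ) (u : EuclideanSpace ℝ (Fin 2) → ℝ) (z : ℝ × ℝ) : ℝ :=
  u (!₂[z.1 / √lam, z.2 / √lam])

/-- `Ω` in the scaled coordinates -/
def trS (lam : ℝ) (Ω : Set (EuclideanSpace ℝ (Fin 2))) : Set (ℝ × ℝ) :=
  {z | !₂[z.1 / √lam, z.2 / √lam] ∈ Ω}

/-- the volume preserving identification of the two planes -/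
noncomputable def h1_M : (ℝ × ℝ) ≃ᵐ EuclideanSpace ℝ (Fin 2) :=
  (MeasurableEquiv.finTwoArrow (α := ℝ)).symm.trans (MeasurableEquiv.toLp 2 (Fin 2 → ℝ))

theorem h1_M_apply (z : ℝ × ℝ) : h1_M z = !₂[z.1, z.2] := by
  rfl

theorem h1_M_mp : MeasurePreserving h1_M volume volume :=
  (EuclideanSpace.volume_preserving_symm_measurableEquiv_toLp (Fin 2)).symm.comp
    (volume_preserving_finTwoArrow ℝ).symm

/-- the scaling map as a continuous linear equivalence -/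
noncomputable def h1_L {lam : ℝ} (hl : 0 < lam) : (ℝ × ℝ) ≃L[ℝ] EuclideanSpace ℝ (Fin 2) :=
  LinearEquiv.toContinuousLinearEquiv
    { toFun := fun z => !₂[z.1 / √lam, z.2 / √lam]
      invFun := fun x => (√lam * x 0, √lam * x 1)
      map_add' := by
        intro x y
        ext i
        fin_cases i <;> simp [add_div]
      map_smul' := by
        intro c x
        ext i
        fin_cases i <;> simp [mul_div_assoc]
      left_inv := by
        intro x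
        have h : √lam ≠ 0 := (Real.sqrt_pos.2 hl).ne'
        ext <;> simp <;> field_simp
      right_inv := by
        intro x
        have h : √lam ≠ 0 := (Real.sqrt_pos.2 hl).ne'
        ext i
        fin_cases i <;> simp <;> field_simp }

theorem h1_L_apply {lam : ℝ} (hl : 0 < lam) (z : ℝ × ℝ) :
    h1_L hl z = !₂[z.1 / √lam, z.2 / √lam] := rfl

theorem h1_tr_eq {lam : ℝ} (hl : 0 < lam) (u : EuclideanSpace ℝ (Fin 2) → ℝ) :
    tr lam u = u ∘ h1_L hl := rfl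

theorem h1_trS_eq {lam : ℝ} (hl : 0 < lam) (Ω : Set (EuclideanSpace ℝ (Fin 2))) :
    trS lam Ω = h1_L hl ⁻¹' Ω := rfl

theorem h1_L_M {lam : ℝ} (hl : 0 < lam) (z : ℝ × ℝ) :
    h1_L hl z = h1_M ((√lam)⁻¹ • z) := by
  rw [h1_L_apply, h1_M_apply]
  ext i
  fin_cases i <;> simp [div_eq_inv_mul]

theorem h1_integral {lam : ℝ} (hl : 0 < lam) (g : EuclideanSpace ℝ (Fin 2) → ℝ) :
    ∫ z, g (h1_L hl z) = lam * ∫ x, g x := by
  have h1 : (fun z => g (h1_L hl z)) = fun z : ℝ × ℝ => (g ∘ h1_M) ((√lam)⁻¹ • z) := by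
    funext z
    rw [h1_L_M]
    rfl
  have h2 : ∫ z, (g ∘ h1_M) z = ∫ x, g x := h1_M_mp.integral_comp' (f := h1_M) g
  rw [h1, Measure.integral_comp_smul volume (g ∘ h1_M) (√lam)⁻¹, h2]
  have h3 : Module.finrank ℝ (ℝ × ℝ) = 2 := by simp
  rw [h3]
  have h4 : |((√lam)⁻¹ ^ 2)⁻¹| = lam := by
    rw [inv_pow, inv_inv, Real.sq_sqrt hl.le, abs_of_pos hl]
  rw [h4, smul_eq_mul]

theorem h1_norm_sq_dual (L : EuclideanSpace ℝ (Fin 2) →L[ℝ] ℝ) :
    ‖L‖ ^ 2 = ∑ k, (L (EuclideanSpace.single k 1)) ^ 2 := by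
  have h1 : ‖L‖ = ‖(InnerProductSpace.toDual ℝ (EuclideanSpace ℝ (Fin 2))).symm L‖ := by simp
  rw [h1, EuclideanSpace.real_norm_sq_eq]
  refine Finset.sum_congr rfl fun k _ => ?_
  congr 1
  have h2 : inner ℝ ((InnerProductSpace.toDual ℝ (EuclideanSpace ℝ (Fin 2))).symm L)
      (EuclideanSpace.single k 1) =
      L (EuclideanSpace.single k 1) := InnerProductSpace.toDual_symm_apply
  rw [← h2, EuclideanSpace.inner_single_right]
  simp

theorem h1_L_e0 {lam : ℝ} (hl : 0 < lam) :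
    h1_L hl (1, 0) = (√lam)⁻¹ • EuclideanSpace.single (0 : Fin 2) (1 : ℝ) := by
  rw [h1_L_apply]
  ext i
  fin_cases i <;> simp

theorem h1_L_e1 {lam : ℝ} (hl : 0 < lam) :
    h1_L hl (0, 1) = (√lam)⁻¹ • EuclideanSpace.single (1 : Fin 2) (1 : ℝ) := by
  rw [h1_L_apply]
  ext i
  fin_cases i <;> simp

theorem h1_fderiv {lam : ℝ} (hl : 0 < lam) {u : EuclideanSpace ℝ (Fin 2) → ℝ}
    (hu : ContDiff ℝ 1 u) (z w : ℝ × ℝ) :
    fderiv ℝ (tr lam u) z w = fderiv ℝ u (h1_L hl z) (h1_L hl w) := by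
  have h1 : HasFDerivAt u (fderiv ℝ u (h1_L hl z)) (h1_L hl z) :=
    ((hu.differentiable one_ne_zero) _).hasFDerivAt
  have h2 : HasFDerivAt (h1_L hl) ((h1_L hl : (ℝ × ℝ) →L[ℝ] EuclideanSpace ℝ (Fin 2))) z :=
    (h1_L hl).hasFDerivAt
  have h3 := h1.comp z h2
  rw [h1_tr_eq hl, h3.fderiv]
  rfl

theorem h1_den {lam : ℝ} (hl : 0 < lam) {u : EuclideanSpace ℝ (Fin 2) → ℝ}
    (hu : ContDiff ℝ 1 u) (z : ℝ × ℝ) :
    den (tr lam u) z =
      lam⁻¹ * ‖fderiv ℝ u (h1_L hl z)‖ ^ 2 - u (h1_L hl z) ^ 2 := by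
  have h5 : (√lam)⁻¹ ^ 2 = lam⁻¹ := by rw [inv_pow, Real.sq_sqrt hl.le]
  rw [den, dx, dy, h1_fderiv hl hu, h1_fderiv hl hu, h1_L_e0, h1_L_e1, map_smul, map_smul,
    h1_norm_sq_dual, Fin.sum_univ_two, smul_eq_mul, smul_eq_mul, mul_pow, mul_pow, h5]
  have h6 : tr lam u z = u (h1_L hl z) := rfl
  rw [h6]
  ring

theorem tr_CC {lam : ℝ} (hl : 0 < lam) {u : EuclideanSpace ℝ (Fin 2) → ℝ}
    (hu : ContDiff ℝ 1 u) (hc : HasCompactSupport u) : CC (tr lam u) := by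
  rw [h1_tr_eq hl]
  exact ⟨hu.comp (h1_L hl).contDiff, hc.comp_homeomorph (h1_L hl).toHomeomorph⟩

theorem tr_En {lam : ℝ} (hl : 0 < lam) {u : EuclideanSpace ℝ (Fin 2) → ℝ}
    (hu : ContDiff ℝ 1 u) (hc : HasCompactSupport u) :
    En (tr lam u) univ = (∫ x, ‖fderiv ℝ u x‖ ^ 2) - lam * ∫ x, (u x) ^ 2 := by
  have hi1 : Integrable (fun x => ‖fderiv ℝ u x‖ ^ 2) := by
    refine (((hu.continuous_fderiv one_ne_zero).norm.pow 2)).integrable_of_hasCompactSupport ?_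
    have h := hc.fderiv (𝕜 := ℝ)
    refine h.mono ?_
    intro x hx
    simp only [Function.mem_support] at hx ⊢
    intro h0
    apply hx
    simp [h0]
  have hi2 : Integrable (fun x => (u x) ^ 2) := by
    refine (hu.continuous.pow 2).integrable_of_hasCompactSupport ?_
    refine hc.mono ?_
    intro x hx
    simp only [Function.mem_support] at hx ⊢
    intro h0
    apply hx
    simp [h0]
  have h1 : En (tr lam u) univ = ∫ z, (fun x => lam⁻¹ * ‖fderiv ℝ u x‖ ^ 2 - u x ^ 2) (h1_L hl z) := by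
    rw [En, setIntegral_univ]
    refine integral_congr_ae (Filter.Eventually.of_forall fun z => ?_)
    exact h1_den hl hu z
  rw [h1, h1_integral hl (fun x => lam⁻¹ * ‖fderiv ℝ u x‖ ^ 2 - u x ^ 2),
    integral_sub (hi1.const_mul _) hi2, integral_const_mul]
  field_simp

theorem trS_open {lam : ℝ} (hl : 0 < lam) {Ω : Set (EuclideanSpace ℝ (Fin 2))} (h : IsOpen Ω) :
    IsOpen (trS lam Ω) := by
  rw [h1_trS_eq hl]
  exact h.preimage (h1_L hl).continuous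

theorem trS_bdd {lam : ℝ} (hl : 0 < lam) {Ω : Set (EuclideanSpace ℝ (Fin 2))}
    (h : Bornology.IsBounded Ω) : Bornology.IsBounded (trS lam Ω) := by
  rw [h1_trS_eq hl]
  have h1 : h1_L hl ⁻¹' Ω = (h1_L hl).symm '' Ω := by
    ext z
    constructor
    · intro hz
      exact ⟨h1_L hl z, hz, by simp⟩
    · rintro ⟨x, hx, rfl⟩
      simpa using hx
  rw [h1]
  exact ((h1_L hl).symm.lipschitz).isBounded_image h

theorem trS_vol {lam : ℝ} (hl : 0 < lam) (Ω : Set (EuclideanSpace ℝ (Fin 2))) :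
    (volume (trS lam Ω)).toReal = lam * (volume Ω).toReal := by
  have h0 : ((√lam)⁻¹ : ℝ) ≠ 0 := inv_ne_zero (Real.sqrt_pos.2 hl).ne'
  have h1 : trS lam Ω = ((√lam)⁻¹ • ·) ⁻¹' (h1_M ⁻¹' Ω) := by
    rw [h1_trS_eq hl]
    ext z
    rw [mem_preimage, h1_L_M hl]
    rfl
  have h3 : Module.finrank ℝ (ℝ × ℝ) = 2 := by simp
  have h4 : |((√lam)⁻¹ ^ 2)⁻¹| = lam := by
    rw [inv_pow, inv_inv, Real.sq_sqrt hl.le, abs_of_pos hl]
  rw [h1, Measure.addHaar_preimage_smul volume h0, h3, h4, h1_M_mp.measure_preimage_equiv,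
    ENNReal.toReal_mul, ENNReal.toReal_ofReal hl.le]

end Pool.Agent.W_1ab439_h81

end H1

section H2

/-!
H2 (task P3 H2; uses G2 vol_three, G3 vol_one vol_two, H1).  The theorem.

Proof.  Put `Ω' = trS lam Ω` (open, bounded, volume `lam * vol Ω`).
`indep_three`: for linearly independent `u 0, u 1, u 2 ∈ V` put `v i = tr lam (u i)` (CC, zero off Ω' because `tsupport (u i) ⊆ Ω`);
`lin v c = tr lam (∑ c i • u i)` and `∑ c i • u i ∈ V` is nonzero for `c ≠ 0`, so `En (lin v c) univ < 0` (tr_En); vol_three.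
`indep_two`: same with rot and vol_two (`cos s • a + sin s • b ≠ 0`).  `ne_zero_one`: vol_one.
`polya_three`: if `lam * vol Ω ≤ 12 π` no three elements of `V` are linearly independent, hence (`rank_le` or
`exists_linearIndependent_...`; or: a basis of `V`, `Module.rank`, `Cardinal`) `V` is finite-dimensional with `finrank ≤ 2`.
If finrank = 0 the bound is `0 ≤ lam * vol / (4 π)`; if it is 1 use ne_zero_one; if 2, indep_two.
-/

set_option autoImplicit false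

open MeasureTheory Set Real

namespace Pool.Agent.W_1ab439_h81

variable {Ω : Set (EuclideanSpace ℝ (Fin 2))} {lam : ℝ}
  {V : Submodule ℝ (EuclideanSpace ℝ (Fin 2) → ℝ)}

theorem h2_CC (hl : 0 < lam)
    (hV : ∀ u ∈ V, ContDiff ℝ (⊤ : ℕ∞) u ∧ HasCompactSupport u ∧ tsupport u ⊆ Ω)
    {u : EuclideanSpace ℝ (Fin 2) → ℝ} (hu : u ∈ V) : CC (tr lam u) :=
  tr_CC hl ((hV u hu).1.of_le (by exact_mod_cast le_top)) (hV u hu).2.1

theorem h2_zero
    (hV : ∀ u ∈ V, ContDiff ℝ (⊤ : ℕ∞) u ∧ HasCompactSupport u ∧ tsupport u ⊆ Ω)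
    {u : EuclideanSpace ℝ (Fin 2) → ℝ} (hu : u ∈ V) (z : ℝ × ℝ) (hz : z ∉ trS lam Ω) :
    tr lam u z = 0 := by
  unfold tr
  apply image_eq_zero_of_notMem_tsupport
  intro h
  exact hz ((hV u hu).2.2 h)

theorem h2_En (hl : 0 < lam)
    (hV : ∀ u ∈ V, ContDiff ℝ (⊤ : ℕ∞) u ∧ HasCompactSupport u ∧ tsupport u ⊆ Ω)
    (hE : ∀ u ∈ V, u ≠ 0 → ∫ x, ‖fderiv ℝ u x‖ ^ 2 < lam * ∫ x, (u x) ^ 2)
    {u : EuclideanSpace ℝ (Fin 2) → ℝ} (hu : u ∈ V) (h0 : u ≠ 0) :
    En (tr lam u) univ < 0 := by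
  rw [tr_En hl ((hV u hu).1.of_le (by exact_mod_cast le_top)) (hV u hu).2.1]
  linarith [hE u hu h0]

theorem indep_three (ho : IsOpen Ω) (hb : Bornology.IsBounded Ω) (hl : 0 < lam)
    (hV : ∀ u ∈ V, ContDiff ℝ (⊤ : ℕ∞) u ∧ HasCompactSupport u ∧ tsupport u ⊆ Ω)
    (hE : ∀ u ∈ V, u ≠ 0 → ∫ x, ‖fderiv ℝ u x‖ ^ 2 < lam * ∫ x, (u x) ^ 2)
    (u : Fin 3 → EuclideanSpace ℝ (Fin 2) → ℝ) (hu : ∀ i, u i ∈ V)
    (hi : LinearIndependent ℝ u) : 12 * π < lam * (volume Ω).toReal := by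
  rw [← trS_vol hl Ω]
  refine vol_three (trS_open hl ho) (trS_bdd hl hb) (v := fun i => tr lam (u i))
    (fun i => h2_CC hl hV (hu i)) (fun i z hz => h2_zero hV (hu i) z hz) ?_
  intro c hc
  have h1 : lin (fun i => tr lam (u i)) c = tr lam (∑ i, c i • u i) := by
    funext z
    simp [lin, tr, Finset.sum_apply]
  rw [h1]
  refine h2_En hl hV hE (Submodule.sum_mem _ fun i _ => Submodule.smul_mem _ _ (hu i)) ?_
  intro h0
  apply hc
  funext i
  exact Fintype.linearIndependent_iff.1 hi c h0 i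

theorem indep_two (ho : IsOpen Ω) (hb : Bornology.IsBounded Ω) (hl : 0 < lam)
    (hV : ∀ u ∈ V, ContDiff ℝ (⊤ : ℕ∞) u ∧ HasCompactSupport u ∧ tsupport u ⊆ Ω)
    (hE : ∀ u ∈ V, u ≠ 0 → ∫ x, ‖fderiv ℝ u x‖ ^ 2 < lam * ∫ x, (u x) ^ 2)
    (u : Fin 2 → EuclideanSpace ℝ (Fin 2) → ℝ) (hu : ∀ i, u i ∈ V)
    (hi : LinearIndependent ℝ u) : 8 * π ≤ lam * (volume Ω).toReal := by
  rw [← trS_vol hl Ω]
  refine vol_two (trS_open hl ho) (trS_bdd hl hb) (h2_CC hl hV (hu 0)) (h2_CC hl hV (hu 1))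
    (fun z hz => h2_zero hV (hu 0) z hz) (fun z hz => h2_zero hV (hu 1) z hz) ?_
  intro s
  have h1 : rot (tr lam (u 0)) (tr lam (u 1)) s = tr lam (cos s • u 0 + sin s • u 1) := by
    funext z
    simp [rot, tr]
  rw [h1]
  refine h2_En hl hV hE
    (Submodule.add_mem _ (Submodule.smul_mem _ _ (hu 0)) (Submodule.smul_mem _ _ (hu 1))) ?_
  intro h0
  have h2 := Fintype.linearIndependent_iff.1 hi ![cos s, sin s] (by
    rw [Fin.sum_univ_two]
    simpa using h0)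
  have hc : cos s = 0 := by simpa using h2 0
  have hs : sin s = 0 := by simpa using h2 1
  have h3 := sin_sq_add_cos_sq s
  rw [hc, hs] at h3
  norm_num at h3

theorem ne_zero_one (ho : IsOpen Ω) (hb : Bornology.IsBounded Ω) (hl : 0 < lam)
    (hV : ∀ u ∈ V, ContDiff ℝ (⊤ : ℕ∞) u ∧ HasCompactSupport u ∧ tsupport u ⊆ Ω)
    (hE : ∀ u ∈ V, u ≠ 0 → ∫ x, ‖fderiv ℝ u x‖ ^ 2 < lam * ∫ x, (u x) ^ 2)
    {u : EuclideanSpace ℝ (Fin 2) → ℝ} (hu : u ∈ V) (h0 : u ≠ 0) :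
    4 * π ≤ lam * (volume Ω).toReal := by
  rw [← trS_vol hl Ω]
  exact vol_one (trS_open hl ho) (trS_bdd hl hb) (h2_CC hl hV hu)
    (fun z hz => h2_zero hV hu z hz) (h2_En hl hV hE hu h0)

theorem polya_three (ho : IsOpen Ω) (hb : Bornology.IsBounded Ω) (hl : 0 < lam)
    (hw : lam * (volume Ω).toReal ≤ 12 * π)
    (hV : ∀ u ∈ V, ContDiff ℝ (⊤ : ℕ∞) u ∧ HasCompactSupport u ∧ tsupport u ⊆ Ω)
    (hE : ∀ u ∈ V, u ≠ 0 → ∫ x, ‖fderiv ℝ u x‖ ^ 2 < lam * ∫ x, (u x) ^ 2) :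
    FiniteDimensional ℝ V ∧ Module.finrank ℝ V ≤ 2 ∧
      (Module.finrank ℝ V : ℝ) ≤ lam * (volume Ω).toReal / (4 * π) := by
  have hlift : ∀ {n : ℕ} (f : Fin n → V), LinearIndependent ℝ f →
      LinearIndependent ℝ (fun i => (f i : EuclideanSpace ℝ (Fin 2) → ℝ)) := by
    intro n f hf
    exact hf.map' V.subtype V.ker_subtype
  have hlt : Module.rank ℝ V < ((3 : ℕ) : Cardinal) := by
    by_contra hcon
    rw [not_lt] at hcon
    obtain ⟨f, hf⟩ := exists_linearIndependent_of_le_rank hcon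
    have h1 := indep_three ho hb hl hV hE _ (fun i => (f i).2) (hlift f hf)
    linarith
  have hfin : FiniteDimensional ℝ V :=
    Module.rank_lt_aleph0_iff.1 (hlt.trans (Cardinal.natCast_lt_aleph0))
  have h3 : Module.finrank ℝ V < 3 := by
    rw [← Module.finrank_eq_rank] at hlt
    exact_mod_cast hlt
  have hpi : 0 < 4 * π := by positivity
  refine ⟨hfin, by omega, ?_⟩
  rw [le_div_iff₀ hpi]
  rcases (by omega : Module.finrank ℝ V = 0 ∨ Module.finrank ℝ V = 1 ∨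
    Module.finrank ℝ V = 2) with h | h | h
  · rw [h]
    have : 0 ≤ lam * (volume Ω).toReal := by positivity
    simpa using this
  · rw [h]
    obtain ⟨f, hf⟩ := exists_linearIndependent_of_le_finrank (R := ℝ) (M := V) (n := 1) h.ge
    have h1 := ne_zero_one ho hb hl hV hE (f 0).2 (by
      intro h0
      exact hf.ne_zero 0 (Subtype.ext h0))
    push_cast
    linarith
  · rw [h]
    obtain ⟨f, hf⟩ := exists_linearIndependent_of_le_finrank (R := ℝ) (M := V) (n := 2) h.ge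
    have h1 := indep_two ho hb hl hV hE _ (fun i => (f i).2) (hlift f hf)
    push_cast
    linarith

end Pool.Agent.W_1ab439_h81

end H2
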