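import Pool.Agent.W_1ab439_h81.Basic
import Mathlib

section A1

/-!
A1 (task P3 A1).  Path Lemma, bound with the constant 2597/1000.

Proof.  `path_nonneg`: put `h = 0` in `hle`.  `path_K`: put `h = 1732/1000` in `hle`; `h ^ 2 < 3`, so
`(3 * h - h ^ 3) / 2 = h * (3 - h ^ 2) / 2 ≥ 0` and the first summand is nonnegative; `h ^ 3 / 2 =: k > 2597/1000`
(k = 2.59784...).  Hence `Y t ≥ k * S' t` on `[0,T]`, and `∫ a..b S' = S b - S a`
(`intervalIntegral.integral_eq_sub_of_hasDerivAt`, `S'` is continuous on `[a,b]`).  So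
`∫ a..b Y ≥ k * (S b - S a)`.  If `S b ≥ S a` this is `≥ 2597/1000 * (S b - S a)`; otherwise the left side of the claim is
negative and `∫ Y ≥ 0`.  `path_half`: put `h = 1`: `Y t ≥ √(1 - S t ^ 2) + S' t / 2 ≥ S' t / 2`.
-/

set_option autoImplicit false

open MeasureTheory Set

namespace Pool.Agent.W_1ab439_h81

theorem path_nonneg {T : ℝ} {S S' Y : ℝ → ℝ} (h : IsPath T S S' Y) {t : ℝ} (ht : t ∈ Icc 0 T) :
    0 ≤ Y t := by
  have h1 := h.hle t ht 0 le_rfl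
  simpa using h1

theorem a1_int {T : ℝ} {S S' Y : ℝ → ℝ} (h : IsPath T S S' Y) {a b c : ℝ} (ha : 0 ≤ a)
    (hab : a ≤ b) (hb : b ≤ T) (hc : ∀ t ∈ Icc 0 T, c * S' t ≤ Y t) :
    c * (S b - S a) ≤ ∫ t in a..b, Y t := by
  have hsub : Icc a b ⊆ Icc 0 T := Icc_subset_Icc ha hb
  have hu : uIcc a b = Icc a b := uIcc_of_le hab
  have hS' : IntervalIntegrable S' volume a b :=
    ContinuousOn.intervalIntegrable (by rw [hu]; exact h.hS'.mono hsub)
  have hY : IntervalIntegrable Y volume a b :=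
    ContinuousOn.intervalIntegrable (by rw [hu]; exact h.hY.mono hsub)
  have h1 : ∫ t in a..b, S' t = S b - S a :=
    intervalIntegral.integral_eq_sub_of_hasDerivAt
      (fun t ht => h.hS t (hsub (by rw [hu] at ht; exact ht))) hS'
  have h2 : ∫ t in a..b, c * S' t = c * (S b - S a) := by
    rw [intervalIntegral.integral_const_mul, h1]
  rw [← h2]
  exact intervalIntegral.integral_mono_on hab (hS'.const_mul c) hY
    (fun t ht => hc t (hsub ht))

theorem path_K {T : ℝ} {S S' Y : ℝ → ℝ} (h : IsPath T S S' Y) {a b : ℝ} (ha : 0 ≤ a)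
    (hab : a ≤ b) (hb : b ≤ T) :
    (2597 / 1000 : ℝ) * (S b - S a) ≤ ∫ t in a..b, Y t := by
  have h1 : ((1732 / 1000 : ℝ) ^ 3 / 2) * (S b - S a) ≤ ∫ t in a..b, Y t := by
    refine a1_int h ha hab hb (fun t ht => ?_)
    have h2 := h.hle t ht (1732 / 1000) (by norm_num)
    have h3 : (0 : ℝ) ≤ (3 * (1732 / 1000) - (1732 / 1000) ^ 3) / 2 * √(1 - S t ^ 2) :=
      mul_nonneg (by norm_num) (Real.sqrt_nonneg _)
    linarith
  have h0 : 0 ≤ ∫ t in a..b, Y t :=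
    intervalIntegral.integral_nonneg hab
      (fun t ht => path_nonneg h ⟨ha.trans ht.1, ht.2.trans hb⟩)
  rcases le_total (S a) (S b) with h4 | h4
  · refine le_trans (mul_le_mul_of_nonneg_right (by norm_num) (by linarith)) h1
  · have h5 : (2597 / 1000 : ℝ) * (S b - S a) ≤ 0 :=
      mul_nonpos_of_nonneg_of_nonpos (by norm_num) (by linarith)
    linarith

theorem path_half {T : ℝ} {S S' Y : ℝ → ℝ} (h : IsPath T S S' Y) {a b : ℝ} (ha : 0 ≤ a)
    (hab : a ≤ b) (hb : b ≤ T) :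
    (S b - S a) / 2 ≤ ∫ t in a..b, Y t := by
  have h1 : (1 / 2 : ℝ) * (S b - S a) ≤ ∫ t in a..b, Y t := by
    refine a1_int h ha hab hb (fun t ht => ?_)
    have h2 := h.hle t ht 1 (by norm_num)
    have h3 : (0 : ℝ) ≤ (3 * 1 - 1 ^ 3) / 2 * √(1 - S t ^ 2) :=
      mul_nonneg (by norm_num) (Real.sqrt_nonneg _)
    linarith
  linarith

end Pool.Agent.W_1ab439_h81

end A1

section A2

/-!
A2 (task P3 A2).  Path Lemma, bound with a certificate.

Proof.  For `t ∈ [a,b]` put `h = H (S t) ≥ 1 ≥ 0` in `hle`: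
`Y t ≥ (3 H - H ^ 3) / 2 * √(1 - S t ^ 2) + H ^ 3 / 2 * S' t ≥ nu + H (S t) ^ 3 / 2 * S' t` by `Cert.main`.
By the chain rule `G ∘ S` has derivative `H (S t) ^ 3 * S' t`, which is continuous on `[a,b]` (H continuous, S continuous because
differentiable, S' continuous).  Integrate.  `path_one` is the case `H = 1`, `G = id`
(first show that `Cert tau nu H G` implies `Cert tau nu (fun _ => 1) id`; all fields are trivial, `main` is `nu_le`).
-/

set_option autoImplicit false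

open MeasureTheory Set

namespace Pool.Agent.W_1ab439_h81

theorem path_cert {T : ℝ} {S S' Y : ℝ → ℝ} (h : IsPath T S S' Y) {tau nu : ℝ} {H G : ℝ → ℝ}
    (hc : Cert tau nu H G) {a b : ℝ} (ha : 0 ≤ a) (hab : a ≤ b) (hb : b ≤ T)
    (hS : ∀ t ∈ Icc a b, |S t| ≤ tau) :
    nu * (b - a) + (G (S b) - G (S a)) / 2 ≤ ∫ t in a..b, Y t := by
  have hsub : ∀ t ∈ Icc a b, t ∈ Icc 0 T := fun t ht => ⟨ha.trans ht.1, ht.2.trans hb⟩
  have hu : uIcc a b = Icc a b := uIcc_of_le hab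
  -- the comparison function and its primitive
  have hder : ∀ t ∈ uIcc a b, HasDerivAt (fun t => nu * t + G (S t) / 2)
      (nu + H (S t) ^ 3 / 2 * S' t) t := by
    intro t ht
    rw [hu] at ht
    have h1 := h.hS t (hsub t ht)
    have h2 := (hc.deriv (S t)).comp t h1
    have h3 := ((hasDerivAt_id t).const_mul nu).add (h2.div_const 2)
    refine h3.congr_deriv ?_
    ring
  have hScont : ContinuousOn S (Icc a b) := fun t ht =>
    (h.hS t (hsub t ht)).continuousAt.continuousWithinAt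
  have hS'cont : ContinuousOn S' (Icc a b) := h.hS'.mono hsub
  have hcont : ContinuousOn (fun t => nu + H (S t) ^ 3 / 2 * S' t) (Icc a b) := by
    have h1 : ContinuousOn (fun t => H (S t)) (Icc a b) :=
      hc.cont.comp_continuousOn hScont
    exact continuousOn_const.add (((h1.pow 3).div_const 2).mul hS'cont)
  have hint : IntervalIntegrable (fun t => nu + H (S t) ^ 3 / 2 * S' t) volume a b := by
    apply ContinuousOn.intervalIntegrable
    rw [hu]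
    exact hcont
  have hY : IntervalIntegrable Y volume a b := by
    apply ContinuousOn.intervalIntegrable
    rw [hu]
    exact h.hY.mono hsub
  have heq := intervalIntegral.integral_eq_sub_of_hasDerivAt hder hint
  have hle : ∫ t in a..b, (nu + H (S t) ^ 3 / 2 * S' t) ≤ ∫ t in a..b, Y t := by
    refine intervalIntegral.integral_mono_on hab hint hY ?_
    intro t ht
    have h1 := hc.main (S t) (hS t ht)
    have h2 := hc.one_le (S t) (hS t ht)
    have h3 := h.hle t (hsub t ht) (H (S t)) (by linarith)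
    linarith
  rw [heq] at hle
  linarith

theorem Cert.one {tau nu : ℝ} {H G : ℝ → ℝ} (hc : Cert tau nu H G) :
    Cert tau nu (fun _ => 1) (fun s => s) where
  tau0 := hc.tau0
  nu0 := hc.nu0
  nu_le := hc.nu_le
  one_le := fun _ _ => le_refl _
  cube_le := fun _ _ => by norm_num
  main := fun s hs => by
    have := hc.nu_le s hs
    linarith
  deriv := fun s => by
    have h1 : HasDerivAt (fun s : ℝ => s) 1 s := hasDerivAt_id s
    exact h1.congr_deriv (by norm_num)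
  odd := fun _ => rfl
  cont := continuous_const

theorem path_one {T : ℝ} {S S' Y : ℝ → ℝ} (h : IsPath T S S' Y) {tau nu : ℝ} {H G : ℝ → ℝ}
    (hc : Cert tau nu H G) {a b : ℝ} (ha : 0 ≤ a) (hab : a ≤ b) (hb : b ≤ T)
    (hS : ∀ t ∈ Icc a b, |S t| ≤ tau) :
    nu * (b - a) + (S b - S a) / 2 ≤ ∫ t in a..b, Y t :=
  path_cert h hc.one ha hab hb hS

end Pool.Agent.W_1ab439_h81

end A2

section A3

/-!
A3 (task P3 A3).  Properties of the primitive `G` of a certificate.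

Proof.  `G 0 = 0` by oddness.  On `[0,tau]` the function `G x - x` has derivative `H x ^ 3 - 1 ≥ 0` (`H ≥ 1`), so it is
monotone there (`monotoneOn_of_deriv_nonneg` or the mean value theorem), giving `mono` and, with `x = 0`, `ge`.
`5 * x - G x` has derivative `5 - H x ^ 3 ≥ 0`, giving `le5`.
-/

set_option autoImplicit false

open MeasureTheory Set

namespace Pool.Agent.W_1ab439_h81

variable {tau nu : ℝ} {H G : ℝ → ℝ}

theorem Cert.G0 (hc : Cert tau nu H G) : G 0 = 0 := by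
  have h := hc.odd 0
  rw [neg_zero] at h
  linarith

private theorem Cert.abs_le_tau {x : ℝ} (hx : 0 < x) (hy : x < tau) : |x| ≤ tau := by
  rw [abs_of_pos hx]
  exact hy.le

theorem Cert.mono (hc : Cert tau nu H G) {x y : ℝ} (hx : 0 ≤ x) (hxy : x ≤ y) (hy : y ≤ tau) :
    G x - x ≤ G y - y := by
  have hd : ∀ s, HasDerivAt (fun s => G s - s) (H s ^ 3 - 1) s := fun s =>
    (hc.deriv s).sub (hasDerivAt_id s)
  have hm : MonotoneOn (fun s => G s - s) (Icc 0 tau) := by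
    apply monotoneOn_of_deriv_nonneg (convex_Icc 0 tau)
    · exact fun s _ => (hd s).continuousAt.continuousWithinAt
    · exact fun s _ => (hd s).differentiableAt.differentiableWithinAt
    · intro s hs
      rw [interior_Icc] at hs
      rw [(hd s).deriv]
      have h1 := hc.one_le s (Cert.abs_le_tau hs.1 hs.2)
      have h2 : 1 ≤ H s ^ 3 := one_le_pow₀ h1
      linarith
  exact hm ⟨hx, hxy.trans hy⟩ ⟨hx.trans hxy, hy⟩ hxy

theorem Cert.ge (hc : Cert tau nu H G) {x : ℝ} (hx : 0 ≤ x) (hy : x ≤ tau) : x ≤ G x := by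
  have h := hc.mono le_rfl hx hy
  rw [hc.G0] at h
  linarith

theorem Cert.le5 (hc : Cert tau nu H G) {x : ℝ} (hx : 0 ≤ x) (hy : x ≤ tau) : G x ≤ 5 * x := by
  have hd : ∀ s, HasDerivAt (fun s => 5 * s - G s) (5 * 1 - H s ^ 3) s := fun s =>
    ((hasDerivAt_id s).const_mul 5).sub (hc.deriv s)
  have hm : MonotoneOn (fun s => 5 * s - G s) (Icc 0 tau) := by
    apply monotoneOn_of_deriv_nonneg (convex_Icc 0 tau)
    · exact fun s _ => (hd s).continuousAt.continuousWithinAt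
    · exact fun s _ => (hd s).differentiableAt.differentiableWithinAt
    · intro s hs
      rw [interior_Icc] at hs
      rw [(hd s).deriv]
      have h1 := hc.cube_le s (Cert.abs_le_tau hs.1 hs.2)
      linarith
  have h := hm ⟨le_rfl, hx.trans hy⟩ ⟨hx, hy⟩ hx
  simp only at h
  rw [hc.G0] at h
  linarith

end Pool.Agent.W_1ab439_h81

end A3

section A4

/-!
A4 (task P3 A4; uses A1, A2, A3).  Path Lemma with a certificate, maximum of `|S|` on `[0,2]` equal to `u ≤ tau`.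

Proof.  Write `m = ∫ 0..2 Y`, `A = ∫ 0..T Y = m + o`, `o = ∫ 2..T Y ≥ 2597/1000 * (1 - S 2)` (path_K, `S T = 1`), so
`o / 5 ≥ (1 - S 2) / 2` because `S 2 ≤ 1`.  Note `4/5 * m + 1/5 * A = m + o/5`.
Case `S t0 = u` (`u ≥ 0`).  Use path_cert on `[0,t0]` (G (S 0) = G 0 = 0) and path_one on `[t0,2]`:
`m ≥ nu * 2 + (G u - u)/2 + S 2 / 2`, so `m + o/5 ≥ 2 * nu + (G u - u)/2 + 1/2 ≥ 231/100`: right alternative.
Case `S t0 = -u`.  Use path_one on `[0,t0]` and path_cert on `[t0,2]` (`G (-u) = -G u`):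
`m ≥ 2 * nu - u/2 + (G (S 2) + G u)/2`.  If `S 2 ≥ 0` then `G (S 2) ≥ S 2` (Cert.ge) and again the right alternative.
If `S 2 = -r < 0`, `r ≤ u ≤ tau`: `G (S 2) = -G r ≥ -5 r` (Cert.le5) and
`A = m + o ≥ 2 * nu + (G u - u)/2 - 5/2 * r + 2597/1000 * (1 + r) ≥ 231/100 - 1/2 + 2597/1000 > 421/100`
(because 2597/1000 > 5/2): left alternative.
(`u = |S t0| ≥ 0`; interval additivity `intervalIntegral.integral_add_adjacent_intervals`, integrability from continuity of Y on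
`[0,T]`.)
-/

set_option autoImplicit false

open MeasureTheory Set

namespace Pool.Agent.W_1ab439_h81

theorem path_case {T : ℝ} {S S' Y : ℝ → ℝ} (h : IsPath T S S' Y) (hT : 2 ≤ T) {tau nu : ℝ}
    {H G : ℝ → ℝ} (hc : Cert tau nu H G) {u : ℝ} (hu : u ≤ tau)
    (hmax : ∀ t ∈ Icc (0 : ℝ) 2, |S t| ≤ u) {t0 : ℝ} (ht0 : t0 ∈ Icc (0 : ℝ) 2)
    (hS0 : |S t0| = u) (hb : (231 / 100 : ℝ) ≤ 2 * nu + 1 / 2 + (G u - u) / 2) :
    (421 / 100 : ℝ) ≤ (∫ t in (0 : ℝ)..T, Y t) ∨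
      (231 / 100 : ℝ) ≤ 4 / 5 * (∫ t in (0 : ℝ)..2, Y t) + 1 / 5 * ∫ t in (0 : ℝ)..T, Y t := by
  obtain ⟨ht0a, ht0b⟩ := ht0
  have hint : ∀ a b : ℝ, 0 ≤ a → a ≤ b → b ≤ T → IntervalIntegrable Y volume a b := by
    intro a b ha hab hb
    refine ContinuousOn.intervalIntegrable ?_
    rw [uIcc_of_le hab]
    exact h.hY.mono (Icc_subset_Icc ha hb)
  have hadd1 : (∫ t in (0 : ℝ)..t0, Y t) + (∫ t in t0..2, Y t) = ∫ t in (0 : ℝ)..2, Y t :=
    intervalIntegral.integral_add_adjacent_intervals (hint 0 t0 le_rfl ht0a (by linarith))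
      (hint t0 2 ht0a ht0b hT)
  have hadd2 : (∫ t in (0 : ℝ)..2, Y t) + (∫ t in (2 : ℝ)..T, Y t) = ∫ t in (0 : ℝ)..T, Y t :=
    intervalIntegral.integral_add_adjacent_intervals (hint 0 2 le_rfl (by norm_num) hT)
      (hint 2 T (by norm_num) hT le_rfl)
  have hK := path_K h (a := 2) (b := T) (by norm_num) hT le_rfl
  rw [h.ST] at hK
  have h2 : |S 2| ≤ 1 := h.Sle 2 ⟨by norm_num, hT⟩
  have h2u : |S 2| ≤ u := hmax 2 ⟨by norm_num, le_rfl⟩
  have hu0 : 0 ≤ u := by rw [← hS0]; exact abs_nonneg _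
  have hS2 := abs_le.1 h2
  have hS2u := abs_le.1 h2u
  have htau1 : ∀ t ∈ Icc (0 : ℝ) t0, |S t| ≤ tau := fun t ht =>
    (hmax t ⟨ht.1, ht.2.trans ht0b⟩).trans hu
  have htau2 : ∀ t ∈ Icc t0 (2 : ℝ), |S t| ≤ tau := fun t ht =>
    (hmax t ⟨ht0a.trans ht.1, ht.2⟩).trans hu
  have hG0 := hc.G0
  rcases (abs_eq hu0).1 hS0 with hcase | hcase
  · right
    have e1 := path_cert h hc (a := 0) (b := t0) le_rfl ht0a (by linarith) htau1
    have e2 := path_one h hc (a := t0) (b := 2) ht0a ht0b hT htau2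
    rw [h.S0, hcase, hG0] at e1
    rw [hcase] at e2
    linarith
  · have e1 := path_one h hc (a := 0) (b := t0) le_rfl ht0a (by linarith) htau1
    have e2 := path_cert h hc (a := t0) (b := 2) ht0a ht0b hT htau2
    rw [h.S0, hcase] at e1
    rw [hcase, hc.odd u] at e2
    rcases le_or_gt 0 (S 2) with hpos | hneg
    · right
      have e3 := hc.ge hpos (hS2u.2.trans hu)
      linarith
    · left
      have e3 := hc.le5 (x := -S 2) (by linarith) (by linarith [hS2u.1])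
      rw [hc.odd] at e3
      linarith

end Pool.Agent.W_1ab439_h81

end A4

section A5

/-!
A5 (task P3 A5; uses A1).  Path Lemma when `|S t0| ≥ 8635/10000` for some `t0 ∈ [0,2]`.

Proof.  Put `u = |S t0|`, `m = ∫ 0..2 Y`, `A = ∫ 0..T Y = m + o`, `o = ∫ 2..T Y ≥ 2597/1000 * (1 - S 2)`, so
`o/5 ≥ (1 - S 2)/2` (`S 2 ≤ 1`); `4/5 * m + 1/5 * A = m + o/5`.
If `S t0 = u`: path_K on `[0,t0]` and path_half on `[t0,2]` give `m ≥ 2597/1000 * u + (S 2 - u)/2`, so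
`m + o/5 ≥ 2097/1000 * u + 1/2 ≥ 2.3107 > 231/100`.
If `S t0 = -u`: path_K on `[t0,T]` gives `∫ t0..T Y ≥ 2597/1000 * (1 + u) ≥ 4.8 > 421/100`, and `∫ 0..t0 Y ≥ 0`.
-/

set_option autoImplicit false

open MeasureTheory Set

namespace Pool.Agent.W_1ab439_h81

theorem path_large {T : ℝ} {S S' Y : ℝ → ℝ} (h : IsPath T S S' Y) (hT : 2 ≤ T) {t0 : ℝ}
    (ht0 : t0 ∈ Icc (0 : ℝ) 2) (hS0 : (8635 / 10000 : ℝ) ≤ |S t0|) :
    (421 / 100 : ℝ) ≤ (∫ t in (0 : ℝ)..T, Y t) ∨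
      (231 / 100 : ℝ) ≤ 4 / 5 * (∫ t in (0 : ℝ)..2, Y t) + 1 / 5 * ∫ t in (0 : ℝ)..T, Y t := by
  obtain ⟨h0, h2⟩ := ht0
  have ii : ∀ a b : ℝ, 0 ≤ a → a ≤ b → b ≤ T → IntervalIntegrable Y volume a b := by
    intro a b ha hab hb
    apply ContinuousOn.intervalIntegrable
    rw [uIcc_of_le hab]
    exact h.hY.mono (Icc_subset_Icc ha hb)
  have hs2 : S 2 ≤ 1 := (le_abs_self _).trans (h.Sle 2 ⟨by norm_num, hT⟩)
  rcases le_abs.1 hS0 with hc | hc
  · right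
    have e1 := intervalIntegral.integral_add_adjacent_intervals
      (ii 0 t0 le_rfl h0 (h2.trans hT)) (ii t0 2 h0 h2 hT)
    have e2 := intervalIntegral.integral_add_adjacent_intervals
      (ii 0 2 le_rfl (by norm_num) hT) (ii 2 T (by norm_num) hT le_rfl)
    have k1 := path_K h le_rfl h0 (h2.trans hT)
    have k2 := path_half h h0 h2 hT
    have k3 := path_K h (a := 2) (b := T) (by norm_num) hT le_rfl
    rw [h.S0] at k1
    rw [h.ST] at k3
    rw [← e2, ← e1]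
    linarith
  · left
    have e1 := intervalIntegral.integral_add_adjacent_intervals
      (ii 0 t0 le_rfl h0 (h2.trans hT)) (ii t0 T h0 (h2.trans hT) le_rfl)
    have k1 : 0 ≤ ∫ t in (0 : ℝ)..t0, Y t := by
      apply intervalIntegral.integral_nonneg h0
      intro t ht
      exact path_nonneg h ⟨ht.1, ht.2.trans (h2.trans hT)⟩
    have k3 := path_K h (a := t0) (b := T) h0 (h2.trans hT) le_rfl
    rw [h.ST] at k3
    rw [← e1]
    linarith

end Pool.Agent.W_1ab439_h81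

end A5

section A6

/-!
A6 (task P3 A6).  The quartic certificates: `H s = 1 + ga * (1 - (s/tau)^4)`.

Proof.  `Gc` is the explicit primitive of `Hc ^ 3` (expand the cube: `1 + 3 d + 3 d^2 + d^3`, `d = ga (1 - (s/tau)^4)`); it is odd.
For `|s| ≤ tau` put `z = (s/tau)^2 ∈ [0,1]`, `d = ga * (1 - z^2) ∈ [0, ga]`, so `1 ≤ H ≤ 1 + ga ≤ 8/5` and `H^3 ≤ 4.096 ≤ 5`.
`nu_le`: `1 - s^2 ≥ 1 - tau^2 ≥ nu^2`.
`main`: `(3 H - H^3)/2 = 1 - 3/2 d^2 - 1/2 d^3 ≥ 1 - k d^2` with `k = 3/2 + ga/2` (as `d ≤ ga`), and `1 - k d^2 ≥ 1 - k ga^2 > 0`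
(`ga ≤ 3/5`).  Put `P = k * ga^2`, so `k d^2 = P (1-z)^2 (1+z)^2`.  The identity
`(1 - k d^2)^2 (1 - tau^2 z) - (1 - tau^2) = (1 - z) * (tau^2 - (1 - tau^2 z) (1-z) (1+z)^2 P (2 - P (1 - z^2)^2))`
(ring) and `hpoly` give `(1 - k d^2)^2 (1 - tau^2 z) ≥ 1 - tau^2 ≥ nu^2`; take square roots (`s^2 = tau^2 z`;
e.g. `Real.le_sqrt`/`abs_le_of_sq_le` after moving `1 - k d^2` inside).
-/

set_option autoImplicit false

open MeasureTheory Set

namespace Pool.Agent.W_1ab439_h81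

noncomputable def Hc (tau ga s : ℝ) : ℝ := 1 + ga * (1 - (s / tau) ^ 4)

noncomputable def Gc (tau ga s : ℝ) : ℝ :=
  s + 3 * ga * (s - s ^ 5 / (5 * tau ^ 4)) +
    3 * ga ^ 2 * (s - 2 * s ^ 5 / (5 * tau ^ 4) + s ^ 9 / (9 * tau ^ 8)) +
    ga ^ 3 * (s - 3 * s ^ 5 / (5 * tau ^ 4) + 3 * s ^ 9 / (9 * tau ^ 8) - s ^ 13 / (13 * tau ^ 12))

theorem a6_deriv {tau ga : ℝ} (h0 : 0 < tau) (s : ℝ) :
    HasDerivAt (Gc tau ga) (Hc tau ga s ^ 3) s := by
  have h1 : HasDerivAt (fun s : ℝ => s) 1 s := hasDerivAt_id s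
  have h5 : HasDerivAt (fun s : ℝ => s ^ 5) (5 * s ^ 4) s := by
    simpa using hasDerivAt_pow 5 s
  have h9 : HasDerivAt (fun s : ℝ => s ^ 9) (9 * s ^ 8) s := by
    simpa using hasDerivAt_pow 9 s
  have h13 : HasDerivAt (fun s : ℝ => s ^ 13) (13 * s ^ 12) s := by
    simpa using hasDerivAt_pow 13 s
  have e1 := (h1.sub (h5.div_const (5 * tau ^ 4))).const_mul (3 * ga)
  have e2 := ((h1.sub ((h5.const_mul 2).div_const (5 * tau ^ 4))).add
    (h9.div_const (9 * tau ^ 8))).const_mul (3 * ga ^ 2)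
  have e3 := (((h1.sub ((h5.const_mul 3).div_const (5 * tau ^ 4))).add
    ((h9.const_mul 3).div_const (9 * tau ^ 8))).sub
    (h13.div_const (13 * tau ^ 12))).const_mul (ga ^ 3)
  have e4 := ((h1.add e1).add e2).add e3
  have e5 : HasDerivAt (Gc tau ga) _ s := e4
  refine e5.congr_deriv ?_
  unfold Hc
  have : tau ≠ 0 := h0.ne'
  field_simp
  ring

theorem a6_sq {tau nu : ℝ} (hnu2 : nu ^ 2 ≤ 1 - tau ^ 2) {z P : ℝ}
    (hz1 : z ≤ 1)
    (hpoly : (1 - tau ^ 2 * z) * (1 - z) * (1 + z) ^ 2 * P * (2 - P * (1 - z ^ 2) ^ 2) ≤ tau ^ 2) :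
    nu ^ 2 ≤ (1 - P * (1 - z ^ 2) ^ 2) ^ 2 * (1 - tau ^ 2 * z) := by
  have h1 : (1 - P * (1 - z ^ 2) ^ 2) ^ 2 * (1 - tau ^ 2 * z) - (1 - tau ^ 2) =
      (1 - z) * (tau ^ 2 - (1 - tau ^ 2 * z) * (1 - z) * (1 + z) ^ 2 * P *
        (2 - P * (1 - z ^ 2) ^ 2)) := by ring
  have h2 := mul_nonneg (sub_nonneg.2 hz1) (sub_nonneg.2 hpoly)
  linarith

theorem cert_quartic {tau ga nu : ℝ} (h0 : 0 < tau) (h1 : tau < 1) (hga : 0 ≤ ga)
    (hga1 : ga ≤ 3 / 5) (hnu : 0 ≤ nu) (hnu2 : nu ^ 2 ≤ 1 - tau ^ 2)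
    (hpoly : ∀ z : ℝ, 0 ≤ z → z ≤ 1 →
      (1 - tau ^ 2 * z) * (1 - z) * (1 + z) ^ 2 * ((3 / 2 + ga / 2) * ga ^ 2) *
        (2 - (3 / 2 + ga / 2) * ga ^ 2 * (1 - z ^ 2) ^ 2) ≤ tau ^ 2) :
    Cert tau nu (Hc tau ga) (Gc tau ga) := by
  have hz : ∀ s : ℝ, |s| ≤ tau → 0 ≤ (s / tau) ^ 2 ∧ (s / tau) ^ 2 ≤ 1 ∧
      s ^ 2 = tau ^ 2 * (s / tau) ^ 2 := by
    intro s hs
    have h2 : s ^ 2 ≤ tau ^ 2 := by
      rw [← sq_abs s]
      exact pow_le_pow_left₀ (abs_nonneg s) hs 2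
    refine ⟨sq_nonneg _, ?_, ?_⟩
    · rw [div_pow, div_le_one (by positivity)]
      exact h2
    · field_simp
  have hd : ∀ s : ℝ, |s| ≤ tau → ∃ d, Hc tau ga s = 1 + d ∧
      d = ga * (1 - ((s / tau) ^ 2) ^ 2) ∧ 0 ≤ d ∧ d ≤ ga := by
    intro s hs
    obtain ⟨h2, h3, -⟩ := hz s hs
    have h4 : ((s / tau) ^ 2) ^ 2 ≤ 1 := pow_le_one₀ h2 h3
    have h5 : 0 ≤ ((s / tau) ^ 2) ^ 2 := sq_nonneg _
    refine ⟨ga * (1 - ((s / tau) ^ 2) ^ 2), ?_, rfl, ?_, ?_⟩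
    · unfold Hc
      ring
    · exact mul_nonneg hga (by linarith)
    · nlinarith
  have ht1 : tau ^ 2 ≤ 1 := pow_le_one₀ h0.le h1.le
  constructor
  · exact h0.le
  · exact hnu
  · intro s hs
    obtain ⟨h2, h3, h4⟩ := hz s hs
    apply Real.le_sqrt_of_sq_le
    rw [h4]
    nlinarith [sq_nonneg tau]
  · intro s hs
    obtain ⟨d, h2, -, h3, -⟩ := hd s hs
    linarith
  · intro s hs
    obtain ⟨d, h2, -, h3, h4⟩ := hd s hs
    rw [h2]
    have h5 : (1 + d) ^ 3 ≤ (8 / 5) ^ 3 := pow_le_pow_left₀ (by linarith) (by linarith) 3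
    norm_num at h5 ⊢
    linarith
  · intro s hs
    obtain ⟨d, h2, h2', h3, h4⟩ := hd s hs
    obtain ⟨h5, h6, h7⟩ := hz s hs
    have h8 := hpoly _ h5 h6
    have h9 := a6_sq hnu2 h6 h8
    have hk : (3 / 2 + ga / 2) * ga ^ 2 * (1 - ((s / tau) ^ 2) ^ 2) ^ 2 =
        (3 / 2 + ga / 2) * d ^ 2 := by
      rw [h2']
      ring
    rw [hk, ← h7] at h9
    have hd2 : d ^ 2 ≤ 9 / 25 := by nlinarith
    have hd0 : 0 ≤ d ^ 2 := sq_nonneg d
    have hpos : 0 ≤ 1 - (3 / 2 + ga / 2) * d ^ 2 := by nlinarith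
    have h10 : 1 - (3 / 2 + ga / 2) * d ^ 2 ≤ (3 * Hc tau ga s - Hc tau ga s ^ 3) / 2 := by
      rw [h2]
      have : d ^ 2 * d ≤ d ^ 2 * ga := mul_le_mul_of_nonneg_left h4 hd0
      nlinarith
    have hs0 : 0 ≤ 1 - s ^ 2 := by
      rw [h7]
      nlinarith [sq_nonneg tau]
    have h11 : nu ^ 2 ≤ ((1 - (3 / 2 + ga / 2) * d ^ 2) * √(1 - s ^ 2)) ^ 2 := by
      rw [mul_pow, Real.sq_sqrt hs0]
      exact h9
    have h12 := abs_le_of_sq_le_sq h11 (mul_nonneg hpos (Real.sqrt_nonneg _))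
    calc nu ≤ |nu| := le_abs_self nu
      _ ≤ (1 - (3 / 2 + ga / 2) * d ^ 2) * √(1 - s ^ 2) := h12
      _ ≤ _ := mul_le_mul_of_nonneg_right h10 (Real.sqrt_nonneg _)
  · exact a6_deriv h0
  · intro s
    unfold Gc
    ring
  · unfold Hc
    fun_prop

end Pool.Agent.W_1ab439_h81

end A6

section A7

/-!
A7 (task P3 A7, Mathlib only).  Three polynomial inequalities on `[0,1]` (degree 8), for
`(tau, ga) = (13/20, 71/200), (79/100, 91/200), (1727/2000, 103/200)`.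

The difference `tau^2 - lhs` has minimum 0.0199, 0.0198, 0.0206 on `[0,1]`, and all its Bernstein coefficients of degree 8
are positive (at least 0.0058, 0.0065, 0.0079).  So: write the difference as `∑ k ≤ 8, b_k * (8 choose k) * z^k * (1-z)^(8-k)` with the explicit
positive rationals `b_k` (ring identity), or subdivide `[0,1]`, or nlinarith.
-/

set_option autoImplicit false

namespace Pool.Agent.W_1ab439_h81

private theorem a7_nn {z : ℝ} (h0 : 0 ≤ z) (h1 : z ≤ 1) (k l : ℕ) : 0 ≤ z ^ k * (1 - z) ^ l :=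
  mul_nonneg (pow_nonneg h0 k) (pow_nonneg (by linarith) l)

theorem poly_one (z : ℝ) (h0 : 0 ≤ z) (h1 : z ≤ 1) :
    (1 - (13 / 20 : ℝ) ^ 2 * z) * (1 - z) * (1 + z) ^ 2 *
      ((3 / 2 + (71 / 200) / 2) * (71 / 200 : ℝ) ^ 2) *
        (2 - (3 / 2 + (71 / 200) / 2) * (71 / 200 : ℝ) ^ 2 * (1 - z ^ 2) ^ 2) ≤ (13 / 20) ^ 2 := by
  have e : (13 / 20 : ℝ) ^ 2 - (1 - (13 / 20 : ℝ) ^ 2 * z) * (1 - z) * (1 + z) ^ 2 *
      ((3 / 2 + (71 / 200 : ℝ) / 2) * (71 / 200 : ℝ) ^ 2) *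
        (2 - (3 / 2 + (71 / 200 : ℝ) / 2) * (71 / 200 : ℝ) ^ 2 * (1 - z ^ 2) ^ 2) =
      (11361028665121 / 256000000000000 : ℝ) * (z ^ 0 * (1 - z) ^ 8) +
      (13994729350030151 / 102400000000000000 : ℝ) * (z ^ 1 * (1 - z) ^ 7) +
      (2080636819788151 / 12800000000000000 : ℝ) * (z ^ 2 * (1 - z) ^ 6) +
      (9692867201122453 / 12800000000000000 : ℝ) * (z ^ 3 * (1 - z) ^ 5) +
      (9718212862667151 / 3200000000000000 : ℝ) * (z ^ 4 * (1 - z) ^ 4) +
      (35875259571642951 / 6400000000000000 : ℝ) * (z ^ 5 * (1 - z) ^ 3) +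
      (840839079 / 160000000 : ℝ) * (z ^ 6 * (1 - z) ^ 2) +
      (1922639959 / 800000000 : ℝ) * (z ^ 7 * (1 - z) ^ 1) +
      (169 / 400 : ℝ) * (z ^ 8 * (1 - z) ^ 0) := by ring
  linarith [mul_nonneg (by norm_num : (0 : ℝ) ≤ 11361028665121 / 256000000000000) (a7_nn h0 h1 0 8),
    mul_nonneg (by norm_num : (0 : ℝ) ≤ 13994729350030151 / 102400000000000000) (a7_nn h0 h1 1 7),
    mul_nonneg (by norm_num : (0 : ℝ) ≤ 2080636819788151 / 12800000000000000) (a7_nn h0 h1 2 6),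
    mul_nonneg (by norm_num : (0 : ℝ) ≤ 9692867201122453 / 12800000000000000) (a7_nn h0 h1 3 5),
    mul_nonneg (by norm_num : (0 : ℝ) ≤ 9718212862667151 / 3200000000000000) (a7_nn h0 h1 4 4),
    mul_nonneg (by norm_num : (0 : ℝ) ≤ 35875259571642951 / 6400000000000000) (a7_nn h0 h1 5 3),
    mul_nonneg (by norm_num : (0 : ℝ) ≤ 840839079 / 160000000) (a7_nn h0 h1 6 2),
    mul_nonneg (by norm_num : (0 : ℝ) ≤ 1922639959 / 800000000) (a7_nn h0 h1 7 1),
    mul_nonneg (by norm_num : (0 : ℝ) ≤ 169 / 400) (a7_nn h0 h1 8 0)]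

theorem poly_two (z : ℝ) (h0 : 0 ≤ z) (h1 : z ≤ 1) :
    (1 - (79 / 100 : ℝ) ^ 2 * z) * (1 - z) * (1 + z) ^ 2 *
      ((3 / 2 + (91 / 200) / 2) * (91 / 200 : ℝ) ^ 2) *
        (2 - (3 / 2 + (91 / 200) / 2) * (91 / 200 : ℝ) ^ 2 * (1 - z ^ 2) ^ 2) ≤ (79 / 100) ^ 2 := by
  have e : (79 / 100 : ℝ) ^ 2 - (1 - (79 / 100 : ℝ) ^ 2 * z) * (1 - z) * (1 + z) ^ 2 *
      ((3 / 2 + (91 / 200 : ℝ) / 2) * (91 / 200 : ℝ) ^ 2) *
        (2 - (3 / 2 + (91 / 200 : ℝ) / 2) * (91 / 200 : ℝ) ^ 2 * (1 - z ^ 2) ^ 2) =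
      (9403368953241 / 256000000000000 : ℝ) * (z ^ 0 * (1 - z) ^ 8) +
      (187042853754512919 / 2560000000000000000 : ℝ) * (z ^ 1 * (1 - z) ^ 7) +
      (57948726092462919 / 320000000000000000 : ℝ) * (z ^ 2 * (1 - z) ^ 6) +
      (554823564303338757 / 320000000000000000 : ℝ) * (z ^ 3 * (1 - z) ^ 5) +
      (489243742793437919 / 80000000000000000 : ℝ) * (z ^ 4 * (1 - z) ^ 4) +
      (1662358898045232919 / 160000000000000000 : ℝ) * (z ^ 5 * (1 - z) ^ 3) +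
      (36945217211 / 4000000000 : ℝ) * (z ^ 6 * (1 - z) ^ 2) +
      (78346359211 / 20000000000 : ℝ) * (z ^ 7 * (1 - z) ^ 1) +
      (6241 / 10000 : ℝ) * (z ^ 8 * (1 - z) ^ 0) := by ring
  linarith [mul_nonneg (by norm_num : (0 : ℝ) ≤ 9403368953241 / 256000000000000) (a7_nn h0 h1 0 8),
    mul_nonneg (by norm_num : (0 : ℝ) ≤ 187042853754512919 / 2560000000000000000) (a7_nn h0 h1 1 7),
    mul_nonneg (by norm_num : (0 : ℝ) ≤ 57948726092462919 / 320000000000000000) (a7_nn h0 h1 2 6),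
    mul_nonneg (by norm_num : (0 : ℝ) ≤ 554823564303338757 / 320000000000000000) (a7_nn h0 h1 3 5),
    mul_nonneg (by norm_num : (0 : ℝ) ≤ 489243742793437919 / 80000000000000000) (a7_nn h0 h1 4 4),
    mul_nonneg (by norm_num : (0 : ℝ) ≤ 1662358898045232919 / 160000000000000000) (a7_nn h0 h1 5 3),
    mul_nonneg (by norm_num : (0 : ℝ) ≤ 36945217211 / 4000000000) (a7_nn h0 h1 6 2),
    mul_nonneg (by norm_num : (0 : ℝ) ≤ 78346359211 / 20000000000) (a7_nn h0 h1 7 1),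
    mul_nonneg (by norm_num : (0 : ℝ) ≤ 6241 / 10000) (a7_nn h0 h1 8 0)]

theorem poly_three (z : ℝ) (h0 : 0 ≤ z) (h1 : z ≤ 1) :
    (1 - (1727 / 2000 : ℝ) ^ 2 * z) * (1 - z) * (1 + z) ^ 2 *
      ((3 / 2 + (103 / 200) / 2) * (103 / 200 : ℝ) ^ 2) *
        (2 - (3 / 2 + (103 / 200) / 2) * (103 / 200 : ℝ) ^ 2 * (1 - z ^ 2) ^ 2) ≤
          (1727 / 2000) ^ 2 := by
  have e : (1727 / 2000 : ℝ) ^ 2 - (1 - (1727 / 2000 : ℝ) ^ 2 * z) * (1 - z) * (1 + z) ^ 2 *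
      ((3 / 2 + (103 / 200 : ℝ) / 2) * (103 / 200 : ℝ) ^ 2) *
        (2 - (3 / 2 + (103 / 200 : ℝ) / 2) * (103 / 200 : ℝ) ^ 2 * (1 - z ^ 2) ^ 2) =
      (7845450348129 / 256000000000000 : ℝ) * (z ^ 0 * (1 - z) ^ 8) +
      (64820176445113161759 / 1024000000000000000000 : ℝ) * (z ^ 1 * (1 - z) ^ 7) +
      (51014817482533161759 / 128000000000000000000 : ℝ) * (z ^ 2 * (1 - z) ^ 6) +
      (364738965990483485277 / 128000000000000000000 : ℝ) * (z ^ 3 * (1 - z) ^ 5) +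
      (281035358759439161759 / 32000000000000000000 : ℝ) * (z ^ 4 * (1 - z) ^ 4) +
      (913390032464135161759 / 64000000000000000000 : ℝ) * (z ^ 5 * (1 - z) ^ 3) +
      (19849395263183 / 1600000000000 : ℝ) * (z ^ 6 * (1 - z) ^ 2) +
      (40132036063183 / 8000000000000 : ℝ) * (z ^ 7 * (1 - z) ^ 1) +
      (2982529 / 4000000 : ℝ) * (z ^ 8 * (1 - z) ^ 0) := by ring
  linarith [mul_nonneg (by norm_num : (0 : ℝ) ≤ 7845450348129 / 256000000000000) (a7_nn h0 h1 0 8),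
    mul_nonneg (by norm_num : (0 : ℝ) ≤ 64820176445113161759 / 1024000000000000000000) (a7_nn h0 h1 1 7),
    mul_nonneg (by norm_num : (0 : ℝ) ≤ 51014817482533161759 / 128000000000000000000) (a7_nn h0 h1 2 6),
    mul_nonneg (by norm_num : (0 : ℝ) ≤ 364738965990483485277 / 128000000000000000000) (a7_nn h0 h1 3 5),
    mul_nonneg (by norm_num : (0 : ℝ) ≤ 281035358759439161759 / 32000000000000000000) (a7_nn h0 h1 4 4),
    mul_nonneg (by norm_num : (0 : ℝ) ≤ 913390032464135161759 / 64000000000000000000) (a7_nn h0 h1 5 3),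
    mul_nonneg (by norm_num : (0 : ℝ) ≤ 19849395263183 / 1600000000000) (a7_nn h0 h1 6 2),
    mul_nonneg (by norm_num : (0 : ℝ) ≤ 40132036063183 / 8000000000000) (a7_nn h0 h1 7 1),
    mul_nonneg (by norm_num : (0 : ℝ) ≤ 2982529 / 4000000) (a7_nn h0 h1 8 0)]

end Pool.Agent.W_1ab439_h81

end A7

section A8

/-!
A8 (task P3 A8; uses A4 to A7).  The Path Lemma.

Proof.  First conjunct: path_K on `[0,T]`.  Second: if `T ≤ 2` then `min 2 T = T` and the right alternative is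
`A ≥ 2597/1000 ≥ 231/100`.  If `T > 2`: `min 2 T = 2`; `u = max |S|` on `[0,2]` is attained at `t0`
(`IsCompact.exists_isMaxOn`).  If `u ≥ 8635/10000` use path_large.  Otherwise path_case with
(0) `u ≤ 17/40`: `Cert (17/40) (905/1000) (fun _ => 1) (fun s => s)` directly (nu^2 = .819025 ≤ 1 - .180625), bound `2 * .905 + .5 = 2.31`;
(1) `17/40 ≤ u ≤ 13/20`: cert_quartic with ga = 71/200, nu = 7599/10000;
(2) `13/20 ≤ u ≤ 79/100`: ga = 91/200, nu = 6131/10000;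
(3) `79/100 ≤ u ≤ 1727/2000 = .8635`: ga = 103/200, nu = 5043/10000.
In (1)-(3) `G u - u ≥ G u0 - u0` for the left end `u0` (Cert.mono) and the numerical values of
`2 nu + 1/2 + (G u0 - u0)/2` are 2.3211, 2.3227, 2.3154.
-/

set_option autoImplicit false

open MeasureTheory Set

namespace Pool.Agent.W_1ab439_h81

private theorem a8_cert0 : Cert (17 / 40) (905 / 1000) (fun _ => 1) (fun s => s) := by
  have hs : ∀ s : ℝ, |s| ≤ 17 / 40 → (905 / 1000 : ℝ) ≤ √(1 - s ^ 2) := by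
    intro s hs
    apply Real.le_sqrt_of_sq_le
    have h1 : s ^ 2 ≤ (17 / 40) ^ 2 := by
      rw [← sq_abs]
      exact pow_le_pow_left₀ (abs_nonneg s) hs 2
    norm_num at h1 ⊢
    linarith
  refine ⟨by norm_num, by norm_num, hs, fun _ _ => le_rfl, fun _ _ => by norm_num, ?_, ?_,
    fun _ => rfl, continuous_const⟩
  · intro s h
    have := hs s h
    norm_num at this ⊢
    linarith
  · intro s
    have h1 : HasDerivAt (fun s : ℝ => s) 1 s := hasDerivAt_id' s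
    rw [one_pow]
    exact h1

private theorem a8_cert1 : Cert (13 / 20) (7599 / 10000) (Hc (13 / 20) (71 / 200))
    (Gc (13 / 20) (71 / 200)) :=
  cert_quartic (by norm_num) (by norm_num) (by norm_num) (by norm_num) (by norm_num)
    (by norm_num) (fun z h0 h1 => poly_one z h0 h1)

private theorem a8_cert2 : Cert (79 / 100) (6131 / 10000) (Hc (79 / 100) (91 / 200))
    (Gc (79 / 100) (91 / 200)) :=
  cert_quartic (by norm_num) (by norm_num) (by norm_num) (by norm_num) (by norm_num)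
    (by norm_num) (fun z h0 h1 => poly_two z h0 h1)

private theorem a8_cert3 : Cert (1727 / 2000) (5043 / 10000) (Hc (1727 / 2000) (103 / 200))
    (Gc (1727 / 2000) (103 / 200)) :=
  cert_quartic (by norm_num) (by norm_num) (by norm_num) (by norm_num) (by norm_num)
    (by norm_num) (fun z h0 h1 => poly_three z h0 h1)

theorem path_main {T : ℝ} {S S' Y : ℝ → ℝ} (h : IsPath T S S' Y) :
    (2597 / 1000 : ℝ) ≤ (∫ t in (0 : ℝ)..T, Y t) ∧
      ((421 / 100 : ℝ) ≤ (∫ t in (0 : ℝ)..T, Y t) ∨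
        (231 / 100 : ℝ) ≤ 4 / 5 * (∫ t in (0 : ℝ)..(min 2 T), Y t) +
          1 / 5 * ∫ t in (0 : ℝ)..T, Y t) := by
  have hK : (2597 / 1000 : ℝ) ≤ ∫ t in (0 : ℝ)..T, Y t := by
    have h1 := path_K h le_rfl h.hT.le le_rfl
    rw [h.ST, h.S0] at h1
    linarith
  refine ⟨hK, ?_⟩
  by_cases hT2 : T ≤ 2
  · right
    rw [min_eq_right hT2]
    linarith
  push Not at hT2
  rw [min_eq_left hT2.le]
  have hcont : ContinuousOn (fun t => |S t|) (Icc 0 2) := by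
    intro t ht
    exact ((h.hS t ⟨ht.1, ht.2.trans hT2.le⟩).continuousAt.abs).continuousWithinAt
  obtain ⟨t0, ht0, hmax⟩ := isCompact_Icc.exists_isMaxOn
    (nonempty_Icc.2 (by norm_num : (0 : ℝ) ≤ 2)) hcont
  have hm : ∀ t ∈ Icc (0 : ℝ) 2, |S t| ≤ |S t0| := fun t ht => hmax ht
  by_cases hl : (8635 / 10000 : ℝ) ≤ |S t0|
  · exact path_large h hT2.le ht0 hl
  push Not at hl
  rcases le_total (|S t0|) (17 / 40) with h0 | h0
  · exact path_case h hT2.le a8_cert0 h0 hm ht0 rfl (by norm_num)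
  rcases le_total (|S t0|) (13 / 20) with h1 | h1
  · refine path_case h hT2.le a8_cert1 h1 hm ht0 rfl ?_
    have hG := a8_cert1.mono (by norm_num : (0 : ℝ) ≤ 17 / 40) h0 h1
    have hv : (231 / 100 : ℝ) ≤ 2 * (7599 / 10000) + 1 / 2 +
        (Gc (13 / 20) (71 / 200) (17 / 40) - 17 / 40) / 2 := by
      unfold Gc
      norm_num
    linarith
  rcases le_total (|S t0|) (79 / 100) with h2 | h2
  · refine path_case h hT2.le a8_cert2 h2 hm ht0 rfl ?_
    have hG := a8_cert2.mono (by norm_num : (0 : ℝ) ≤ 13 / 20) h1 h2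
    have hv : (231 / 100 : ℝ) ≤ 2 * (6131 / 10000) + 1 / 2 +
        (Gc (79 / 100) (91 / 200) (13 / 20) - 13 / 20) / 2 := by
      unfold Gc
      norm_num
    linarith
  have h3 : |S t0| ≤ 1727 / 2000 := by linarith
  refine path_case h hT2.le a8_cert3 h3 hm ht0 rfl ?_
  have hG := a8_cert3.mono (by norm_num : (0 : ℝ) ≤ 79 / 100) h2 h3
  have hv : (231 / 100 : ℝ) ≤ 2 * (5043 / 10000) + 1 / 2 +
      (Gc (1727 / 2000) (103 / 200) (79 / 100) - 79 / 100) / 2 := by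
    unfold Gc
    norm_num
  linarith

end Pool.Agent.W_1ab439_h81

end A8
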