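import Pool.Agent.W_1ab439_h81.Path
import Pool.Agent.W_1ab439_h81.Angle
import Pool.Agent.W_1ab439_h81.Calib

section D1

/-!
D1 (task P3 D1; uses A8 path_main, B1, B2, B3, C3, C6).  The Piece Lemma for the upper half plane `up 0`.

Proof.  Choose `R ≥ 2` with `f z = 0` for `z.2 ≥ R` (compact support).  Let `δ > 0`, `X = sec χ δ` (continuous, `≥ δ`), `V = (π/X)^2`,
`0 ≤ V ≤ (π/δ)^2`.  B1 gives φ on `[0,R]`.  By B2 either `|φ| < π/2` on `[0,R]`, then `p = tan φ` satisfies the hypothesis of C6 (B2 riccati, `tan 0 = 0`)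
and `0 ≤ En f (up 0)`, contradiction; or there is `T ∈ (0,R]` and B3 gives a path with `Y = X/π`.  path_main gives, with
`A' = ∫ 0..T X/π ≤ (1/π) ∫ 0..R X ≤ (a + δ R)/π`, `a = ∫ up 0 χ`, and `m' = ∫ 0..(min 2 T) X/π ≤ (1/π) ∫ 0..2 X = (m + 2 δ)/π`,
`m = ∫ (up 0 ∩ dn 2) χ`:
`2597/1000 π ≤ a + δ R`, and `421/100 π ≤ a + δ R` or `231/100 π ≤ 4/5 (m + 2 δ) + 1/5 (a + δ R)`.
This holds for every `δ > 0` (R fixed).  If one of the two claims failed, a small `δ` would give a contradiction.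
-/

set_option autoImplicit false

open MeasureTheory Set Real

namespace Pool.Agent.W_1ab439_h81

theorem piece_delta {f χ : ℝ × ℝ → ℝ} (hf : CC f) (hχ : Cut f χ) (hE : En f (up 0) < 0)
    {δ R : ℝ} (hδ : 0 < δ) (hR : 2 ≤ R) (hz : ∀ z : ℝ × ℝ, R ≤ z.2 → f z = 0) :
    2597 / 1000 * π ≤ (∫ z in up 0, χ z) + δ * R ∧
      (421 / 100 * π ≤ (∫ z in up 0, χ z) + δ * R ∨
        231 / 100 * π ≤ 4 / 5 * ((∫ z in up 0 ∩ dn 2, χ z) + δ * 2) +
          1 / 5 * ((∫ z in up 0, χ z) + δ * R)) := by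
  have hpi := Real.pi_pos
  have hR0 : 0 < R := by linarith
  have hXc : Continuous (sec χ δ) := sec_cont hχ δ
  have hXge : ∀ t, δ ≤ sec χ δ t := fun t => sec_ge hχ δ t
  have hXpos : ∀ t, 0 < sec χ δ t := fun t => hδ.trans_le (hXge t)
  have hV : Continuous fun t => (π / sec χ δ t) ^ 2 :=
    (continuous_const.div hXc fun t => (hXpos t).ne').pow 2
  have hVM : ∀ t, (π / sec χ δ t) ^ 2 ≤ (π / δ) ^ 2 := by
    intro t
    have h1 : π / sec χ δ t ≤ π / δ := div_le_div_of_nonneg_left hpi.le hδ (hXge t)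
    exact pow_le_pow_left₀ (div_pos hpi (hXpos t)).le h1 2
  obtain ⟨φ, hφ0, hφ⟩ := pruefer hV (fun t => sq_nonneg _) hVM hR0
  have hint : ∀ a b : ℝ, IntervalIntegrable (sec χ δ) volume a b :=
    fun a b => hXc.intervalIntegrable a b
  rcases dichotomy hR0 hφ0 hφ with ⟨T, hT0, hTR, hTφ, hlt⟩ | hlt
  · have hpath := path_of_phi hXc hXpos hT0 hφ0 hTφ hlt
      (fun t ht => hφ t ⟨ht.1, ht.2.trans hTR⟩)
    obtain ⟨h1, h2⟩ := path_main hpath
    have hdiv : ∀ b : ℝ, ∫ t in (0 : ℝ)..b, sec χ δ t / π = (∫ t in (0 : ℝ)..b, sec χ δ t) / π :=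
      fun b => intervalIntegral.integral_div π _
    rw [hdiv] at h1
    rw [hdiv, hdiv] at h2
    have hA : ∫ t in (0 : ℝ)..T, sec χ δ t ≤ (∫ z in up 0, χ z) + δ * R := by
      have h3 := sec_int_le hχ δ hT0.le
      have h4 : δ * T ≤ δ * R := mul_le_mul_of_nonneg_left hTR hδ.le
      linarith
    have hm : ∫ t in (0 : ℝ)..(min 2 T), sec χ δ t ≤ (∫ z in up 0 ∩ dn 2, χ z) + δ * 2 := by
      have h3 := sec_int hχ δ (by norm_num : (0 : ℝ) ≤ 2)
      have h4 : (∫ t in (0 : ℝ)..(min 2 T), sec χ δ t) + ∫ t in (min 2 T)..2, sec χ δ t =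
          ∫ t in (0 : ℝ)..2, sec χ δ t :=
        intervalIntegral.integral_add_adjacent_intervals (hint _ _) (hint _ _)
      have h5 : 0 ≤ ∫ t in (min 2 T)..2, sec χ δ t :=
        intervalIntegral.integral_nonneg (min_le_left _ _) fun t _ => (hXpos t).le
      linarith
    have hA' : (∫ t in (0 : ℝ)..T, sec χ δ t) / π * π = ∫ t in (0 : ℝ)..T, sec χ δ t :=
      div_mul_cancel₀ _ hpi.ne'
    have hm' : (∫ t in (0 : ℝ)..(min 2 T), sec χ δ t) / π * π =
        ∫ t in (0 : ℝ)..(min 2 T), sec χ δ t := div_mul_cancel₀ _ hpi.ne'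
    refine ⟨?_, ?_⟩
    · have h3 := mul_le_mul_of_nonneg_right h1 hpi.le
      rw [hA'] at h3
      exact h3.trans hA
    · rcases h2 with h2 | h2
      · left
        have h3 := mul_le_mul_of_nonneg_right h2 hpi.le
        rw [hA'] at h3
        exact h3.trans hA
      · right
        have h3 := mul_le_mul_of_nonneg_right h2 hpi.le
        have h4 : (4 / 5 * ((∫ t in (0 : ℝ)..(min 2 T), sec χ δ t) / π) +
            1 / 5 * ((∫ t in (0 : ℝ)..T, sec χ δ t) / π)) * π =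
            4 / 5 * ((∫ t in (0 : ℝ)..(min 2 T), sec χ δ t) / π * π) +
            1 / 5 * ((∫ t in (0 : ℝ)..T, sec χ δ t) / π * π) := by ring
        rw [h4, hA', hm'] at h3
        linarith
  · exfalso
    have hr := riccati hφ hlt
    have := calib hf hχ hδ hR0 hz (p := fun t => tan (φ t)) (by simp [hφ0]) hr
    linarith

theorem d1_supp {f : ℝ × ℝ → ℝ} (hf : CC f) : ∃ R : ℝ, 2 ≤ R ∧ ∀ z : ℝ × ℝ, R ≤ z.2 → f z = 0 := by
  obtain ⟨C, hC⟩ := hf.2.isBounded.exists_norm_le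
  refine ⟨max 2 (C + 1), le_max_left _ _, ?_⟩
  intro z hz
  by_contra hne
  have h1 := hC z (subset_tsupport f hne)
  have h2 : |z.2| ≤ ‖z‖ := norm_snd_le z
  have h3 := le_abs_self z.2
  have h4 := le_max_right 2 (C + 1)
  linarith

theorem piece_zero {f χ : ℝ × ℝ → ℝ} (hf : CC f) (hχ : Cut f χ) (hE : En f (up 0) < 0) :
    2597 / 1000 * π ≤ (∫ z in up 0, χ z) ∧
      (421 / 100 * π ≤ (∫ z in up 0, χ z) ∨
        231 / 100 * π ≤ 4 / 5 * (∫ z in up 0 ∩ dn 2, χ z) + 1 / 5 * ∫ z in up 0, χ z) := by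
  obtain ⟨R, hR, hz⟩ := d1_supp hf
  have key := fun (δ : ℝ) (hδ : 0 < δ) => piece_delta hf hχ hE hδ hR hz
  generalize (∫ z in up 0, χ z) = a at key ⊢
  generalize (∫ z in up 0 ∩ dn 2, χ z) = m at key ⊢
  constructor
  · by_contra hc
    push Not at hc
    have hg : 0 < (2597 / 1000 * π - a) / (2 * R) := div_pos (by linarith) (by linarith)
    have h1 := (key _ hg).1
    have h2 : (2597 / 1000 * π - a) / (2 * R) * R = (2597 / 1000 * π - a) / 2 := by
      field_simp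
    rw [h2] at h1
    linarith
  · by_contra hc
    push Not at hc
    obtain ⟨hc1, hc2⟩ := hc
    obtain ⟨g, hg⟩ : ∃ g, g = min (421 / 100 * π - a) (231 / 100 * π - (4 / 5 * m + 1 / 5 * a)) :=
      ⟨_, rfl⟩
    have hg0 : 0 < g := by
      rw [hg]
      exact lt_min (by linarith) (by linarith)
    have hg1 : g ≤ 421 / 100 * π - a := by rw [hg]; exact min_le_left _ _
    have hg2 : g ≤ 231 / 100 * π - (4 / 5 * m + 1 / 5 * a) := by rw [hg]; exact min_le_right _ _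
    obtain ⟨δ, hδ⟩ : ∃ δ, δ = g / (2 * (R + 2)) := ⟨_, rfl⟩
    have hδ0 : 0 < δ := by
      rw [hδ]
      exact div_pos hg0 (by linarith)
    have h3 : δ * (R + 2) = g / 2 := by
      rw [hδ]
      field_simp
    have h4 : 0 < δ * R := mul_pos hδ0 (by linarith)
    rcases (key δ hδ0).2 with h5 | h5
    · linarith
    · linarith

end Pool.Agent.W_1ab439_h81

end D1

section D2

/-!
D2 (task P3 D2; uses D1 piece_zero).  The Piece Lemma above and below any horizontal line.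

Proof.  Translate: `f₁ z = f (z.1, z.2 + t)`, `χ₁ z = χ (z.1, z.2 + t)`: CC, Cut, `den f₁ z = den f (z.1, z.2 + t)`, and the map
`z ↦ (z.1, z.2 + t)` preserves the measure and carries `up 0` to `up t`, `up 0 ∩ dn 2` to `up t ∩ dn (t + 2)`.
Below the line: `f₂ z = f (z.1, t - z.2)`: `dy f₂ z = - dy f (z.1, t - z.2)`, the map `z ↦ (z.1, t - z.2)` preserves the measure
(`MeasurePreserving`, product of identity and `x ↦ t - x`), and carries `up 0` to `dn t`.
-/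

set_option autoImplicit false

open MeasureTheory Set Real

namespace Pool.Agent.W_1ab439_h81

/-- the translation `z ↦ (z.1, z.2 + t)` -/
private noncomputable def d2_up (t : ℝ) : ℝ × ℝ ≃ₜ ℝ × ℝ :=
  (Homeomorph.refl ℝ).prodCongr (Homeomorph.addRight t)

/-- the reflection `z ↦ (z.1, t - z.2)` -/
private noncomputable def d2_dn (t : ℝ) : ℝ × ℝ ≃ₜ ℝ × ℝ :=
  (Homeomorph.refl ℝ).prodCongr (Homeomorph.subLeft t)

private theorem d2_up_apply (t : ℝ) (z : ℝ × ℝ) : d2_up t z = (z.1, z.2 + t) := rfl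

private theorem d2_dn_apply (t : ℝ) (z : ℝ × ℝ) : d2_dn t z = (z.1, t - z.2) := rfl

private theorem d2_up_mp (t : ℝ) : MeasurePreserving (d2_up t) := by
  have h := (MeasurePreserving.id (volume : Measure ℝ)).prod
    (measurePreserving_add_right (volume : Measure ℝ) t)
  exact h

private theorem d2_dn_mp (t : ℝ) : MeasurePreserving (d2_dn t) := by
  have h := (MeasurePreserving.id (volume : Measure ℝ)).prod
    (Measure.measurePreserving_sub_left (volume : Measure ℝ) t)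
  exact h

private theorem d2_int (φ : ℝ × ℝ ≃ₜ ℝ × ℝ) (hφ : MeasurePreserving φ) (g : ℝ × ℝ → ℝ)
    (S S' : Set (ℝ × ℝ)) (hS : S = φ ⁻¹' S') : ∫ z in S, g (φ z) = ∫ z in S', g z := by
  rw [hS]
  exact hφ.setIntegral_preimage_emb φ.measurableEmbedding g S'

private theorem d2_cut {f χ : ℝ × ℝ → ℝ} (hχ : Cut f χ) (φ : ℝ × ℝ ≃ₜ ℝ × ℝ) :
    Cut (fun z => f (φ z)) (fun z => χ (φ z)) :=
  ⟨hχ.cont.comp φ.continuous, hχ.cpt.comp_homeomorph φ, fun _ => hχ.nonneg _, fun _ => hχ.le_one _,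
    fun _ h => hχ.one _ h⟩

private theorem d2_up_fd (t : ℝ) (z : ℝ × ℝ) :
    HasFDerivAt (fun z : ℝ × ℝ => d2_up t z)
      ((ContinuousLinearMap.fst ℝ ℝ ℝ).prod (ContinuousLinearMap.snd ℝ ℝ ℝ)) z := by
  have h : HasFDerivAt (fun z : ℝ × ℝ => (z.1, z.2 + t))
      ((ContinuousLinearMap.fst ℝ ℝ ℝ).prod (ContinuousLinearMap.snd ℝ ℝ ℝ)) z :=
    hasFDerivAt_fst.prodMk (hasFDerivAt_snd.add_const t)
  exact h

private theorem d2_dn_fd (t : ℝ) (z : ℝ × ℝ) :
    HasFDerivAt (fun z : ℝ × ℝ => d2_dn t z)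
      ((ContinuousLinearMap.fst ℝ ℝ ℝ).prod (-ContinuousLinearMap.snd ℝ ℝ ℝ)) z := by
  have h : HasFDerivAt (fun z : ℝ × ℝ => (z.1, t - z.2))
      ((ContinuousLinearMap.fst ℝ ℝ ℝ).prod (-ContinuousLinearMap.snd ℝ ℝ ℝ)) z :=
    hasFDerivAt_fst.prodMk (hasFDerivAt_snd.const_sub t)
  exact h

private theorem d2_up_cc {f : ℝ × ℝ → ℝ} (hf : CC f) (t : ℝ) : CC (fun z => f (d2_up t z)) := by
  refine ⟨hf.1.comp ?_, hf.2.comp_homeomorph (d2_up t)⟩
  have h : ContDiff ℝ 1 (fun z : ℝ × ℝ => (z.1, z.2 + t)) :=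
    contDiff_fst.prodMk (contDiff_snd.add contDiff_const)
  exact h

private theorem d2_dn_cc {f : ℝ × ℝ → ℝ} (hf : CC f) (t : ℝ) : CC (fun z => f (d2_dn t z)) := by
  refine ⟨hf.1.comp ?_, hf.2.comp_homeomorph (d2_dn t)⟩
  have h : ContDiff ℝ 1 (fun z : ℝ × ℝ => (z.1, t - z.2)) :=
    contDiff_fst.prodMk (contDiff_const.sub contDiff_snd)
  exact h

private theorem d2_up_den {f : ℝ × ℝ → ℝ} (hf : CC f) (t : ℝ) (z : ℝ × ℝ) :
    den (fun z => f (d2_up t z)) z = den f (d2_up t z) := by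
  have h : HasFDerivAt (fun z => f (d2_up t z)) _ z :=
    ((hf.diff (d2_up t z)).hasFDerivAt).comp z (d2_up_fd t z)
  unfold den dx dy
  rw [h.fderiv]
  simp

private theorem d2_dn_den {f : ℝ × ℝ → ℝ} (hf : CC f) (t : ℝ) (z : ℝ × ℝ) :
    den (fun z => f (d2_dn t z)) z = den f (d2_dn t z) := by
  have h : HasFDerivAt (fun z => f (d2_dn t z)) _ z :=
    ((hf.diff (d2_dn t z)).hasFDerivAt).comp z (d2_dn_fd t z)
  have h1 : ((0 : ℝ), (-1 : ℝ)) = -((0 : ℝ), (1 : ℝ)) := by simp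
  unfold den dx dy
  rw [h.fderiv]
  simp only [ContinuousLinearMap.comp_apply, ContinuousLinearMap.prod_apply,
    ContinuousLinearMap.coe_fst', ContinuousLinearMap.coe_snd', ContinuousLinearMap.neg_apply,
    neg_zero, h1, map_neg, neg_sq]

theorem piece_up {f χ : ℝ × ℝ → ℝ} (hf : CC f) (hχ : Cut f χ) (t : ℝ) (hE : En f (up t) < 0) :
    2597 / 1000 * π ≤ (∫ z in up t, χ z) ∧
      (421 / 100 * π ≤ (∫ z in up t, χ z) ∨
        231 / 100 * π ≤ 4 / 5 * (∫ z in up t ∩ dn (t + 2), χ z) + 1 / 5 * ∫ z in up t, χ z) := by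
  have hS1 : up 0 = d2_up t ⁻¹' (up t) := by
    ext z
    simp only [up, mem_setOf_eq, mem_preimage, d2_up_apply]
    constructor <;> intro h <;> linarith
  have hS2 : up 0 ∩ dn 2 = d2_up t ⁻¹' (up t ∩ dn (t + 2)) := by
    ext z
    simp only [up, dn, mem_inter_iff, mem_setOf_eq, mem_preimage, d2_up_apply]
    constructor <;> rintro ⟨h, h'⟩ <;> constructor <;> linarith
  have hE' : En (fun z => f (d2_up t z)) (up 0) < 0 := by
    have h1 : En (fun z => f (d2_up t z)) (up 0) = En f (up t) := by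
      unfold En
      simp only [d2_up_den hf t]
      exact d2_int _ (d2_up_mp t) _ _ _ hS1
    rw [h1]
    exact hE
  have h := piece_zero (d2_up_cc hf t) (d2_cut hχ (d2_up t)) hE'
  rw [d2_int _ (d2_up_mp t) χ _ _ hS1, d2_int _ (d2_up_mp t) χ _ _ hS2] at h
  exact h

theorem piece_dn {f χ : ℝ × ℝ → ℝ} (hf : CC f) (hχ : Cut f χ) (t : ℝ) (hE : En f (dn t) < 0) :
    2597 / 1000 * π ≤ (∫ z in dn t, χ z) ∧
      (421 / 100 * π ≤ (∫ z in dn t, χ z) ∨
        231 / 100 * π ≤ 4 / 5 * (∫ z in dn t ∩ up (t - 2), χ z) + 1 / 5 * ∫ z in dn t, χ z) := by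
  have hS1 : up 0 = d2_dn t ⁻¹' (dn t) := by
    ext z
    simp only [up, dn, mem_setOf_eq, mem_preimage, d2_dn_apply]
    constructor <;> intro h <;> linarith
  have hS2 : up 0 ∩ dn 2 = d2_dn t ⁻¹' (dn t ∩ up (t - 2)) := by
    ext z
    simp only [up, dn, mem_inter_iff, mem_setOf_eq, mem_preimage, d2_dn_apply]
    constructor <;> rintro ⟨h, h'⟩ <;> constructor <;> linarith
  have hE' : En (fun z => f (d2_dn t z)) (up 0) < 0 := by
    have h1 : En (fun z => f (d2_dn t z)) (up 0) = En f (dn t) := by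
      unfold En
      simp only [d2_dn_den hf t]
      exact d2_int _ (d2_dn_mp t) _ _ _ hS1
    rw [h1]
    exact hE
  have h := piece_zero (d2_dn_cc hf t) (d2_cut hχ (d2_dn t)) hE'
  rw [d2_int _ (d2_dn_mp t) χ _ _ hS1, d2_int _ (d2_dn_mp t) χ _ _ hS2] at h
  exact h

end Pool.Agent.W_1ab439_h81

end D2
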